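import Mathlib

/-!
# Brumer's theorem (p-adic Baker), definitions

`E` is a complete ultrametric normed field over `ℚ_[p]` (for instance `ℂ_[p]` or a finite extension of `ℚ_[p]`).
-/

namespace Bru95

open NumberField

/-- The exponential series `∑ x^n / n!`. -/
noncomputable def ex {E : Type*} [NormedField E] (x : E) : E :=
  ∑' n : ℕ, ((n.factorial : E))⁻¹ * x ^ n

/-- The coefficients of the power series `f` satisfy `‖c_n‖ R^n ≤ B`. -/
def PB {E : Type*} [NormedField E] (R B : ℝ) (f : PowerSeries E) : Prop :=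
  ∀ n : ℕ, ‖PowerSeries.coeff n f‖ * R ^ n ≤ B

/-- The value at `t` of the power series `f`. -/
noncomputable def ev {E : Type*} [NormedField E] (f : PowerSeries E) (t : E) : E :=
  ∑' n : ℕ, PowerSeries.coeff n f * t ^ n

/-- The derivative of a power series. -/
noncomputable def der {E : Type*} [NormedField E] (f : PowerSeries E) : PowerSeries E :=
  PowerSeries.mk fun n => ((n + 1 : ℕ) : E) * PowerSeries.coeff (n + 1) f

/-- The power series of `z ↦ ∑_l q_l exp (ν_l z)`. -/
noncomputable def expSum {E : Type*} [NormedField E] {Λ : Type*} [Fintype Λ] (q ν : Λ → E) :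
    PowerSeries E :=
  PowerSeries.mk fun n => ∑ l, q l * ν l ^ n * ((n.factorial : E))⁻¹

section SL

variable {F : Type*} [Field F] [NumberField F] {r : ℕ}

/-- The eigenvalue of the `g`-th derivation on the monomial with exponents `l`. -/
def Aev (a : Fin r → Fin (r + 1) → 𝓞 F) {N : ℕ} (l : Fin (r + 1) → Fin N) (g : Fin r) : F :=
  ∑ j, ((l j : ℕ) : F) * (a g j : F)

/-- The value of the monomial with exponents `l` at the `i`-th point. -/
def Xev (x : Fin r → Fin (r + 1) → F) {N : ℕ} (l : Fin (r + 1) → Fin N) (i : Fin r) : F :=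
  ∏ j, x i j ^ (l j : ℕ)

/-- The derivative of order `τ` of the auxiliary function at the point `∑ s_i y_i`. -/
def gam (a : Fin r → Fin (r + 1) → 𝓞 F) (x : Fin r → Fin (r + 1) → F) {N : ℕ}
    (P : (Fin (r + 1) → Fin N) → 𝓞 F) (τ s : Fin r → ℕ) : F :=
  ∑ l, (P l : F) * (∏ g, Aev a l g ^ τ g) * ∏ i, Xev x l i ^ s i

end SL

/-- Data for the Schneider-Lang argument: `r` derivations, `r + 1` linear forms, `r` linearly
independent points (the rows of `Y`), at all of which the `r + 1` exponentials of the linear forms take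
values in the number field `F`; the forms are linearly independent over `ℚ`. -/
structure SL (p : ℕ) [Fact p.Prime] (E : Type*) [NormedField E] [NormedAlgebra ℚ_[p] E]
    (F : Type*) [Field F] [NumberField F] (r : ℕ) where
  hr : 0 < r
  σ : F →+* E
  a : Fin r → Fin (r + 1) → 𝓞 F
  x : Fin r → Fin (r + 1) → F
  Y : Matrix (Fin r) (Fin r) E
  x_ne : ∀ i j, x i j ≠ 0
  Y_det : Y.det ≠ 0
  small : ∀ i j, ‖∑ g, Y i g * σ (a g j : F)‖ ≤ ((p : ℝ) ^ 3)⁻¹
  exp_eq : ∀ i j, ex (∑ g, Y i g * σ (a g j : F)) = σ (x i j)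
  indep : ∀ m : Fin (r + 1) → ℤ, (∑ j, (m j : F) * (a ⟨0, hr⟩ j : F)) = 0 → m = 0

namespace SL

variable {p : ℕ} [Fact p.Prime] {E : Type*} [NormedField E] [NormedAlgebra ℚ_[p] E]
  {F : Type*} [Field F] [NumberField F] {r : ℕ}

/-- The value of the `j`-th linear form at the `i`-th point. -/
noncomputable def mu (D : SL p E F r) (i : Fin r) (j : Fin (r + 1)) : E :=
  ∑ g, D.Y i g * D.σ (D.a g j : F)

/-- The value at the `i`-th point of the linear form `∑ l_j L_j`. -/
noncomputable def muL (D : SL p E F r) {N : ℕ} (l : Fin (r + 1) → Fin N) (i : Fin r) : E :=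
  ∑ j, ((l j : ℕ) : E) * D.mu i j

/-- The derivative of order `κ`, in the coordinates given by the points, of the auxiliary function at
the point `∑ s_i y_i`. -/
noncomputable def Psi (D : SL p E F r) {N : ℕ} (P : (Fin (r + 1) → Fin N) → 𝓞 F)
    (κ s : Fin r → ℕ) : E :=
  ∑ l, D.σ (P l : F) * (∏ i, D.muL l i ^ κ i) * ∏ i, D.σ (Xev D.x l i) ^ s i

end SL

/-- `L` is the `p`-adic logarithm on `ℚ_[p]` (Iwasawa's branch): a homomorphism on `ℚ_[p]ˣ` with
`L p = 0` and with derivative `1` at `1`. -/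
structure IsPadicLog (p : ℕ) [Fact p.Prime] (L : ℚ_[p] → ℚ_[p]) : Prop where
  map_mul : ∀ x y : ℚ_[p], x ≠ 0 → y ≠ 0 → L (x * y) = L x + L y
  map_p : L (p : ℚ_[p]) = 0
  deriv_one : HasDerivAt L 1 1

end Bru95
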