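import Pool.Agent.LibBru95.RExpZ

/-! Row B27. `ex` commutes with `algebraMap ℚ_[p] E` (an isometry, continuous ring homomorphism; `map_tsum`/
`HasSum.map`). -/

namespace Bru95

theorem algebraMap_ex (p : ℕ) [Fact p.Prime] {E : Type*} [NormedField E] [NormedAlgebra ℚ_[p] E]
    [IsUltrametricDist E] [CompleteSpace E] [CharZero E] {z : ℚ_[p]}
    (hz : ‖z‖ ≤ ((p : ℝ) ^ 2)⁻¹) : algebraMap ℚ_[p] E (ex z) = ex (algebraMap ℚ_[p] E z) := by
  have h1 := (ex_summable hz).hasSum.map (algebraMap ℚ_[p] E).toAddMonoidHom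
    (continuous_algebraMap ℚ_[p] E)
  have h2 : (⇑(algebraMap ℚ_[p] E).toAddMonoidHom ∘
      fun n : ℕ => ((n.factorial : ℚ_[p]))⁻¹ * z ^ n) =
      fun n : ℕ => ((n.factorial : E))⁻¹ * (algebraMap ℚ_[p] E z) ^ n := by
    funext n
    change algebraMap ℚ_[p] E (((n.factorial : ℚ_[p]))⁻¹ * z ^ n) = _
    rw [map_mul, map_inv₀, map_natCast, map_pow]
  rw [h2] at h1
  exact h1.tsum_eq.symm

end Bru95
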