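import Pool.Agent.LibBru95.RDivAll

/-! Row B7. Schwarz's lemma. The coefficients of `(∏ (X - s)^(k s)) w` are at most `sup ‖w_n‖ ≤ B / R^(∑ k)`
(each `(X - s)` keeps the bound `∀ n, ‖c_n‖ ≤ B'` as `‖s‖ ≤ 1`; start from `PB R B' w`, `R ≥ 1`), the coefficients of
`der^[m] f` too, and `‖ev f t‖ ≤ sup ‖c_n‖` for `‖t‖ ≤ 1` (`norm_tsum_le'`). -/

namespace Bru95

variable {p : ℕ} [Fact p.Prime] {E : Type*} [NormedField E] [NormedAlgebra ℚ_[p] E]
  [IsUltrametricDist E] [CompleteSpace E] [CharZero E]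

private def RBound_P {E : Type*} [NormedField E] (B : ℝ) (f : PowerSeries E) : Prop :=
  ∀ n : ℕ, ‖PowerSeries.coeff n f‖ ≤ B

private theorem RBound_nat (n : ℕ) : ‖(n : E)‖ ≤ 1 :=
  IsUltrametricDist.norm_natCast_le_one E n

private theorem RBound_lin {B : ℝ} {g : PowerSeries E} (hg : RBound_P B g) {s : E}
    (hs : ‖s‖ ≤ 1) : RBound_P B ((PowerSeries.X - PowerSeries.C s) * g) := by
  have hsg : ∀ n, ‖s * PowerSeries.coeff n g‖ ≤ B := by
    intro n
    rw [norm_mul]
    exact le_trans (mul_le_of_le_one_left (norm_nonneg _) hs) (hg n)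
  intro n
  rw [sub_mul, map_sub, PowerSeries.coeff_C_mul]
  cases n with
  | zero =>
    rw [PowerSeries.coeff_zero_X_mul, zero_sub, norm_neg]
    exact hsg 0
  | succ n =>
    rw [PowerSeries.coeff_succ_X_mul, sub_eq_add_neg]
    refine le_trans (IsUltrametricDist.norm_add_le_max _ _) (max_le (hg n) ?_)
    rw [norm_neg]
    exact hsg (n + 1)

private theorem RBound_pow {B : ℝ} {g : PowerSeries E} (hg : RBound_P B g) {s : E}
    (hs : ‖s‖ ≤ 1) (k : ℕ) : RBound_P B ((PowerSeries.X - PowerSeries.C s) ^ k * g) := by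
  induction k with
  | zero => rw [pow_zero, one_mul]; exact hg
  | succ k ih =>
    rw [pow_succ', mul_assoc]
    exact RBound_lin ih hs

private theorem RBound_prod {B : ℝ} {g : PowerSeries E} (A : Finset ℕ) (k : ℕ → ℕ)
    (hg : RBound_P B g) :
    RBound_P B ((∏ s ∈ A, (PowerSeries.X - PowerSeries.C (s : E)) ^ k s) * g) := by
  induction A using Finset.induction_on with
  | empty => rw [Finset.prod_empty, one_mul]; exact hg
  | insert a A ha ih =>
    rw [Finset.prod_insert ha, mul_assoc]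
    exact RBound_pow ih (RBound_nat a) (k a)

private theorem RBound_der {B : ℝ} {g : PowerSeries E} (hg : RBound_P B g) :
    RBound_P B (der g) := by
  intro n
  unfold der
  rw [PowerSeries.coeff_mk, norm_mul]
  exact le_trans (mul_le_of_le_one_left (norm_nonneg _) (RBound_nat (n + 1))) (hg (n + 1))

theorem schwarz_bound {R B : ℝ} (hR : 1 < R) (hB : 0 ≤ B) (A : Finset ℕ) (k : ℕ → ℕ)
    (f : PowerSeries E) (hf : PB R B f)
    (hz : ∀ s ∈ A, ∀ m < k s, ev (der^[m] f) (s : E) = 0) (m : ℕ) {t : E} (ht : ‖t‖ ≤ 1) :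
    ‖ev (der^[m] f) t‖ ≤ B / R ^ (∑ s ∈ A, k s) := by
  have hR0 : (0 : ℝ) < R := lt_trans one_pos hR
  have hB' : 0 ≤ B / R ^ (∑ s ∈ A, k s) := div_nonneg hB (pow_nonneg hR0.le _)
  obtain ⟨w, hw, hfw⟩ := div_all hR A k f hf hz
  have h1 : RBound_P (B / R ^ (∑ s ∈ A, k s)) w := by
    intro n
    have h2 : (1 : ℝ) ≤ R ^ n := one_le_pow₀ hR.le
    exact le_trans (le_mul_of_one_le_right (norm_nonneg _) h2) (hw n)
  have h3 : RBound_P (B / R ^ (∑ s ∈ A, k s)) f := by
    rw [hfw]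
    exact RBound_prod A k h1
  have h4 : ∀ m : ℕ, RBound_P (B / R ^ (∑ s ∈ A, k s)) (der^[m] f) := by
    intro m
    induction m with
    | zero => exact h3
    | succ m ih =>
      rw [Function.iterate_succ_apply']
      exact RBound_der ih
  unfold ev
  refine norm_tsum_le' hB' fun n => ?_
  rw [norm_mul, norm_pow]
  calc ‖PowerSeries.coeff n (der^[m] f)‖ * ‖t‖ ^ n ≤ ‖PowerSeries.coeff n (der^[m] f)‖ * 1 := by
        exact mul_le_mul_of_nonneg_left (pow_le_one₀ (norm_nonneg _) ht) (norm_nonneg _)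
    _ = ‖PowerSeries.coeff n (der^[m] f)‖ := mul_one _
    _ ≤ _ := h4 m n

end Bru95
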