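import Pool.Agent.LibBru95.Defs

/-! Row B29. For a unit `u` of `ℤ_[p]`, `u^(p^2 (p-1)) ≡ 1 mod p^3` (Euler: `(ZMod (p^3))ˣ` has `p^2 (p-1)` elements,
`PadicInt.toZModPow`), and `y = p^(v y) u`. -/

namespace Bru95

theorem pow_eq (p : ℕ) [Fact p.Prime] (y : ℚ_[p]) (hy : y ≠ 0) : ∃ w : ℚ_[p], ‖w - 1‖ ≤ ((p : ℝ) ^ 3)⁻¹ ∧
    y ^ (p ^ 2 * (p - 1)) = (p : ℚ_[p]) ^ (((p ^ 2 * (p - 1) : ℕ) : ℤ) * y.valuation) * w := by
  have hp0 : (p : ℚ_[p]) ≠ 0 := by exact_mod_cast (Fact.out : p.Prime).ne_zero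
  have hpR : (p : ℝ) ≠ 0 := by exact_mod_cast (Fact.out : p.Prime).ne_zero
  set u : ℚ_[p] := y * (p : ℚ_[p]) ^ (-y.valuation) with hu
  have hn : ‖u‖ = 1 := by
    rw [hu, norm_mul, Padic.norm_eq_zpow_neg_valuation hy, Padic.norm_p_zpow, ← zpow_add₀ hpR]
    simp
  have hyu : y = (p : ℚ_[p]) ^ y.valuation * u := by
    rw [hu, mul_comm y, ← mul_assoc, ← zpow_add₀ hp0]
    simp
  set n := p ^ 2 * (p - 1) with hnd
  set U : ℤ_[p]ˣ := PadicInt.mkUnits hn with hU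
  have hUu : ((U : ℤ_[p]) : ℚ_[p]) = u := PadicInt.mkUnits_eq hn
  have htot : Nat.totient (p ^ 3) = n := by
    rw [Nat.totient_prime_pow (Fact.out : p.Prime) (by norm_num : 0 < 3)]
  have h1 : PadicInt.toZModPow 3 ((U : ℤ_[p]) ^ n) = 1 := by
    have h2 := ZMod.pow_totient (Units.map (PadicInt.toZModPow (p := p) 3).toMonoidHom U)
    rw [htot] at h2
    have h3 := congrArg Units.val h2
    rw [Units.val_pow_eq_pow_val, Units.val_one] at h3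
    rw [map_pow]
    exact h3
  have h2 : (U : ℤ_[p]) ^ n - 1 ∈ Ideal.span {(p : ℤ_[p]) ^ 3} := by
    rw [← PadicInt.ker_toZModPow, RingHom.mem_ker, map_sub, h1, map_one, sub_self]
  have h3 := (PadicInt.norm_le_pow_iff_mem_span_pow _ 3).2 h2
  refine ⟨u ^ n, ?_, ?_⟩
  · have h4 : u ^ n - 1 = (((U : ℤ_[p]) ^ n - 1 : ℤ_[p]) : ℚ_[p]) := by
      push_cast
      rw [hUu]
    rw [h4, PadicInt.padic_norm_e_of_padicInt]
    refine h3.trans (le_of_eq ?_)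
    rw [zpow_neg]
    norm_cast
  · conv_lhs => rw [hyu]
    rw [mul_pow]
    congr 1
    rw [← zpow_natCast, ← zpow_mul, mul_comm]

end Bru95
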