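import Pool.Agent.LibBru95.RLog
import Pool.Agent.LibBru95.RPow

/-! Row B30. The kernel of the logarithm and its existence. `log_eq_zero`: by `pow_eq`, `ex_surj`, `log_ex`:
`0 = p^2(p-1) L x = L w = z`, so `w = 1`. `exists_log`: define `L x = z / (p^2 (p-1))` where `x ≠ 0`,
`x^(p^2(p-1)) = p^b w` (`pow_eq`), `ex z = w` (`ex_surj`, unique by `norm_ex_sub_one`); `L 0 = 0`. Multiplicativity: valuations
add, `ex_add`, injectivity of `ex` on the ball. Derivative at 1: for `x = ex z` near 1, `x^N = ex (N z)` with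
`N = p^2(p-1)`, so `L x = z`, and `‖ex z - 1 - z‖ ≤ p^2 ‖z‖^2`, `‖z‖ = ‖ex z - 1‖`. -/

namespace Bru95

variable {p : ℕ} [Fact p.Prime]

private theorem rLogZero_le : ((p : ℝ) ^ 3)⁻¹ ≤ ((p : ℝ) ^ 2)⁻¹ := by
  have hp1 : (1 : ℝ) < p := by exact_mod_cast (Fact.out : p.Prime).one_lt
  have hp0 : (0 : ℝ) < (p : ℝ) ^ 2 := by positivity
  exact inv_anti₀ hp0 (pow_le_pow_right₀ hp1.le (by norm_num))

private theorem rLogZero_p0 : (p : ℚ_[p]) ≠ 0 := by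
  exact_mod_cast (Fact.out : p.Prime).ne_zero

private theorem rLogZero_N : ((p ^ 2 * (p - 1) : ℕ) : ℚ_[p]) ≠ 0 := by
  have h1 : p ^ 2 * (p - 1) ≠ 0 := by
    have h2 := (Fact.out : p.Prime).two_le
    exact Nat.mul_ne_zero (pow_ne_zero _ (by omega)) (by omega)
  exact_mod_cast h1

private theorem rLogZero_log {L : ℚ_[p] → ℚ_[p]} (hL : IsPadicLog p L) {x : ℚ_[p]} (hx : x ≠ 0) {z : ℚ_[p]}
    (hz : ‖z‖ ≤ ((p : ℝ) ^ 3)⁻¹)
    (h : x ^ (p ^ 2 * (p - 1)) = (p : ℚ_[p]) ^ (((p ^ 2 * (p - 1) : ℕ) : ℤ) * x.valuation) * ex z) :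
    ((p ^ 2 * (p - 1) : ℕ) : ℚ_[p]) * L x = z := by
  have hw : ex z ≠ 0 := ex_ne_zero (p := p) (hz.trans rLogZero_le)
  have h1 := congrArg L h
  rw [hL.map_mul _ _ (zpow_ne_zero _ rLogZero_p0) hw, hL.map_zpow rLogZero_p0, hL.map_p, mul_zero, zero_add,
    hL.log_ex hz, ← zpow_natCast, hL.map_zpow hx] at h1
  exact_mod_cast h1

theorem IsPadicLog.pow_eq_of_log_eq_zero {L : ℚ_[p] → ℚ_[p]} (hL : IsPadicLog p L) {x : ℚ_[p]}
    (hx : x ≠ 0) (h : L x = 0) :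
    x ^ (p ^ 2 * (p - 1)) = (p : ℚ_[p]) ^ (((p ^ 2 * (p - 1) : ℕ) : ℤ) * x.valuation) := by
  obtain ⟨w, hw, hxw⟩ := pow_eq p x hx
  obtain ⟨z, hz, hzw⟩ := ex_surj hw
  rw [← hzw] at hxw
  have h1 := rLogZero_log hL hx hz hxw
  rw [h, mul_zero] at h1
  rw [hxw, ← h1, ex_zero, mul_one]

private theorem rLogZero_inj {a b : ℚ_[p]} (ha : ‖a‖ ≤ ((p : ℝ) ^ 3)⁻¹) (hb : ‖b‖ ≤ ((p : ℝ) ^ 3)⁻¹)
    (h : ex a = ex b) : a = b := by
  have hab : ‖a - b‖ ≤ ((p : ℝ) ^ 3)⁻¹ := by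
    rw [sub_eq_add_neg]
    exact (IsUltrametricDist.norm_add_le_max a (-b)).trans (max_le ha (by rw [norm_neg]; exact hb))
  have h1 := ex_add (p := p) (hab.trans rLogZero_le) (hb.trans rLogZero_le)
  rw [sub_add_cancel, h] at h1
  have h2 : ex (a - b) = 1 := by
    have h3 : ex b ≠ 0 := ex_ne_zero (p := p) (hb.trans rLogZero_le)
    exact mul_right_cancel₀ h3 (by rw [one_mul]; exact h1.symm)
  have h3 := norm_ex_sub_one hab
  rw [h2, sub_self, norm_zero] at h3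
  exact sub_eq_zero.1 (norm_eq_zero.1 h3.symm)

private theorem rLogZero_exists (x : ℚ_[p]) (hx : x ≠ 0) : ∃ z : ℚ_[p], ‖z‖ ≤ ((p : ℝ) ^ 3)⁻¹ ∧
    x ^ (p ^ 2 * (p - 1)) = (p : ℚ_[p]) ^ (((p ^ 2 * (p - 1) : ℕ) : ℤ) * x.valuation) * ex z := by
  obtain ⟨w, hw, hxw⟩ := pow_eq p x hx
  obtain ⟨z, hz, hzw⟩ := ex_surj hw
  exact ⟨z, hz, by rw [hzw]; exact hxw⟩

variable (p) in
/-- The `p`-adic logarithm exists. -/
theorem exists_log : ∃ L : ℚ_[p] → ℚ_[p], IsPadicLog p L := by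
  classical
  choose z hz hxz using fun x : {x : ℚ_[p] // x ≠ 0} => rLogZero_exists x.1 x.2
  obtain ⟨L, hLd⟩ : ∃ L : ℚ_[p] → ℚ_[p],
      L = fun x => if h : x ≠ 0 then z ⟨x, h⟩ / ((p ^ 2 * (p - 1) : ℕ) : ℚ_[p]) else 0 := ⟨_, rfl⟩
  have hLx : ∀ (x : ℚ_[p]) (h : x ≠ 0), L x = z ⟨x, h⟩ / ((p ^ 2 * (p - 1) : ℕ) : ℚ_[p]) := by
    intro x h
    rw [hLd]
    exact dif_pos h
  -- the value is determined by the equation
  have key : ∀ (x : ℚ_[p]) (h : x ≠ 0) (y : ℚ_[p]), ‖y‖ ≤ ((p : ℝ) ^ 3)⁻¹ →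
      x ^ (p ^ 2 * (p - 1)) = (p : ℚ_[p]) ^ (((p ^ 2 * (p - 1) : ℕ) : ℤ) * x.valuation) * ex y →
      L x = y / ((p ^ 2 * (p - 1) : ℕ) : ℚ_[p]) := by
    intro x h y hy hxy
    rw [hLx x h]
    congr 1
    refine rLogZero_inj (hz _) hy ?_
    have h1 := hxz ⟨x, h⟩
    rw [hxy] at h1
    exact (mul_left_cancel₀ (zpow_ne_zero _ rLogZero_p0) h1).symm
  refine ⟨L, ?_, ?_, ?_⟩
  · intro x y hx hy
    have hzz : ‖z ⟨x, hx⟩ + z ⟨y, hy⟩‖ ≤ ((p : ℝ) ^ 3)⁻¹ :=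
      (IsUltrametricDist.norm_add_le_max _ _).trans (max_le (hz _) (hz _))
    rw [hLx x hx, hLx y hy, ← add_div]
    refine key _ (mul_ne_zero hx hy) _ hzz ?_
    rw [ex_add (p := p) ((hz _).trans rLogZero_le) ((hz _).trans rLogZero_le), mul_pow, hxz ⟨x, hx⟩, hxz ⟨y, hy⟩,
      Padic.valuation_mul hx hy, mul_add, zpow_add₀ rLogZero_p0]
    ring
  · rw [key _ rLogZero_p0 0 (by rw [norm_zero]; positivity) ?_, zero_div]
    rw [ex_zero, mul_one, Padic.valuation_p, mul_one, zpow_natCast]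
  · have h1z : L 1 = 0 := by
      rw [key 1 one_ne_zero 0 (by rw [norm_zero]; positivity) ?_, zero_div]
      rw [ex_zero, mul_one, Padic.valuation_one, mul_zero, zpow_zero, one_pow]
    have hbound : ∀ x : ℚ_[p], ‖x - 1‖ ≤ ((p : ℝ) ^ 3)⁻¹ → ‖L x - L 1 - (x - 1) • (1 : ℚ_[p])‖ ≤
        (p : ℝ) ^ 2 * ‖‖x - 1‖ ^ 2‖ := by
      intro x hx
      obtain ⟨y, hy, hyx⟩ := ex_surj hx
      have hx1 : ‖x‖ = 1 := by
        rw [← hyx]
        exact norm_ex (p := p) (hy.trans rLogZero_le)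
      have hx0 : x ≠ 0 := by
        intro h0
        rw [h0, norm_zero] at hx1
        exact zero_ne_one hx1
      have hval : x.valuation = 0 := by
        have h2 := Padic.norm_eq_zpow_neg_valuation hx0
        rw [hx1] at h2
        have hp1 : (1 : ℝ) < p := by exact_mod_cast (Fact.out : p.Prime).one_lt
        have h3 := (zpow_eq_one_iff_right₀ (by linarith) hp1.ne').1 h2.symm
        omega
      have hNy : ‖((p ^ 2 * (p - 1) : ℕ) : ℚ_[p]) * y‖ ≤ ((p : ℝ) ^ 3)⁻¹ := by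
        rw [norm_mul]
        calc ‖((p ^ 2 * (p - 1) : ℕ) : ℚ_[p])‖ * ‖y‖ ≤ 1 * ((p : ℝ) ^ 3)⁻¹ :=
              mul_le_mul (IsUltrametricDist.norm_natCast_le_one ℚ_[p] _) hy (norm_nonneg _) zero_le_one
          _ = ((p : ℝ) ^ 3)⁻¹ := one_mul _
      have hLy : L x = y := by
        rw [key x hx0 (((p ^ 2 * (p - 1) : ℕ) : ℚ_[p]) * y) hNy ?_, mul_div_cancel_left₀ _ rLogZero_N]
        rw [hval, mul_zero, zpow_zero, one_mul]
        have h4 := ex_int_mul (p := p) (hy.trans rLogZero_le) ((p ^ 2 * (p - 1) : ℕ) : ℤ)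
        rw [zpow_natCast] at h4
        rw [← hyx, ← h4]
        congr 2
      rw [hLy, h1z, sub_zero, smul_eq_mul, mul_one, norm_pow, norm_norm]
      have h5 := norm_ex_sub_one_sub_le (p := p) (hy.trans rLogZero_le)
      have h6 := norm_ex_sub_one hy
      rw [hyx] at h5 h6
      rw [h6, ← norm_neg]
      have h7 : -(y - (x - 1)) = x - 1 - y := by ring
      rw [h7]
      exact h5
    rw [hasDerivAt_iff_isLittleO]
    refine Asymptotics.IsBigO.trans_isLittleO ?_ (Asymptotics.isLittleO_pow_sub_sub (1 : ℚ_[p]) (m := 2) (by norm_num))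
    refine Asymptotics.IsBigO.of_bound ((p : ℝ) ^ 2) ?_
    have hp0 : (0 : ℝ) < ((p : ℝ) ^ 3)⁻¹ := by
      have hp1 : (1 : ℝ) < p := by exact_mod_cast (Fact.out : p.Prime).one_lt
      positivity
    filter_upwards [Metric.closedBall_mem_nhds (1 : ℚ_[p]) hp0] with x hx
    rw [mem_closedBall_iff_norm] at hx
    exact hbound x hx

/-- and it is unique on `ℚ_[p]ˣ` -/
theorem IsPadicLog.unique {L L' : ℚ_[p] → ℚ_[p]} (hL : IsPadicLog p L) (hL' : IsPadicLog p L')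
    {x : ℚ_[p]} (hx : x ≠ 0) : L x = L' x := by
  obtain ⟨z, hz, hxz⟩ := rLogZero_exists x hx
  have h1 := rLogZero_log hL hx hz hxz
  have h2 := rLogZero_log hL' hx hz hxz
  rw [← h2] at h1
  exact mul_left_cancel₀ rLogZero_N h1

end Bru95
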