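import Pool.Agent.LibBru95.RBrumer
import Pool.Agent.LibBru95.RLogZero
import Pool.Agent.LibBru95.RAlgMap

/-! Row B31. -/

namespace Bru95

variable {p : ℕ} [Fact p.Prime] {L : ℚ_[p] → ℚ_[p]}

/-- Row B31. Brumer for elements of `ℚ_[p]`. Apply `brumer_algClosed` with `E = ℂ_[p]`, `lam k = algebraMap (N L (y_k))`,
`N = p^2 (p-1)`: `y_k^N = p^(N v) w`, `w = ex z`, `z = L w = N L y_k` (`log_ex`, `map_zpow`, `map_p`), so
`ex (lam k) = algebraMap w` is algebraic (`algebraMap_ex`), and `β k` replaced by `algebraMap (β k)`. The conclusion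
`∑ m_k N L(y_k) = 0` in `ℂ_[p]` comes back to `ℚ_[p]` (injectivity), divide by `N`. -/
theorem brumer_padic (hL : IsPadicLog p L) {n : ℕ} (y : Fin n → ℚ_[p]) (hy : ∀ k, y k ≠ 0)
    (hyalg : ∀ k, IsAlgebraic ℚ (y k)) (β : Fin n → ℚ_[p]) (hβ : ∀ k, IsAlgebraic ℚ (β k))
    (hβ0 : β ≠ 0) (hrel : ∑ k, β k * L (y k) = 0) :
    ∃ m : Fin n → ℤ, m ≠ 0 ∧ ∑ k, (m k : ℚ_[p]) * L (y k) = 0 := by
  classical
  have hp : p.Prime := Fact.out
  have hp0 : (p : ℚ_[p]) ≠ 0 := by exact_mod_cast hp.ne_zero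
  have hN : p ^ 2 * (p - 1) ≠ 0 := by
    have h2 := hp.two_le
    have h3 : p - 1 ≠ 0 := by omega
    exact mul_ne_zero (pow_ne_zero _ hp.ne_zero) h3
  generalize hNdef : p ^ 2 * (p - 1) = N at hN
  have hN0 : (N : ℚ_[p]) ≠ 0 := by exact_mod_cast hN
  have key : ∀ k, ∃ z w : ℚ_[p], ‖z‖ ≤ ((p : ℝ) ^ 3)⁻¹ ∧ ex z = w ∧ IsAlgebraic ℚ w ∧
      z = (N : ℚ_[p]) * L (y k) := by
    intro k
    obtain ⟨w, hw1, hw2⟩ := pow_eq p (y k) (hy k)
    rw [hNdef] at hw2
    obtain ⟨z, hz1, hz2⟩ := ex_surj hw1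
    have hpz : (p : ℚ_[p]) ^ (((N : ℕ) : ℤ) * (y k).valuation) ≠ 0 := zpow_ne_zero _ hp0
    have hw0 : w ≠ 0 := by
      intro h
      rw [h, mul_zero] at hw2
      exact pow_ne_zero N (hy k) hw2
    refine ⟨z, w, hz1, hz2, ?_, ?_⟩
    · have h1 : w = y k ^ N * ((p : ℚ_[p]) ^ (((N : ℕ) : ℤ) * (y k).valuation))⁻¹ := by
        rw [hw2, mul_comm, ← mul_assoc, inv_mul_cancel₀ hpz, one_mul]
      rw [h1]
      have h2 : IsAlgebraic ℚ (p : ℚ_[p]) := isAlgebraic_natCast p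
      have h3 : IsAlgebraic ℚ ((p : ℚ_[p]) ^ (((N : ℕ) : ℤ) * (y k).valuation)) := by
        cases (((N : ℕ) : ℤ) * (y k).valuation) with
        | ofNat n =>
          rw [Int.ofNat_eq_natCast, zpow_natCast]
          exact h2.pow n
        | negSucc n =>
          rw [zpow_negSucc]
          exact (h2.pow (n + 1)).inv
      exact ((hyalg k).pow N).mul h3.inv
    · have h1 := hL.log_ex hz1
      rw [hz2] at h1
      have h2 := hL.map_zpow (hy k) (N : ℤ)
      rw [zpow_natCast, hw2, hL.map_mul _ _ hpz hw0, hL.map_zpow hp0, hL.map_p, mul_zero,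
        zero_add, h1] at h2
      rw [h2]
      push_cast
      rfl
  choose z w hz hzw hwalg hzL using key
  have hφinj : Function.Injective (algebraMap ℚ_[p] ℂ_[p]) := (algebraMap ℚ_[p] ℂ_[p]).injective
  have halg : ∀ a : ℚ_[p], IsAlgebraic ℚ a → IsAlgebraic ℚ (algebraMap ℚ_[p] ℂ_[p] a) := by
    intro a ha
    exact ha.algHom ((algebraMap ℚ_[p] ℂ_[p]).toRatAlgHom)
  have h32 : ((p : ℝ) ^ 3)⁻¹ ≤ ((p : ℝ) ^ 2)⁻¹ := by
    apply inv_anti₀
    · have : (0 : ℝ) < p := by exact_mod_cast hp.pos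
      positivity
    · exact pow_le_pow_right₀ (by exact_mod_cast hp.one_le) (by norm_num)
  obtain ⟨m, hm0, hm⟩ := brumer_algClosed (p := p) (E := ℂ_[p])
    (fun k => algebraMap ℚ_[p] ℂ_[p] (z k))
    (fun k => by rw [norm_algebraMap']; exact hz k)
    (fun k => by
      rw [← algebraMap_ex p ((hz k).trans h32), hzw k]
      exact halg _ (hwalg k))
    (fun k => algebraMap ℚ_[p] ℂ_[p] (β k)) (fun k => halg _ (hβ k))
    (by
      intro h
      apply hβ0
      funext k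
      apply hφinj
      rw [Pi.zero_apply, map_zero]
      exact congrFun h k)
    (by
      have h1 : ∑ k, β k * z k = 0 := by
        calc ∑ k, β k * z k = ∑ k, (N : ℚ_[p]) * (β k * L (y k)) := by
              refine Finset.sum_congr rfl fun k _ => ?_
              rw [hzL k]; ring
          _ = 0 := by rw [← Finset.mul_sum, hrel, mul_zero]
      have h2 := congrArg (algebraMap ℚ_[p] ℂ_[p]) h1
      rw [map_zero, map_sum] at h2
      rw [← h2]
      refine Finset.sum_congr rfl fun k _ => ?_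
      rw [map_mul])
  refine ⟨m, hm0, ?_⟩
  have h3 : ∑ k, (m k : ℚ_[p]) * z k = 0 := by
    apply hφinj
    rw [map_zero, map_sum, ← hm]
    refine Finset.sum_congr rfl fun k _ => ?_
    rw [map_mul, map_intCast]
  have h4 : (N : ℚ_[p]) * ∑ k, (m k : ℚ_[p]) * L (y k) = 0 := by
    rw [← h3, Finset.mul_sum]
    refine Finset.sum_congr rfl fun k _ => ?_
    rw [hzL k]; ring
  exact (mul_eq_zero.1 h4).resolve_left hN0

end Bru95
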