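import Pool.Agent.LibBru95.RBrPad

/-! Row B32. -/

namespace Bru95

variable {p : ℕ} [Fact p.Prime] {L : ℚ_[p] → ℚ_[p]}

private theorem RBrV_rat (hL : IsPadicLog p L) {ι : Type*} [Fintype ι] (y : ι → ℚ_[p])
    (hy : ∀ k, y k ≠ 0)
    (h : ∀ m : ι → ℤ, L (∏ k, y k ^ m k) = 0 → ∑ k, m k * (y k).valuation = 0)
    (q : ι → ℚ) (hq : ∑ k, (q k : ℚ_[p]) * L (y k) = 0) :
    ∑ k, q k * ((y k).valuation : ℚ) = 0 := by
  have hd : ∀ k, ∃ m : ℤ, (m : ℚ) = ((∏ i, (q i).den : ℕ) : ℚ) * q k := by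
    intro k
    obtain ⟨d, hd⟩ := Finset.dvd_prod_of_mem (fun i => (q i).den) (Finset.mem_univ k)
    refine ⟨d * (q k).num, ?_⟩
    have h1 : (q k) * ((q k).den : ℚ) = (q k).num := Rat.mul_den_eq_num (q k)
    have h2 : ((∏ i, (q i).den : ℕ) : ℚ) = ((q k).den : ℚ) * (d : ℚ) := by
      rw [hd]; push_cast; ring
    rw [h2]
    push_cast
    rw [← h1]
    ring
  choose m hm using hd
  have hN : ((∏ i, (q i).den : ℕ) : ℚ) ≠ 0 := by
    rw [Nat.cast_ne_zero, Finset.prod_ne_zero_iff]
    intro i _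
    exact (q i).den_nz
  have h0 : L (∏ k, y k ^ m k) = 0 := by
    rw [hL.map_prod_zpow Finset.univ y (fun i _ => hy i) m]
    have hmp : ∀ k, (m k : ℚ_[p]) = ((∏ i, (q i).den : ℕ) : ℚ_[p]) * (q k : ℚ_[p]) := by
      intro k
      have := congrArg (fun x : ℚ => (x : ℚ_[p])) (hm k)
      simpa using this
    calc ∑ k, (m k : ℚ_[p]) * L (y k)
        = ((∏ i, (q i).den : ℕ) : ℚ_[p]) * ∑ k, (q k : ℚ_[p]) * L (y k) := by
          rw [Finset.mul_sum]
          exact Finset.sum_congr rfl fun k _ => by rw [hmp k, mul_assoc]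
      _ = 0 := by rw [hq, mul_zero]
  have h1 : (∑ k, (m k : ℚ) * ((y k).valuation : ℚ)) = 0 := by
    exact_mod_cast h m h0
  have h2 : ((∏ i, (q i).den : ℕ) : ℚ) * ∑ k, q k * ((y k).valuation : ℚ) = 0 := by
    rw [Finset.mul_sum, ← h1]
    exact Finset.sum_congr rfl fun k _ => by rw [hm k, mul_assoc]
  exact (mul_eq_zero.mp h2).resolve_left hN

/-- Row B32. Linear algebra: choose a maximal subset `J ⊆ ι` with `(L (y_j))_(j ∈ J)` linearly independent over `ℤ`. For every
`i` there are `N_i ≥ 1`, `m_ij` with `N_i L(y_i) = ∑_J m_ij L(y_j)`; put `q_ij = m_ij/N_i ∈ ℚ`. By `h` (applied to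
`N_i e_i - ∑ m_ij e_j`) `v(y_i) = ∑_J q_ij v(y_j)`. `0 = ∑_i e_i L(y_i) = ∑_J (∑_i e_i q_ij) L(y_j)`, the coefficients are
algebraic, so zero by `brumer_padic`. Hence `∑ e_i v(y_i) = ∑_J (∑_i e_i q_ij) v(y_j) = 0`. -/
theorem brumer_val (hL : IsPadicLog p L) {ι : Type*} [Fintype ι] (y : ι → ℚ_[p])
    (hy : ∀ k, y k ≠ 0) (hyalg : ∀ k, IsAlgebraic ℚ (y k)) (e : ι → ℚ_[p])
    (he : ∀ k, IsAlgebraic ℚ (e k)) (hrel : ∑ k, e k * L (y k) = 0)
    (h : ∀ m : ι → ℤ, L (∏ k, y k ^ m k) = 0 → ∑ k, m k * (y k).valuation = 0) :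
    ∑ k, e k * ((y k).valuation : ℚ_[p]) = 0 := by
  classical
  obtain ⟨κ, a, ha, hspan, hli⟩ := exists_linearIndependent' ℚ (fun k => L (y k))
  have hfin : Finite κ := Finite.of_injective a ha
  have hft : Fintype κ := Fintype.ofFinite κ
  have hc : ∀ k, ∃ c : κ → ℚ, ∑ j, c j • L (y (a j)) = L (y k) := by
    intro k
    have hk : L (y k) ∈ Submodule.span ℚ (Set.range ((fun k => L (y k)) ∘ a)) := by
      rw [hspan]
      exact Submodule.subset_span ⟨k, rfl⟩
    rw [Submodule.mem_span_range_iff_exists_fun] at hk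
    exact hk
  choose c hc using hc
  have hsm : ∀ (q : ℚ) (x : ℚ_[p]), q • x = (q : ℚ_[p]) * x := fun q x => Rat.smul_def q x
  have hv : ∀ k, ((y k).valuation : ℚ) = ∑ j, c k j * ((y (a j)).valuation : ℚ) := by
    intro k
    have hsum : ∀ (R : Type) [CommRing R] (f : ℚ →+* R) (g : ι → R),
        ∑ i, f ((if i = k then 1 else 0) - ∑ j, if a j = i then c k j else 0) * g i =
          g k - ∑ j, f (c k j) * g (a j) := by
      intro R _ f g
      simp only [map_sub, map_sum, sub_mul, Finset.sum_sub_distrib, Finset.sum_mul]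
      congr 1
      · rw [Finset.sum_eq_single k]
        · simp
        · intro i _ hi
          simp [hi]
        · intro hk
          exact absurd (Finset.mem_univ k) hk
      · rw [Finset.sum_comm]
        refine Finset.sum_congr rfl fun j _ => ?_
        rw [Finset.sum_eq_single (a j)]
        · simp
        · intro i _ hi
          rw [if_neg (Ne.symm hi)]
          simp
        · intro hk
          exact absurd (Finset.mem_univ _) hk
    have h1 := hsum ℚ_[p] (algebraMap ℚ ℚ_[p]) (fun i => L (y i))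
    have h2 := hsum ℚ (RingHom.id ℚ) (fun i => ((y i).valuation : ℚ))
    have h3 : L (y k) - ∑ j, (algebraMap ℚ ℚ_[p]) (c k j) * L (y (a j)) = 0 := by
      rw [sub_eq_zero, ← hc k]
      exact Finset.sum_congr rfl fun j _ => by rw [hsm]; rfl
    rw [h3] at h1
    have h4 := RBrV_rat hL y hy h _ h1
    simp only [RingHom.id_apply] at h2
    rw [h4] at h2
    linarith
  let σ := Fintype.equivFin κ
  have hβ : (fun j : Fin (Fintype.card κ) => ∑ k, e k * (c k (σ.symm j) : ℚ_[p])) = 0 := by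
    by_contra hne
    obtain ⟨m, hm0, hm⟩ := brumer_padic hL (fun j => y (a (σ.symm j))) (fun j => hy _)
      (fun j => hyalg _) (fun j => ∑ k, e k * (c k (σ.symm j) : ℚ_[p])) (fun j => by
        rw [isAlgebraic_iff_isIntegral]
        refine IsIntegral.sum _ fun k _ => ?_
        refine IsIntegral.mul ?_ ?_
        · rw [← isAlgebraic_iff_isIntegral]
          exact he k
        · exact isIntegral_algebraMap (R := ℚ) (A := ℚ_[p]) (x := c k (σ.symm j))) hne (by
        calc ∑ j, (∑ k, e k * (c k (σ.symm j) : ℚ_[p])) * L (y (a (σ.symm j)))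
            = ∑ j : κ, (∑ k, e k * (c k j : ℚ_[p])) * L (y (a j)) :=
              Equiv.sum_comp σ.symm fun j : κ => (∑ k, e k * (c k j : ℚ_[p])) * L (y (a j))
          _ = ∑ k, e k * L (y k) := by
              simp only [Finset.sum_mul]
              rw [Finset.sum_comm]
              refine Finset.sum_congr rfl fun k _ => ?_
              rw [← hc k, Finset.mul_sum]
              exact Finset.sum_congr rfl fun j _ => by rw [hsm, mul_assoc]
          _ = 0 := hrel)
    have hli2 := hli.comp σ.symm σ.symm.injective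
    rw [Fintype.linearIndependent_iff] at hli2
    apply hm0
    funext j
    have := hli2 (fun j => (m j : ℚ)) (by
      rw [← hm]
      refine Finset.sum_congr rfl fun j _ => ?_
      rw [hsm]
      simp) j
    exact_mod_cast this
  have hβ' : ∀ j : κ, ∑ k, e k * (c k j : ℚ_[p]) = 0 := by
    intro j
    have := congrFun hβ (σ j)
    simpa using this
  have hvp : ∀ k, ((y k).valuation : ℚ_[p]) =
      ∑ j, (c k j : ℚ_[p]) * ((y (a j)).valuation : ℚ_[p]) := by
    intro k
    have := congrArg (fun x : ℚ => (x : ℚ_[p])) (hv k)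
    push_cast at this
    exact this
  calc ∑ k, e k * ((y k).valuation : ℚ_[p])
      = ∑ j : κ, (∑ k, e k * (c k j : ℚ_[p])) * ((y (a j)).valuation : ℚ_[p]) := by
        simp only [Finset.sum_mul]
        rw [Finset.sum_comm]
        refine Finset.sum_congr rfl fun k _ => ?_
        rw [hvp k, Finset.mul_sum]
        exact Finset.sum_congr rfl fun j _ => by rw [mul_assoc]
    _ = 0 := by
        refine Finset.sum_eq_zero fun j _ => ?_
        rw [hβ' j, zero_mul]

end Bru95
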