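import Pool.Agent.LibBru95.RBrumerInt

/-! Row B25. Brumer's theorem. `brumer`: multiply `β` by a common denominator. `brumer_algClosed`: the number field `F` is
generated in `E` by all roots of the minimal polynomials of the `ex (lam k)` and `β k`
(`IntermediateField.adjoin ℚ (rootSet (∏ minpolys) E)`, `IntermediateField.adjoin_rootSet_isSplittingField` gives a splitting
field, hence Galois and finite over `ℚ`), `σ` = inclusion. -/

namespace Bru95

open NumberField

variable {p : ℕ} [Fact p.Prime] {E : Type*} [NormedField E] [NormedAlgebra ℚ_[p] E]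
  [IsUltrametricDist E] [CompleteSpace E] [CharZero E] {n : ℕ}

theorem brumer {F : Type*} [Field F] [NumberField F] [IsGalois ℚ F] (σ : F →+* E) (x : Fin n → F)
    (hx : ∀ k, x k ≠ 0) (lam : Fin n → E) (hlam : ∀ k, ‖lam k‖ ≤ ((p : ℝ) ^ 3)⁻¹)
    (hexp : ∀ k, ex (lam k) = σ (x k)) (β : Fin n → F) (hβ : β ≠ 0)
    (hrel : ∑ k, σ (β k) * lam k = 0) :
    ∃ m : Fin n → ℤ, m ≠ 0 ∧ ∑ k, (m k : E) * lam k = 0 := by
  obtain ⟨b, hb⟩ := IsLocalization.exist_integer_multiples_of_finite (nonZeroDivisors (𝓞 F)) β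
  choose β' hβ' using hb
  have hb0 : ((b : 𝓞 F) : F) ≠ 0 := by
    have h1 : (b : 𝓞 F) ≠ 0 := nonZeroDivisors.ne_zero b.2
    exact fun h2 => h1 (RingOfIntegers.coe_injective (by rw [map_zero]; exact h2))
  have hval : ∀ k, (β' k : F) = ((b : 𝓞 F) : F) * β k := by
    intro k
    have h1 := hβ' k
    rw [Algebra.smul_def] at h1
    exact h1
  refine brumer_int σ x hx lam hlam hexp β' ?_ ?_
  · intro h0
    apply hβ
    funext k
    have h1 := hval k
    rw [h0] at h1
    have h2 : ((b : 𝓞 F) : F) * β k = 0 := by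
      rw [← h1]
      simp
    simpa [hb0] using h2
  · have h1 : ∑ k, σ (β' k : F) * lam k = σ ((b : 𝓞 F) : F) * ∑ k, σ (β k) * lam k := by
      rw [Finset.mul_sum]
      refine Finset.sum_congr rfl fun k _ => ?_
      rw [hval k, map_mul, mul_assoc]
    rw [h1, hrel, mul_zero]

/-- **Brumer's theorem** (p-adic Baker theorem): logarithms of algebraic numbers which are linearly
independent over `ℤ` are linearly independent over the algebraic numbers. -/
theorem brumer_algClosed [IsAlgClosed E] (lam : Fin n → E) (hlam : ∀ k, ‖lam k‖ ≤ ((p : ℝ) ^ 3)⁻¹)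
    (halg : ∀ k, IsAlgebraic ℚ (ex (lam k))) (β : Fin n → E) (hβalg : ∀ k, IsAlgebraic ℚ (β k))
    (hβ : β ≠ 0) (hrel : ∑ k, β k * lam k = 0) :
    ∃ m : Fin n → ℤ, m ≠ 0 ∧ ∑ k, (m k : E) * lam k = 0 := by
  classical
  set P : Polynomial ℚ := (∏ k, minpoly ℚ (ex (lam k))) * ∏ k, minpoly ℚ (β k) with hP
  have hP1 : ∀ k, minpoly ℚ (ex (lam k)) ≠ 0 := fun k => minpoly.ne_zero (halg k).isIntegral
  have hP2 : ∀ k, minpoly ℚ (β k) ≠ 0 := fun k => minpoly.ne_zero (hβalg k).isIntegral
  have hP0 : P ≠ 0 := mul_ne_zero (Finset.prod_ne_zero_iff.2 fun k _ => hP1 k)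
    (Finset.prod_ne_zero_iff.2 fun k _ => hP2 k)
  have hsplit : (P.map (algebraMap ℚ E)).Splits := IsAlgClosed.splits _
  let K : IntermediateField ℚ E := IntermediateField.adjoin ℚ (P.rootSet E)
  have hsf : P.IsSplittingField ℚ K := IntermediateField.adjoin_rootSet_isSplittingField hsplit
  have hfin : FiniteDimensional ℚ K := hsf.finiteDimensional
  have hnorm : Normal ℚ K := Normal.of_isSplittingField P
  have hgal : IsGalois ℚ K := { to_isSeparable := inferInstance, to_normal := hnorm }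
  haveI hnf : NumberField K := { to_charZero := inferInstance, to_finiteDimensional := by convert hfin }
  have hmem1 : ∀ k, ex (lam k) ∈ K := by
    intro k
    apply IntermediateField.subset_adjoin
    rw [Polynomial.mem_rootSet]
    refine ⟨hP0, ?_⟩
    rw [hP, map_mul, map_prod, Finset.prod_eq_zero (Finset.mem_univ k) (minpoly.aeval _ _), zero_mul]
  have hmem2 : ∀ k, β k ∈ K := by
    intro k
    apply IntermediateField.subset_adjoin
    rw [Polynomial.mem_rootSet]
    refine ⟨hP0, ?_⟩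
    rw [hP, map_mul, map_prod, map_prod,
      Finset.prod_eq_zero (s := Finset.univ) (f := fun k => Polynomial.aeval (β _) (minpoly ℚ (β k)))
        (Finset.mem_univ k) (minpoly.aeval _ _), mul_zero]
  have hp1 : (1 : ℝ) ≤ p := by exact_mod_cast (Fact.out : p.Prime).one_lt.le
  have hp0 : (0 : ℝ) < p := lt_of_lt_of_le one_pos hp1
  have hle : ((p : ℝ) ^ 3)⁻¹ ≤ ((p : ℝ) ^ 2)⁻¹ :=
    inv_anti₀ (pow_pos hp0 2) (pow_le_pow_right₀ hp1 (by norm_num))
  refine brumer (F := K) (algebraMap K E) (fun k => ⟨ex (lam k), hmem1 k⟩) (fun k h0 => ?_) lam hlam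
    (fun k => rfl) (fun k => ⟨β k, hmem2 k⟩) (fun h0 => ?_) ?_
  · have h1 : ex (lam k) = 0 := congrArg Subtype.val h0
    exact ex_ne_zero ((hlam k).trans hle) h1
  · apply hβ
    funext k
    exact congrArg Subtype.val (congrFun h0 k)
  · exact hrel

end Bru95
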