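import Pool.Agent.LibBru95.Defs

/-! Row B22. Dedekind's independence of characters and a nonzero minor. The functions `y ↦ σ (g k y)` (`k : Fin r`) are
pairwise distinct characters `F → E`, so linearly independent over `E` (`linearIndependent_monoidHom`).
Linear algebra: `r` linearly independent functions `f_k : X → E` have `r` points with `det (f_k (γ_i)) ≠ 0`
(e.g. the span of the vectors `(f_k (y))_k ∈ E^r`, `y ∈ X`, is everything: a functional killing them all is a relation; choose a
basis among them, `exists_linearIndependent`/`Basis` from a spanning set). Finally multiply each `γ_i` by a nonzero integer to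
make it integral (this multiplies the row by the integer; `char E = 0`). -/

namespace Bru95

open NumberField

variable {E : Type*} [NormedField E] [CharZero E] {F : Type*} [Field F] [NumberField F] {r : ℕ}

omit [CharZero E] in
private theorem RMinor_span (σ : F →+* E) (g : Fin r → (F ≃ₐ[ℚ] F)) (hg : Function.Injective g) :
    Submodule.span E (Set.range fun y : F => fun k : Fin r => σ (g k y)) = ⊤ := by
  by_contra hne
  obtain ⟨φ, hφ0, hφ⟩ := Submodule.exists_le_ker_of_lt_top _ (lt_top_iff_ne_top.2 hne)
  let f : Fin r → (F →* E) := fun k => ((σ.comp (g k : F →+* F)) : F →* E)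
  have hfinj : Function.Injective f := by
    intro k l hkl
    apply hg
    ext y
    have h1 : f k y = f l y := by rw [hkl]
    exact σ.injective h1
  have hlin : LinearIndependent E (fun k => (f k : F → E)) :=
    (linearIndependent_monoidHom F E).comp f hfinj
  have hc : ∀ k : Fin r, φ (fun j => if k = j then 1 else 0) = 0 := by
    rw [Fintype.linearIndependent_iff] at hlin
    apply hlin
    funext y
    have h2 : φ (fun k : Fin r => σ (g k y)) = 0 :=
      hφ (Submodule.subset_span ⟨y, rfl⟩)
    rw [LinearMap.pi_apply_eq_sum_univ] at h2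
    rw [Finset.sum_apply, Pi.zero_apply]
    refine (Finset.sum_congr rfl fun k _ => ?_).trans h2
    rw [Pi.smul_apply, smul_eq_mul, smul_eq_mul, mul_comm]
    rfl
  apply hφ0
  apply LinearMap.ext
  intro v
  rw [LinearMap.pi_apply_eq_sum_univ]
  simp [hc]

private theorem RMinor_pts (σ : F →+* E) (g : Fin r → (F ≃ₐ[ℚ] F)) (hg : Function.Injective g) :
    ∃ y : Fin r → F, (Matrix.of fun i k => σ (g k (y i))).det ≠ 0 := by
  have hspan := RMinor_span σ g hg
  obtain ⟨v, hv, -, hlin⟩ := Submodule.exists_fun_fin_finrank_span_eq E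
    (Set.range fun y : F => fun k : Fin r => σ (g k y))
  have hdim : Module.finrank E (Submodule.span E (Set.range fun y : F => fun k : Fin r =>
      σ (g k y))) = r := by
    rw [hspan, finrank_top, Module.finrank_fin_fun]
  have hv' : ∀ i, ∃ y : F, (fun k : Fin r => σ (g k y)) = v i := fun i => hv i
  choose y hy using hv'
  let e : Fin r ≃ Fin (Module.finrank E (Submodule.span E (Set.range fun y : F =>
    fun k : Fin r => σ (g k y)))) := finCongr hdim.symm
  refine ⟨fun i => y (e i), ?_⟩
  have hrows : LinearIndependent E (fun i : Fin r => v (e i)) := hlin.comp e e.injective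
  have hmat : (Matrix.of fun i k => σ (g k (y (e i))) : Matrix (Fin r) (Fin r) E).row =
      fun i : Fin r => v (e i) := by
    funext i
    rw [← hy (e i)]
    rfl
  rw [← hmat, Matrix.linearIndependent_rows_iff_isUnit, Matrix.isUnit_iff_isUnit_det] at hrows
  exact hrows.ne_zero

theorem exists_minor (σ : F →+* E) (g : Fin r → (F ≃ₐ[ℚ] F)) (hg : Function.Injective g) :
    ∃ γ : Fin r → 𝓞 F, (Matrix.of fun i k => σ (g k (γ i : F))).det ≠ 0 := by
  obtain ⟨y, hy⟩ := RMinor_pts σ g hg
  have hint : ∀ i, ∃ m : ℤ, m ≠ 0 ∧ IsIntegral ℤ (m • y i) := by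
    intro i
    have halg : IsAlgebraic ℤ (y i) := by
      rw [IsFractionRing.isAlgebraic_iff ℤ ℚ F]
      exact Algebra.IsAlgebraic.isAlgebraic (y i)
    exact halg.exists_integral_multiple
  choose m hm0 hm using hint
  obtain ⟨γ, hγ⟩ : ∃ γ : Fin r → 𝓞 F, ∀ i, (γ i : F) = m i • y i :=
    ⟨fun i => ⟨m i • y i, hm i⟩, fun i => rfl⟩
  refine ⟨γ, ?_⟩
  have hmat : (Matrix.of fun i k => σ (g k (γ i : F)) : Matrix (Fin r) (Fin r) E) =
      Matrix.of fun i k => (m i : E) *
        (Matrix.of fun i k => σ (g k (y i)) : Matrix (Fin r) (Fin r) E) i k := by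
    ext i k
    rw [Matrix.of_apply, Matrix.of_apply, Matrix.of_apply, hγ, map_zsmul, map_zsmul,
      zsmul_eq_mul]
  rw [hmat, Matrix.det_mul_column]
  refine mul_ne_zero ?_ hy
  rw [Finset.prod_ne_zero_iff]
  intro i _
  exact Int.cast_ne_zero.2 (hm0 i)

end Bru95
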