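import Pool.Agent.LibBru95.Defs

/-! Row B23. The conjugate forms `θ_g = ∑_k σ(g β_k) λ_k`.
`theta_trace`: `trace_eq_sum_automorphisms`. `exists_theta_ne`: otherwise `∑_k Tr(y β_k) λ_k = 0` for all `y`; clear
denominators, so `Tr(y β_k) = 0` for all `y, k`, and `β = 0` by `traceForm_nondegenerate` (or take `y = β_k⁻¹`, `Tr 1 = d ≠ 0`). -/

namespace Bru95

open NumberField

variable {E : Type*} [NormedField E] [CharZero E] {F : Type*} [Field F] [NumberField F] {n : ℕ}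

/-- the conjugate form `θ_g` -/
noncomputable def theta (σ : F →+* E) (β : Fin n → F) (lam : Fin n → E) (g : F ≃ₐ[ℚ] F) : E :=
  ∑ k, σ (g (β k)) * lam k

private theorem RTheta_clear {n : ℕ} (q : Fin n → ℚ) :
    ∃ (d : ℕ) (m : Fin n → ℤ), d ≠ 0 ∧ ∀ k, (m k : ℚ) = (d : ℚ) * q k := by
  classical
  refine ⟨∏ j, (q j).den, fun k => (q k).num * ((∏ j ∈ Finset.univ.erase k, (q j).den : ℕ) : ℤ),
    Finset.prod_ne_zero_iff.2 fun j _ => (q j).den_ne_zero, fun k => ?_⟩
  have h1 : (∏ j, (q j).den) = (q k).den * ∏ j ∈ Finset.univ.erase k, (q j).den :=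
    (Finset.mul_prod_erase Finset.univ (fun j => (q j).den) (Finset.mem_univ k)).symm
  rw [h1]
  have h2 : ((q k).den : ℚ) * q k = (q k).num := by
    rw [mul_comm]; exact Rat.mul_den_eq_num (q k)
  push_cast
  rw [← h2]
  ring

theorem theta_trace [IsGalois ℚ F] (σ : F →+* E) (β : Fin n → F) (lam : Fin n → E) (y : F) :
    ∑ g : F ≃ₐ[ℚ] F, σ (g y) * theta σ β lam g =
      ∑ k, σ (algebraMap ℚ F (Algebra.trace ℚ F (y * β k))) * lam k := by
  unfold theta
  simp_rw [Finset.mul_sum]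
  rw [Finset.sum_comm]
  refine Finset.sum_congr rfl fun k _ => ?_
  rw [trace_eq_sum_automorphisms, map_sum, Finset.sum_mul]
  refine Finset.sum_congr rfl fun g _ => ?_
  rw [map_mul, map_mul, mul_assoc]

theorem exists_theta_ne [IsGalois ℚ F] (σ : F →+* E) (β : Fin n → F) (hβ : β ≠ 0) (lam : Fin n → E)
    (hind : ∀ m : Fin n → ℤ, ∑ k, (m k : E) * lam k = 0 → m = 0) :
    ∃ g : F ≃ₐ[ℚ] F, theta σ β lam g ≠ 0 := by
  by_contra hcon
  push Not at hcon
  obtain ⟨k0, hk0⟩ : ∃ k, β k ≠ 0 := by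
    by_contra h
    push Not at h
    exact hβ (funext h)
  have h1 := theta_trace σ β lam (β k0)⁻¹
  have h2 : ∑ g : F ≃ₐ[ℚ] F, σ (g (β k0)⁻¹) * theta σ β lam g = 0 :=
    Finset.sum_eq_zero fun g _ => by rw [hcon g, mul_zero]
  rw [h2] at h1
  set q : Fin n → ℚ := fun k => Algebra.trace ℚ F ((β k0)⁻¹ * β k) with hq
  obtain ⟨d, m, hd, hm⟩ := RTheta_clear q
  have h3 : ∑ k, (m k : E) * lam k = 0 := by
    have h4 : ∀ k, (m k : E) * lam k =
        (d : E) * (σ (algebraMap ℚ F (Algebra.trace ℚ F ((β k0)⁻¹ * β k))) * lam k) := by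
      intro k
      have h5 : σ (algebraMap ℚ F (Algebra.trace ℚ F ((β k0)⁻¹ * β k))) = ((q k : ℚ) : E) := by
        rw [eq_ratCast, map_ratCast]
      have h6 : (m k : E) = (d : E) * ((q k : ℚ) : E) := by
        have := congrArg (fun t : ℚ => (t : E)) (hm k)
        simpa using this
      rw [h5, h6, mul_assoc]
    rw [Finset.sum_congr rfl fun k _ => h4 k, ← Finset.mul_sum, ← h1, mul_zero]
  have h7 := congrFun (hind m h3) k0
  have h8 := hm k0
  rw [h7, Pi.zero_apply, Int.cast_zero] at h8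
  have h9 : q k0 = (Module.finrank ℚ F : ℚ) := by
    show Algebra.trace ℚ F ((β k0)⁻¹ * β k0) = _
    rw [inv_mul_cancel₀ hk0]
    have := Algebra.trace_algebraMap (S := F) (1 : ℚ)
    simpa using this
  have h10 : (Module.finrank ℚ F : ℚ) ≠ 0 := by
    exact_mod_cast (Module.finrank_pos (R := ℚ) (M := F)).ne'
  have h11 : (d : ℚ) ≠ 0 := by exact_mod_cast hd
  exact mul_ne_zero h11 (h9 ▸ h10) h8.symm

end Bru95
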