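import Pool.Agent.LibBru95.RFalse
import Pool.Agent.LibBru95.RMinor
import Pool.Agent.LibBru95.RTheta

/-! Row B24. The Bertrand-Masser trick. Assume all integer relations trivial. `M = {g | θ_g ≠ 0}` is nonempty
(`exists_theta_ne`) and does not contain `1` (`θ_1 = 0` is `hrel`), `r = |M|`, `r + 1 ≤ |Gal| = d = [F:ℚ]`. Let
`e : Fin r ≃ M`, `b` an integral basis (`RingOfIntegers.basis F`, `d` elements), `ι : Fin (r+1) ↪` its index set, and build
`SL p E F r`: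
`σ`, `a g j = (e g) (b (ι j))` as an element of `𝓞 F` (`RingOfIntegers.mapAlgEquiv` or a subtype with `IsIntegral.map`),
`γ` from `exists_minor` for `k ↦ e k`, `Y i g = σ (e g (γ i)) * θ_(e g)` (det = det(...) * ∏ θ ≠ 0: `Matrix.det_mul_row`/column),
`∑_g Y i g σ(a g j) = ∑_(g ∈ M) σ(g (γ_i b_j)) θ_g = ∑_(all g) = ∑_k Tr(γ_i b_j β_k) λ_k = ∑_k m_ijk λ_k`, `m_ijk ∈ ℤ`
(trace of an algebraic integer: `Algebra.isIntegral_trace` + `IsIntegrallyClosed ℤ`), `x i j = ∏_k x_k^(m_ijk)` (zpow).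
`small`: `norm_int_comb_le`. `exp_eq`: `ex_int_comb` (note `p^-3 ≤ p^-2`). `indep`: apply `(e 0)⁻¹` and linear independence
of the basis. Conclude by `SL.false`. -/

namespace Bru95

open NumberField

variable {p : ℕ} [Fact p.Prime] {E : Type*} [NormedField E] [NormedAlgebra ℚ_[p] E]
  [IsUltrametricDist E] [CompleteSpace E] [CharZero E]
  {F : Type*} [Field F] [NumberField F] {n : ℕ}

/-- an automorphism on the ring of integers -/
private def rBrumerInt_aut (g : F ≃ₐ[ℚ] F) (y : 𝓞 F) : 𝓞 F :=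
  ⟨g (y : F), by
    have h1 : IsIntegral ℤ (y : F) := RingOfIntegers.isIntegral_coe y
    exact h1.map (g.restrictScalars ℤ)⟩

private theorem rBrumerInt_aut_coe (g : F ≃ₐ[ℚ] F) (y : 𝓞 F) : ((rBrumerInt_aut g y : 𝓞 F) : F) = g (y : F) := rfl

/-- the trace of an algebraic integer is an integer -/
private theorem rBrumerInt_trace (y : 𝓞 F) : ∃ m : ℤ, (m : ℚ) = Algebra.trace ℚ F (y : F) := by
  have h1 : IsIntegral ℤ (y : F) := RingOfIntegers.isIntegral_coe y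
  have h2 : IsIntegral ℤ (Algebra.trace ℚ F (y : F)) := Algebra.isIntegral_trace h1
  obtain ⟨m, hm⟩ := IsIntegrallyClosed.isIntegral_iff.1 h2
  exact ⟨m, hm⟩

/-- `r + 1` elements of the ring of integers which are linearly independent over `ℤ` -/
private theorem rBrumerInt_indep {r : ℕ} (hr : r + 1 ≤ Module.finrank ℚ F) :
    ∃ b : Fin (r + 1) → 𝓞 F, LinearIndependent ℤ b := by
  have hcard : Fintype.card (Module.Free.ChooseBasisIndex ℤ (𝓞 F)) = Module.finrank ℚ F := by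
    rw [← Module.finrank_eq_card_chooseBasisIndex, RingOfIntegers.rank]
  obtain ⟨ι⟩ : Nonempty (Fin (r + 1) ↪ Module.Free.ChooseBasisIndex ℤ (𝓞 F)) := by
    apply Function.Embedding.nonempty_of_card_le
    rw [Fintype.card_fin, hcard]
    exact hr
  exact ⟨fun j => RingOfIntegers.basis F (ι j), (RingOfIntegers.basis F).linearIndependent.comp ι ι.injective⟩

theorem brumer_int [IsGalois ℚ F] (σ : F →+* E) (x : Fin n → F) (hx : ∀ k, x k ≠ 0)
    (lam : Fin n → E) (hlam : ∀ k, ‖lam k‖ ≤ ((p : ℝ) ^ 3)⁻¹) (hexp : ∀ k, ex (lam k) = σ (x k))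
    (β : Fin n → 𝓞 F) (hβ : β ≠ 0) (hrel : ∑ k, σ (β k : F) * lam k = 0) :
    ∃ m : Fin n → ℤ, m ≠ 0 ∧ ∑ k, (m k : E) * lam k = 0 := by
  classical
  by_contra hcon
  have hind : ∀ m : Fin n → ℤ, ∑ k, (m k : E) * lam k = 0 → m = 0 := by
    intro m hm
    by_contra h0
    exact hcon ⟨m, h0, hm⟩
  obtain ⟨βF, hβF⟩ : ∃ βF : Fin n → F, βF = fun k => (β k : F) := ⟨_, rfl⟩
  have hβF0 : βF ≠ 0 := by
    intro h0
    apply hβ
    funext k
    have h1 : (β k : F) = 0 := by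
      have h2 := congrFun h0 k
      rw [hβF] at h2
      exact h2
    exact RingOfIntegers.coe_eq_zero_iff.1 h1
  obtain ⟨θ, hθ⟩ : ∃ θ : (F ≃ₐ[ℚ] F) → E, θ = theta σ βF lam := ⟨_, rfl⟩
  have hθ1 : θ 1 = 0 := by
    rw [hθ, ← hrel]
    unfold theta
    rw [hβF]
    rfl
  obtain ⟨g₀, hg₀⟩ := exists_theta_ne σ βF hβF0 lam hind
  obtain ⟨M, hM⟩ : ∃ M : Finset (F ≃ₐ[ℚ] F), M = Finset.univ.filter fun g => θ g ≠ 0 := ⟨_, rfl⟩
  have hmem : ∀ g, g ∈ M ↔ θ g ≠ 0 := by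
    intro g
    rw [hM, Finset.mem_filter]
    exact and_iff_right (Finset.mem_univ g)
  have hr : 0 < M.card := Finset.card_pos.2 ⟨g₀, (hmem g₀).2 (by rw [hθ]; exact hg₀)⟩
  have hr1 : M.card + 1 ≤ Module.finrank ℚ F := by
    rw [← IsGalois.card_aut_eq_finrank, Nat.card_eq_fintype_card]
    refine Finset.card_lt_univ_of_notMem (x := 1) ?_
    rw [hmem]
    exact fun h => h hθ1
  obtain ⟨b, hb⟩ := rBrumerInt_indep (F := F) hr1
  obtain ⟨e, he⟩ : ∃ e : Fin M.card ≃ M, e = M.equivFin.symm := ⟨_, rfl⟩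
  obtain ⟨γ, hγ⟩ := exists_minor σ (fun k : Fin M.card => ((e k : M) : F ≃ₐ[ℚ] F))
    (fun k l h => e.injective (Subtype.ext h))
  choose m hm using fun (i : Fin M.card) (j : Fin (M.card + 1)) (k : Fin n) => rBrumerInt_trace (γ i * b j * β k)
  -- the values of the forms at the points
  have hval : ∀ (i : Fin M.card) (j : Fin (M.card + 1)),
      ∑ g : Fin M.card, (σ ((e g : F ≃ₐ[ℚ] F) (γ i : F)) * θ (e g : F ≃ₐ[ℚ] F)) *
        σ ((rBrumerInt_aut (e g : F ≃ₐ[ℚ] F) (b j) : 𝓞 F) : F) = ∑ k, (m i j k : E) * lam k := by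
    intro i j
    have h1 : ∀ g : Fin M.card, (σ ((e g : F ≃ₐ[ℚ] F) (γ i : F)) * θ (e g : F ≃ₐ[ℚ] F)) *
        σ ((rBrumerInt_aut (e g : F ≃ₐ[ℚ] F) (b j) : 𝓞 F) : F) =
        (fun h : F ≃ₐ[ℚ] F => σ (h ((γ i : F) * (b j : F))) * θ h) (e g : F ≃ₐ[ℚ] F) := by
      intro g
      rw [rBrumerInt_aut_coe]
      change σ ((e g : F ≃ₐ[ℚ] F) (γ i : F)) * θ (e g : F ≃ₐ[ℚ] F) * σ ((e g : F ≃ₐ[ℚ] F) (b j : F)) =
        σ ((e g : F ≃ₐ[ℚ] F) ((γ i : F) * (b j : F))) * θ (e g : F ≃ₐ[ℚ] F)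
      rw [map_mul, map_mul]
      ring
    rw [Finset.sum_congr rfl fun g _ => h1 g]
    have h2 : ∑ g : Fin M.card, (fun h : F ≃ₐ[ℚ] F => σ (h ((γ i : F) * (b j : F))) * θ h) (e g : F ≃ₐ[ℚ] F) =
        ∑ h : M, (fun h : F ≃ₐ[ℚ] F => σ (h ((γ i : F) * (b j : F))) * θ h) (h : F ≃ₐ[ℚ] F) :=
      Equiv.sum_comp e fun h : M => (fun h : F ≃ₐ[ℚ] F => σ (h ((γ i : F) * (b j : F))) * θ h) (h : F ≃ₐ[ℚ] F)
    rw [h2, Finset.sum_coe_sort M fun h : F ≃ₐ[ℚ] F => σ (h ((γ i : F) * (b j : F))) * θ h]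
    have h3 : ∑ h ∈ M, σ (h ((γ i : F) * (b j : F))) * θ h = ∑ h : F ≃ₐ[ℚ] F, σ (h ((γ i : F) * (b j : F))) * θ h := by
      refine Finset.sum_subset (Finset.subset_univ M) ?_
      intro h _ hh
      rw [hmem] at hh
      push Not at hh
      rw [hh, mul_zero]
    rw [h3, hθ, theta_trace]
    refine Finset.sum_congr rfl fun k _ => ?_
    congr 1
    have h4 : Algebra.trace ℚ F ((γ i : F) * (b j : F) * βF k) = (m i j k : ℚ) := by
      rw [hm, hβF]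
      congr 1
    rw [h4, map_intCast, map_intCast]
  have hp2 : ∀ k, ‖lam k‖ ≤ ((p : ℝ) ^ 2)⁻¹ := by
    intro k
    refine (hlam k).trans ?_
    have hp1 : (1 : ℝ) < p := by exact_mod_cast (Fact.out : p.Prime).one_lt
    have hp0 : (0 : ℝ) < (p : ℝ) ^ 2 := by positivity
    apply inv_anti₀ hp0
    exact pow_le_pow_right₀ hp1.le (by norm_num)
  refine SL.false (p := p) (E := E) (F := F) (r := M.card)
    { hr := hr
      σ := σ
      a := fun g j => rBrumerInt_aut (e g : F ≃ₐ[ℚ] F) (b j)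
      x := fun i j => ∏ k, x k ^ m i j k
      Y := Matrix.of fun i g => σ ((e g : F ≃ₐ[ℚ] F) (γ i : F)) * θ (e g : F ≃ₐ[ℚ] F)
      x_ne := ?_
      Y_det := ?_
      small := ?_
      exp_eq := ?_
      indep := ?_ }
  · intro i j
    exact Finset.prod_ne_zero_iff.2 fun k _ => zpow_ne_zero _ (hx k)
  · have h1 : (Matrix.of fun i g => σ ((e g : F ≃ₐ[ℚ] F) (γ i : F)) * θ (e g : F ≃ₐ[ℚ] F)) =
        Matrix.of fun i g => θ (e g : F ≃ₐ[ℚ] F) *
          (Matrix.of fun i g => σ ((e g : F ≃ₐ[ℚ] F) (γ i : F))) i g := by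
      ext i g
      exact mul_comm _ _
    rw [h1, Matrix.det_mul_row]
    refine mul_ne_zero (Finset.prod_ne_zero_iff.2 fun g _ => ?_) hγ
    exact (hmem _).1 (e g).2
  · intro i j
    change ‖∑ g : Fin M.card, (σ ((e g : F ≃ₐ[ℚ] F) (γ i : F)) * θ (e g : F ≃ₐ[ℚ] F)) *
        σ ((rBrumerInt_aut (e g : F ≃ₐ[ℚ] F) (b j) : 𝓞 F) : F)‖ ≤ _
    rw [hval]
    exact norm_int_comb_le _ _ (by positivity) (fun k _ => hlam k) _
  · intro i j
    change ex (∑ g : Fin M.card, (σ ((e g : F ≃ₐ[ℚ] F) (γ i : F)) * θ (e g : F ≃ₐ[ℚ] F)) *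
        σ ((rBrumerInt_aut (e g : F ≃ₐ[ℚ] F) (b j) : 𝓞 F) : F)) = σ (∏ k, x k ^ m i j k)
    rw [hval, ex_int_comb (p := p) _ _ (fun k _ => hp2 k), map_prod]
    refine Finset.prod_congr rfl fun k _ => ?_
    rw [hexp, map_zpow₀]
  · intro l hl
    have h1 : (e ⟨0, hr⟩ : F ≃ₐ[ℚ] F) (∑ j, (l j : F) * (b j : F)) = 0 := by
      rw [map_sum, ← hl]
      refine Finset.sum_congr rfl fun j _ => ?_
      rw [map_mul, map_intCast, rBrumerInt_aut_coe]
    rw [map_eq_zero_iff _ (e ⟨0, hr⟩ : F ≃ₐ[ℚ] F).injective] at h1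
    have h2 : ∑ j, l j • b j = 0 := by
      apply RingOfIntegers.coe_eq_zero_iff.1
      rw [← h1]
      rw [map_sum]
      refine Finset.sum_congr rfl fun j _ => ?_
      rw [zsmul_eq_mul, map_mul, map_intCast]
    funext j
    exact Fintype.linearIndependent_iff.1 hb l h2 j

end Bru95
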