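import Pool.Agent.LibBru95.RFact

/-! Row B4. Division of a convergent power series by `X - s` at a zero `s`, with the bound `B/R`.
Plan: `w_n = ∑' m, c_(n+1+m) s^m`; every term has norm at most `B R^-(n+1+m) ≤ B R^-(n+1)`, so `‖w_n‖ ≤ B R^-(n+1)`
(`IsUltrametricDist.norm_tsum_le` / `norm_tsum_le_of_forall_le` or by closedness of the ball), i.e. `‖w_n‖ R^n ≤ B/R`.
`(X - s) w` has coefficient `w_(n-1) - s w_n = c_n` (n ≥ 1) and `- s w_0 = c_0` because `ev f s = c_0 + s w_0 = 0`. -/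

namespace Bru95

variable {p : ℕ} [Fact p.Prime] {E : Type*} [NormedField E] [NormedAlgebra ℚ_[p] E]
  [IsUltrametricDist E] [CompleteSpace E] [CharZero E]

/-- ultrametric bound for `tsum` (junk value 0 if not summable) -/
theorem norm_tsum_le' {u : ℕ → E} {C : ℝ} (hC : 0 ≤ C) (h : ∀ n, ‖u n‖ ≤ C) : ‖∑' n, u n‖ ≤ C := by
  by_cases hs : Summable u
  · exact IsUltrametricDist.norm_tsum_le_of_forall_le_of_nonneg hC h
  · rw [tsum_eq_zero_of_not_summable hs, norm_zero]
    exact hC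

omit [Fact p.Prime] [NormedAlgebra ℚ_[p] E] [IsUltrametricDist E] [CompleteSpace E] [CharZero E] in
private theorem RDiv_term {R B : ℝ} (hR : 1 < R) {f : PowerSeries E} (hf : PB R B f) {t : E}
    (ht : ‖t‖ ≤ 1) (n m : ℕ) :
    ‖PowerSeries.coeff (n + m) f * t ^ m‖ ≤ B / R ^ n * (R⁻¹) ^ m := by
  have hR0 : 0 < R := by linarith
  have h1 := hf (n + m)
  have h2 : ‖PowerSeries.coeff (n + m) f‖ ≤ B / R ^ (n + m) := by
    rw [le_div_iff₀ (pow_pos hR0 _)]
    exact h1
  have h3 : B / R ^ (n + m) = B / R ^ n * (R⁻¹) ^ m := by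
    rw [pow_add, inv_pow]
    field_simp
  rw [norm_mul, norm_pow]
  calc ‖PowerSeries.coeff (n + m) f‖ * ‖t‖ ^ m ≤ ‖PowerSeries.coeff (n + m) f‖ * 1 :=
        mul_le_mul_of_nonneg_left (pow_le_one₀ (norm_nonneg _) ht) (norm_nonneg _)
    _ = ‖PowerSeries.coeff (n + m) f‖ := mul_one _
    _ ≤ _ := by rw [← h3]; exact h2

omit [Fact p.Prime] [NormedAlgebra ℚ_[p] E] [IsUltrametricDist E] [CharZero E] in
private theorem RDiv_summable {R B : ℝ} (hR : 1 < R) {f : PowerSeries E} (hf : PB R B f) {t : E}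
    (ht : ‖t‖ ≤ 1) (n : ℕ) : Summable (fun m : ℕ => PowerSeries.coeff (n + m) f * t ^ m) := by
  refine Summable.of_norm_bounded (g := fun m : ℕ => B / R ^ n * (R⁻¹) ^ m) ?_
    (fun m => RDiv_term hR hf ht n m)
  exact (summable_geometric_of_lt_one (inv_nonneg.2 (by linarith))
    (inv_lt_one_of_one_lt₀ hR)).mul_left _

omit [Fact p.Prime] [NormedAlgebra ℚ_[p] E] [IsUltrametricDist E] [CharZero E] in
private theorem RDiv_step {R B : ℝ} (hR : 1 < R) {f : PowerSeries E} (hf : PB R B f) {s : E}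
    (hs : ‖s‖ ≤ 1) (n : ℕ) : (∑' m : ℕ, PowerSeries.coeff (n + m) f * s ^ m) =
      PowerSeries.coeff n f + s * ∑' m : ℕ, PowerSeries.coeff (n + 1 + m) f * s ^ m := by
  rw [(RDiv_summable hR hf hs n).tsum_eq_zero_add, add_zero, pow_zero, mul_one, ← tsum_mul_left]
  congr 1
  refine tsum_congr fun m => ?_
  rw [pow_succ, show n + (m + 1) = n + 1 + m by ring]
  ring

theorem PB_summable {R B : ℝ} (hR : 1 < R) {f : PowerSeries E} (hf : PB R B f) {t : E}
    (ht : ‖t‖ ≤ 1) : Summable (fun n : ℕ => PowerSeries.coeff n f * t ^ n) := by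
  have h := RDiv_summable hR hf ht 0
  simpa using h

theorem div_lin {R B : ℝ} (hR : 1 < R) {f : PowerSeries E} (hf : PB R B f) {s : E}
    (hs : ‖s‖ ≤ 1) (h0 : ev f s = 0) :
    ∃ g : PowerSeries E, PB R (B / R) g ∧ f = (PowerSeries.X - PowerSeries.C s) * g := by
  have hR0 : 0 < R := by linarith
  have hB : 0 ≤ B := by
    have h1 := hf 0
    exact (mul_nonneg (norm_nonneg _) (pow_nonneg hR0.le _)).trans h1
  refine ⟨PowerSeries.mk fun n => ∑' m : ℕ, PowerSeries.coeff (n + 1 + m) f * s ^ m, ?_, ?_⟩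
  · intro n
    rw [PowerSeries.coeff_mk]
    have h1 : ‖∑' m : ℕ, PowerSeries.coeff (n + 1 + m) f * s ^ m‖ ≤ B / R ^ (n + 1) := by
      refine norm_tsum_le' (div_nonneg hB (pow_nonneg hR0.le _)) fun m => ?_
      refine (RDiv_term hR hf hs (n + 1) m).trans ?_
      exact mul_le_of_le_one_right (div_nonneg hB (pow_nonneg hR0.le _))
        (pow_le_one₀ (inv_nonneg.2 hR0.le) (inv_le_one_of_one_le₀ hR.le))
    refine (mul_le_mul_of_nonneg_right h1 (pow_nonneg hR0.le n)).trans (le_of_eq ?_)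
    rw [pow_succ]
    field_simp
  · ext n
    rw [sub_mul, map_sub, PowerSeries.coeff_C_mul]
    cases n with
    | zero =>
      rw [PowerSeries.coeff_zero_X_mul, PowerSeries.coeff_mk]
      have h1 := RDiv_step hR hf hs 0
      have h2 : (∑' m : ℕ, PowerSeries.coeff (0 + m) f * s ^ m) = ev f s := by
        unfold ev
        simp only [zero_add]
      rw [h2, h0] at h1
      rw [zero_sub, eq_neg_iff_add_eq_zero]
      exact h1.symm
    | succ n =>
      rw [PowerSeries.coeff_succ_X_mul, PowerSeries.coeff_mk, PowerSeries.coeff_mk,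
        RDiv_step hR hf hs (n + 1)]
      ring

end Bru95
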