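import Pool.Agent.LibBru95.RLeib

/-! Row B6. Division by all the zeros, with multiplicities. Induction on `∑ s ∈ A, k s` (generalizing `f`, `k`, `B`):
if the sum is 0 take `w = f`; otherwise choose `s₀ ∈ A` with `k s₀ ≠ 0`; `ev f s₀ = 0` so `f = (X - s₀) g` (`div_lin`);
`ev_der_lin` at `s₀` : `0 = (m+1) ev (der^[m] g) s₀` for `m + 1 < k s₀` (char 0), and at `t ∈ A`, `t ≠ s₀`, by induction
on `m`: `ev (der^[m] g) t = 0` for `m < k t` as `(t:E) - s₀ ≠ 0`. So `g` satisfies the hypothesis with
`k' = Function.update k s₀ (k s₀ - 1)`. -/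

namespace Bru95

variable {p : ℕ} [Fact p.Prime] {E : Type*} [NormedField E] [NormedAlgebra ℚ_[p] E]
  [IsUltrametricDist E] [CompleteSpace E] [CharZero E]

theorem div_all {R B : ℝ} (hR : 1 < R) (A : Finset ℕ) (k : ℕ → ℕ) (f : PowerSeries E)
    (hf : PB R B f) (hz : ∀ s ∈ A, ∀ m < k s, ev (der^[m] f) (s : E) = 0) :
    ∃ w : PowerSeries E, PB R (B / R ^ (∑ s ∈ A, k s)) w ∧
      f = (∏ s ∈ A, (PowerSeries.X - PowerSeries.C (s : E)) ^ k s) * w := by
  obtain ⟨N, hN⟩ : ∃ N, ∑ s ∈ A, k s = N := ⟨_, rfl⟩
  induction N generalizing k f B with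
  | zero =>
    refine ⟨f, ?_, ?_⟩
    · rw [hN, pow_zero, div_one]
      exact hf
    · have h0 : ∀ s ∈ A, k s = 0 := Finset.sum_eq_zero_iff.1 hN
      rw [Finset.prod_eq_one, one_mul]
      intro s hs
      rw [h0 s hs, pow_zero]
  | succ N ih =>
    obtain ⟨s0, hs0, hk0⟩ : ∃ s ∈ A, k s ≠ 0 := by
      by_contra h
      push Not at h
      rw [Finset.sum_eq_zero h] at hN
      omega
    have hev : ev f (s0 : E) = 0 := hz s0 hs0 0 (Nat.pos_of_ne_zero hk0)
    obtain ⟨g, hg, hfg⟩ := div_lin hR hf (norm_natCast_le_one' s0) hev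
    have hk1 : Function.update k s0 (k s0 - 1) s0 = k s0 - 1 := Function.update_self _ _ _
    have hk2 : ∀ s ≠ s0, Function.update k s0 (k s0 - 1) s = k s :=
      fun s hs => Function.update_of_ne hs _ _
    have hz' : ∀ s ∈ A, ∀ m < Function.update k s0 (k s0 - 1) s, ev (der^[m] g) (s : E) = 0 := by
      intro s hs
      by_cases hss : s = s0
      · subst hss
        intro m hm
        rw [hk1] at hm
        have h1 := hz s hs (m + 1) (by omega)
        rw [hfg, ev_der_lin hR hg (norm_natCast_le_one' s), sub_self, zero_mul, zero_add] at h1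
        exact (mul_eq_zero.1 h1).resolve_left (Nat.cast_ne_zero.2 (Nat.succ_ne_zero m))
      · rw [hk2 s hss]
        have hne : (s : E) - (s0 : E) ≠ 0 := sub_ne_zero.2 fun h => hss (Nat.cast_injective h)
        intro m
        induction m with
        | zero =>
          intro hm
          have h1 := hz s hs 0 hm
          rw [Function.iterate_zero, id_eq, hfg, ev_lin hR hg (norm_natCast_le_one' s)] at h1
          rw [Function.iterate_zero, id_eq]
          exact (mul_eq_zero.1 h1).resolve_left hne
        | succ m ihm =>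
          intro hm
          have h1 := hz s hs (m + 1) hm
          rw [hfg, ev_der_lin hR hg (norm_natCast_le_one' s), ihm (by omega), mul_zero,
            add_zero] at h1
          exact (mul_eq_zero.1 h1).resolve_left hne
    have hsum : ∑ s ∈ A, Function.update k s0 (k s0 - 1) s = N := by
      have h1 := Finset.add_sum_erase A k hs0
      have h2 := Finset.add_sum_erase A (Function.update k s0 (k s0 - 1)) hs0
      have h3 : ∑ s ∈ A.erase s0, Function.update k s0 (k s0 - 1) s = ∑ s ∈ A.erase s0, k s :=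
        Finset.sum_congr rfl fun s hs => hk2 s (Finset.ne_of_mem_erase hs)
      rw [h3, hk1] at h2
      omega
    obtain ⟨w, hw, hgw⟩ := ih (Function.update k s0 (k s0 - 1)) g hg hz' hsum
    refine ⟨w, ?_, ?_⟩
    · rw [hsum, div_div] at hw
      rw [hN, pow_succ, mul_comm]
      exact hw
    · rw [hfg]
      conv_lhs => rw [hgw]
      have h1 := Finset.mul_prod_erase A
        (fun s => (PowerSeries.X - PowerSeries.C (s : E)) ^ k s) hs0
      have h2 := Finset.mul_prod_erase A
        (fun s => (PowerSeries.X - PowerSeries.C (s : E)) ^ Function.update k s0 (k s0 - 1) s) hs0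
      have h3 : ∏ s ∈ A.erase s0,
          (PowerSeries.X - PowerSeries.C (s : E)) ^ Function.update k s0 (k s0 - 1) s =
          ∏ s ∈ A.erase s0, (PowerSeries.X - PowerSeries.C (s : E)) ^ k s :=
        Finset.prod_congr rfl fun s hs => by rw [hk2 s (Finset.ne_of_mem_erase hs)]
      rw [← h1, ← h2]
      simp only [hk1]
      rw [h3]
      obtain ⟨j, hj⟩ := Nat.exists_eq_succ_of_ne_zero hk0
      rw [hj, Nat.succ_eq_add_one, Nat.add_sub_cancel, pow_succ]
      ring

end Bru95
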