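import Pool.Agent.LibBru95.RExpZ

/-! Row B26. The exponential maps the ball of radius `p^-3` onto `1 +` ball. Successive approximation: if
`‖w / ex z_k - 1‖ ≤ ε ≤ p^-3` put `u = w / ex z_k - 1`, `z_(k+1) = z_k + u`: `w / ex z_(k+1) - 1 = ((1 + u) - ex u)/ex u` has norm
at most `p^2 ‖u‖^2 ≤ p^-1 ε` (`norm_ex_sub_one_sub_le`). The `z_k` are Cauchy (complete space), and `ex` is Lipschitz on the ball:
`‖ex z - ex z'‖ = ‖ex (z - z') - 1‖ ≤ max(‖z - z'‖, p^2‖z-z'‖^2) ≤ ‖z - z'‖`. -/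

namespace Bru95

variable {p : ℕ} [Fact p.Prime] {E : Type*} [NormedField E] [NormedAlgebra ℚ_[p] E]
  [IsUltrametricDist E] [CompleteSpace E] [CharZero E]

private theorem RExSurj_p : (0 : ℝ) < p ∧ (1 : ℝ) < p := by
  have h := (Fact.out : p.Prime).one_lt
  have h2 : (1 : ℝ) < p := by exact_mod_cast h
  exact ⟨by linarith, h2⟩

private theorem RExSurj_max (x y : E) : ‖x - y‖ ≤ max ‖x‖ ‖y‖ := by
  rw [sub_eq_add_neg, ← norm_neg y]
  exact IsUltrametricDist.norm_add_le_max x (-y)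

private theorem RExSurj_32 {x : E} (hx : ‖x‖ ≤ ((p : ℝ) ^ 3)⁻¹) : ‖x‖ ≤ ((p : ℝ) ^ 2)⁻¹ := by
  obtain ⟨h0, h1⟩ := RExSurj_p (p := p)
  refine hx.trans ?_
  rw [inv_le_inv₀ (by positivity) (by positivity)]
  exact pow_le_pow_right₀ h1.le (by norm_num)

/-- `‖ex x - 1 - x‖ ≤ ‖x‖ / p` -/
private theorem RExSurj_sub {x : E} (hx : ‖x‖ ≤ ((p : ℝ) ^ 3)⁻¹) :
    ‖ex x - 1 - x‖ ≤ (p : ℝ)⁻¹ * ‖x‖ := by
  obtain ⟨h0, h1⟩ := RExSurj_p (p := p)
  refine (norm_ex_sub_one_sub_le (p := p) (RExSurj_32 hx)).trans ?_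
  rw [sq ‖x‖, ← mul_assoc]
  refine mul_le_mul_of_nonneg_right ?_ (norm_nonneg _)
  calc (p : ℝ) ^ 2 * ‖x‖ ≤ (p : ℝ) ^ 2 * ((p : ℝ) ^ 3)⁻¹ :=
        mul_le_mul_of_nonneg_left hx (by positivity)
    _ = (p : ℝ)⁻¹ := by
        field_simp

/-- `‖ex x - 1‖ = ‖x‖` -/
theorem norm_ex_sub_one {x : E} (hx : ‖x‖ ≤ ((p : ℝ) ^ 3)⁻¹) : ‖ex x - 1‖ = ‖x‖ := by
  obtain ⟨h0, h1⟩ := RExSurj_p (p := p)
  by_cases hx0 : x = 0
  · subst hx0
    rw [ex_zero, sub_self]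
  · have hn : 0 < ‖x‖ := norm_pos_iff.2 hx0
    have hlt : ‖ex x - 1 - x‖ < ‖x‖ := by
      refine (RExSurj_sub hx).trans_lt ?_
      have : (p : ℝ)⁻¹ < 1 := inv_lt_one_of_one_lt₀ h1
      nlinarith
    have h2 : ex x - 1 = (ex x - 1 - x) + x := by ring
    rw [h2, IsUltrametricDist.norm_add_eq_max_of_norm_ne_norm hlt.ne, max_eq_right hlt.le]

theorem ex_surj {w : E} (hw : ‖w - 1‖ ≤ ((p : ℝ) ^ 3)⁻¹) :
    ∃ z : E, ‖z‖ ≤ ((p : ℝ) ^ 3)⁻¹ ∧ ex z = w := by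
  obtain ⟨h0, h1⟩ := RExSurj_p (p := p)
  have hρ : (0 : ℝ) ≤ ((p : ℝ) ^ 3)⁻¹ := by positivity
  have hρp : ((p : ℝ) ^ 3)⁻¹ ≤ (p : ℝ)⁻¹ := by
    rw [inv_le_inv₀ (by positivity) h0]
    exact le_self_pow₀ h1.le (by norm_num)
  -- `w / ex z - 1` is small
  have hu : ∀ z : E, ‖z‖ ≤ ((p : ℝ) ^ 3)⁻¹ → ‖w / ex z - 1‖ ≤ ((p : ℝ) ^ 3)⁻¹ := by
    intro z hz
    have hz0 : ex z ≠ 0 := ex_ne_zero (p := p) (RExSurj_32 hz)
    have h2 : w / ex z - 1 = ((w - 1) - (ex z - 1)) / ex z := by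
      rw [sub_sub_sub_cancel_right, sub_div, div_self hz0]
    rw [h2, norm_div, norm_ex (p := p) (RExSurj_32 hz), div_one]
    refine (RExSurj_max _ _).trans (max_le hw ?_)
    rw [norm_ex_sub_one hz]
    exact hz
  have hmaps : Set.MapsTo (fun z : E => z + (w / ex z - 1)) (Metric.closedBall 0 ((p : ℝ) ^ 3)⁻¹)
      (Metric.closedBall 0 ((p : ℝ) ^ 3)⁻¹) := by
    intro z hz
    rw [mem_closedBall_zero_iff] at hz ⊢
    exact (IsUltrametricDist.norm_add_le_max _ _).trans (max_le hz (hu z hz))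
  have hcontr : ContractingWith ((p : NNReal)⁻¹) (hmaps.restrict _ _ _) := by
    refine ⟨inv_lt_one_of_one_lt₀ (by exact_mod_cast h1), LipschitzWith.of_dist_le_mul ?_⟩
    rintro ⟨z, hz⟩ ⟨z', hz'⟩
    rw [mem_closedBall_zero_iff] at hz hz'
    change dist (z + (w / ex z - 1)) (z' + (w / ex z' - 1)) ≤ _ * dist z z'
    rw [dist_eq_norm, dist_eq_norm]
    have hδ : ‖z - z'‖ ≤ ((p : ℝ) ^ 3)⁻¹ :=
      (RExSurj_max _ _).trans (max_le hz hz')
    have hz0 : ex z ≠ 0 := ex_ne_zero (p := p) (RExSurj_32 hz)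
    have hz0' : ex z' ≠ 0 := ex_ne_zero (p := p) (RExSurj_32 hz')
    have he : ex z = ex (z - z') * ex z' := by
      rw [← ex_add (p := p) (RExSurj_32 hδ) (RExSurj_32 hz'), sub_add_cancel]
    have h3 : z + (w / ex z - 1) - (z' + (w / ex z' - 1)) =
        -((ex (z - z') - 1 - (z - z')) + (w / ex z - 1) * (ex (z - z') - 1)) := by
      have h4 : w / ex z' = w / ex z * ex (z - z') := by
        rw [he]
        have h5 : ex (z - z') ≠ 0 := ex_ne_zero (p := p) (RExSurj_32 hδ)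
        field_simp
      rw [h4]
      ring
    rw [h3, norm_neg]
    refine (IsUltrametricDist.norm_add_le_max _ _).trans (max_le ?_ ?_)
    · exact (RExSurj_sub hδ).trans_eq (by push_cast; rfl)
    · rw [norm_mul, norm_ex_sub_one hδ]
      refine (mul_le_mul_of_nonneg_right ((hu z hz).trans hρp) (norm_nonneg _)).trans_eq ?_
      push_cast
      rfl
  obtain ⟨z, hz, hfix, -⟩ := hcontr.exists_fixedPoint' (Metric.isClosed_closedBall.isComplete)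
    hmaps (x := (0 : E)) (Metric.mem_closedBall_self hρ) (edist_ne_top _ _)
  rw [mem_closedBall_zero_iff] at hz
  refine ⟨z, hz, ?_⟩
  have h6 : z + (w / ex z - 1) = z := hfix
  have h7 : w / ex z = 1 := by
    have : w / ex z - 1 = 0 := by
      have := congrArg (fun t => t - z) h6
      simpa using this
    exact sub_eq_zero.1 this
  have hz0 : ex z ≠ 0 := ex_ne_zero (p := p) (RExSurj_32 hz)
  exact ((div_eq_one_iff_eq hz0).1 h7).symm

end Bru95
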