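import Pool.Agent.LibBru95.RFact

/-! Row B2. The exponential on the ball of radius `p^-2` (crude, so that `p = 2` needs no care).
All terms: `‖x^n/n!‖ ≤ p^(-2n) p^n = p^(-n)`.
`ex_add`: Cauchy product (`tsum_mul_tsum_eq_tsum_sum_antidiagonal_of_summable_norm` or the version for complete
normed rings, the norms `p^-n` are summable) and the binomial theorem (`add_pow`, `Nat.choose` and factorials). -/

namespace Bru95

variable {p : ℕ} [Fact p.Prime] {E : Type*} [NormedField E] [NormedAlgebra ℚ_[p] E]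
  [IsUltrametricDist E] [CompleteSpace E] [CharZero E]

private theorem RExp_pp {p : ℕ} [Fact p.Prime] : (1 : ℝ) < p := by
  exact_mod_cast (Fact.out : p.Prime).one_lt

private theorem RExp_norm_tsum_le {E : Type*} [NormedField E] [IsUltrametricDist E]
    {f : ℕ → E} {s : E} (h : HasSum f s) {C : ℝ} (hC : 0 ≤ C) (hf : ∀ n, ‖f n‖ ≤ C) :
    ‖s‖ ≤ C :=
  le_of_tendsto (h.tendsto_sum_nat.norm) (Filter.Eventually.of_forall fun n =>
    IsUltrametricDist.norm_sum_le_of_forall_le_of_nonneg hC fun i _ => hf i)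

theorem ex_term_le {x : E} (hx : ‖x‖ ≤ ((p : ℝ) ^ 2)⁻¹) (n : ℕ) :
    ‖((n.factorial : E))⁻¹ * x ^ n‖ ≤ ((p : ℝ)⁻¹) ^ n := by
  have hp : (1 : ℝ) < p := RExp_pp
  have hp0 : (p : ℝ) ≠ 0 := by positivity
  rw [norm_mul, norm_pow]
  calc ‖((n.factorial : E))⁻¹‖ * ‖x‖ ^ n ≤ (p : ℝ) ^ n * (((p : ℝ) ^ 2)⁻¹) ^ n :=
        mul_le_mul (norm_inv_factorial_le n) (pow_le_pow_left₀ (norm_nonneg _) hx n)
          (by positivity) (by positivity)
    _ = ((p : ℝ)⁻¹) ^ n := by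
        rw [← mul_pow]
        congr 1
        field_simp

theorem ex_summable {x : E} (hx : ‖x‖ ≤ ((p : ℝ) ^ 2)⁻¹) :
    Summable (fun n : ℕ => ((n.factorial : E))⁻¹ * x ^ n) := by
  have hp : (1 : ℝ) < p := RExp_pp
  exact Summable.of_norm_bounded (g := fun n : ℕ => ((p : ℝ)⁻¹) ^ n)
    (summable_geometric_of_lt_one (by positivity) (inv_lt_one_of_one_lt₀ hp))
    (fun n => ex_term_le hx n)

theorem ex_zero : ex (0 : E) = 1 := by
  unfold ex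
  rw [tsum_eq_single 0]
  · simp
  · intro n hn
    rw [zero_pow hn, mul_zero]

theorem ex_add {x y : E} (hx : ‖x‖ ≤ ((p : ℝ) ^ 2)⁻¹) (hy : ‖y‖ ≤ ((p : ℝ) ^ 2)⁻¹) :
    ex (x + y) = ex x * ex y := by
  have hp : (1 : ℝ) < p := RExp_pp
  have hg : Summable (fun n : ℕ => ((p : ℝ)⁻¹) ^ n) :=
    summable_geometric_of_lt_one (by positivity) (inv_lt_one_of_one_lt₀ hp)
  have hsx : Summable (fun n : ℕ => ‖((n.factorial : E))⁻¹ * x ^ n‖) :=
    Summable.of_nonneg_of_le (fun _ => norm_nonneg _) (fun n => ex_term_le hx n) hg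
  have hsy : Summable (fun n : ℕ => ‖((n.factorial : E))⁻¹ * y ^ n‖) :=
    Summable.of_nonneg_of_le (fun _ => norm_nonneg _) (fun n => ex_term_le hy n) hg
  unfold ex
  rw [tsum_mul_tsum_eq_tsum_sum_antidiagonal_of_summable_norm hsx hsy]
  refine tsum_congr fun n => ?_
  rw [(Commute.all x y).add_pow', Finset.mul_sum]
  refine Finset.sum_congr rfl fun kl hkl => ?_
  have hn : kl.1 + kl.2 = n := Finset.HasAntidiagonal.mem_antidiagonal.1 hkl
  have h1 : ((kl.1.factorial : ℕ) : E) ≠ 0 := by exact_mod_cast kl.1.factorial_ne_zero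
  have h2 : ((kl.2.factorial : ℕ) : E) ≠ 0 := by exact_mod_cast kl.2.factorial_ne_zero
  have h3 : ((n.factorial : ℕ) : E) ≠ 0 := by exact_mod_cast n.factorial_ne_zero
  have h4 : ((n.choose kl.1 : ℕ) : E) * (kl.1.factorial : E) * (kl.2.factorial : E) =
      (n.factorial : E) := by
    have := Nat.choose_mul_factorial_mul_factorial (n := n) (k := kl.1) (by omega)
    rw [show n - kl.1 = kl.2 by omega] at this
    exact_mod_cast this
  rw [nsmul_eq_mul]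
  field_simp
  rw [← h4]
  ring

/-- `‖exp x - 1‖ ≤ 1/p` -/
theorem norm_ex_sub_one_le {x : E} (hx : ‖x‖ ≤ ((p : ℝ) ^ 2)⁻¹) : ‖ex x - 1‖ ≤ (p : ℝ)⁻¹ := by
  have hp : (1 : ℝ) < p := RExp_pp
  have h1 : HasSum (fun n : ℕ => (((n + 1).factorial : E))⁻¹ * x ^ (n + 1)) (ex x - 1) := by
    have h2 : HasSum (fun n : ℕ => ((n.factorial : E))⁻¹ * x ^ n) (ex x) :=
      (ex_summable hx).hasSum
    have h3 := (hasSum_nat_add_iff' (f := fun n : ℕ => ((n.factorial : E))⁻¹ * x ^ n) 1).2 h2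
    simpa using h3
  refine RExp_norm_tsum_le h1 (by positivity) fun n => (ex_term_le hx (n + 1)).trans ?_
  calc ((p : ℝ)⁻¹) ^ (n + 1) ≤ ((p : ℝ)⁻¹) ^ 1 :=
        pow_le_pow_of_le_one (by positivity) (inv_le_one_of_one_le₀ hp.le) (by omega)
    _ = (p : ℝ)⁻¹ := pow_one _

theorem norm_ex {x : E} (hx : ‖x‖ ≤ ((p : ℝ) ^ 2)⁻¹) : ‖ex x‖ = 1 := by
  have hp : (1 : ℝ) < p := RExp_pp
  have h1 := norm_ex_sub_one_le hx
  have h2 : ‖ex x - 1‖ < 1 := h1.trans_lt (inv_lt_one_of_one_lt₀ hp)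
  have h3 : ‖(ex x - 1) + 1‖ = max ‖ex x - 1‖ ‖(1 : E)‖ :=
    IsUltrametricDist.norm_add_eq_max_of_norm_ne_norm (by rw [norm_one]; exact h2.ne)
  rw [sub_add_cancel, norm_one, max_eq_right h2.le] at h3
  exact h3

/-- `‖exp x - 1 - x‖ ≤ p^4 ‖x‖^2` for small `x` (terms `n ≥ 2`: `‖x^n/n!‖ ≤ ‖x‖^2 p^(2n-4... )`; with
`‖x‖ ≤ p^-2`: `‖x‖^n p^n = ‖x‖^2 p^n ‖x‖^(n-2) ≤ ‖x‖^2 p^n p^(-2(n-2)) = ‖x‖^2 p^(4-n)`, largest `p^2 ‖x‖^2` at
`n = 2`). -/
theorem norm_ex_sub_one_sub_le {x : E} (hx : ‖x‖ ≤ ((p : ℝ) ^ 2)⁻¹) :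
    ‖ex x - 1 - x‖ ≤ (p : ℝ) ^ 2 * ‖x‖ ^ 2 := by
  have hp : (1 : ℝ) < p := RExp_pp
  have h1 : HasSum (fun n : ℕ => (((n + 2).factorial : E))⁻¹ * x ^ (n + 2)) (ex x - 1 - x) := by
    have h2 : HasSum (fun n : ℕ => ((n.factorial : E))⁻¹ * x ^ n) (ex x) :=
      (ex_summable hx).hasSum
    have h3 := (hasSum_nat_add_iff' (f := fun n : ℕ => ((n.factorial : E))⁻¹ * x ^ n) 2).2 h2
    have h4 : ∑ i ∈ Finset.range 2, ((i.factorial : E))⁻¹ * x ^ i = 1 + x := by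
      rw [Finset.sum_range_succ, Finset.sum_range_succ, Finset.sum_range_zero]
      simp
    rw [h4] at h3
    rw [sub_sub]
    exact h3
  refine RExp_norm_tsum_le h1 (by positivity) fun n => ?_
  rw [norm_mul, norm_pow]
  calc ‖(((n + 2).factorial : E))⁻¹‖ * ‖x‖ ^ (n + 2)
      ≤ (p : ℝ) ^ (n + 2) * (((p : ℝ) ^ 2)⁻¹ ^ n * ‖x‖ ^ 2) := by
        refine mul_le_mul (norm_inv_factorial_le (n + 2)) ?_ (by positivity) (by positivity)
        rw [pow_add]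
        exact mul_le_mul_of_nonneg_right (pow_le_pow_left₀ (norm_nonneg _) hx n) (by positivity)
    _ = ((p : ℝ)⁻¹) ^ n * ((p : ℝ) ^ 2 * ‖x‖ ^ 2) := by
        rw [pow_add, inv_pow, inv_pow, ← pow_mul, mul_comm 2 n, pow_mul, pow_two ((p : ℝ) ^ n)]
        have hp0 : (p : ℝ) ^ n ≠ 0 := by positivity
        field_simp
    _ ≤ 1 * ((p : ℝ) ^ 2 * ‖x‖ ^ 2) :=
        mul_le_mul_of_nonneg_right (pow_le_one₀ (by positivity) (inv_le_one_of_one_le₀ hp.le))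
          (by positivity)
    _ = (p : ℝ) ^ 2 * ‖x‖ ^ 2 := one_mul _

end Bru95
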