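import Pool.Agent.LibBru95.RExp

/-! Row B3. Integer combinations. -/

namespace Bru95

variable {p : ℕ} [Fact p.Prime] {E : Type*} [NormedField E] [NormedAlgebra ℚ_[p] E]
  [IsUltrametricDist E] [CompleteSpace E] [CharZero E]

theorem ex_ne_zero {x : E} (hx : ‖x‖ ≤ ((p : ℝ) ^ 2)⁻¹) : ex x ≠ 0 := by
  rw [← norm_ne_zero_iff, norm_ex hx]
  norm_num

theorem norm_int_comb_le {ι : Type*} (s : Finset ι) (lam : ι → E) {C : ℝ} (hC : 0 ≤ C)
    (h : ∀ k ∈ s, ‖lam k‖ ≤ C) (m : ι → ℤ) : ‖∑ k ∈ s, (m k : E) * lam k‖ ≤ C := by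
  refine IsUltrametricDist.norm_sum_le_of_forall_le_of_nonneg hC fun k hk => ?_
  rw [norm_mul]
  calc ‖((m k : ℤ) : E)‖ * ‖lam k‖ ≤ 1 * C :=
        mul_le_mul (IsUltrametricDist.norm_intCast_le_one E (m k)) (h k hk) (norm_nonneg _) zero_le_one
    _ = C := one_mul C

theorem ex_int_mul {x : E} (hx : ‖x‖ ≤ ((p : ℝ) ^ 2)⁻¹) (m : ℤ) : ex ((m : E) * x) = ex x ^ m := by
  have hnat : ∀ n : ℕ, ex ((n : E) * x) = ex x ^ n := by
    intro n
    induction n with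
    | zero => rw [Nat.cast_zero, zero_mul, ex_zero, pow_zero]
    | succ n ih =>
      have hn : ‖(n : E) * x‖ ≤ ((p : ℝ) ^ 2)⁻¹ := by
        rw [norm_mul]
        calc ‖(n : E)‖ * ‖x‖ ≤ 1 * ((p : ℝ) ^ 2)⁻¹ :=
              mul_le_mul (IsUltrametricDist.norm_natCast_le_one E n) hx (norm_nonneg _) zero_le_one
          _ = _ := one_mul _
      rw [Nat.cast_succ, add_mul, one_mul, ex_add hn hx, ih, pow_succ]
  obtain ⟨n, rfl | rfl⟩ := m.eq_nat_or_neg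
  · rw [Int.cast_natCast, hnat, zpow_natCast]
  · have hn : ‖(n : E) * x‖ ≤ ((p : ℝ) ^ 2)⁻¹ := by
      rw [norm_mul]
      calc ‖(n : E)‖ * ‖x‖ ≤ 1 * ((p : ℝ) ^ 2)⁻¹ :=
            mul_le_mul (IsUltrametricDist.norm_natCast_le_one E n) hx (norm_nonneg _) zero_le_one
        _ = _ := one_mul _
    have hn' : ‖-((n : E) * x)‖ ≤ ((p : ℝ) ^ 2)⁻¹ := by rw [norm_neg]; exact hn
    have h1 := ex_add hn hn'
    rw [add_neg_cancel, ex_zero, hnat] at h1
    rw [Int.cast_neg, Int.cast_natCast, neg_mul, zpow_neg, zpow_natCast]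
    exact eq_inv_of_mul_eq_one_right h1.symm

theorem ex_int_comb {ι : Type*} (s : Finset ι) (lam : ι → E)
    (h : ∀ k ∈ s, ‖lam k‖ ≤ ((p : ℝ) ^ 2)⁻¹) (m : ι → ℤ) :
    ex (∑ k ∈ s, (m k : E) * lam k) = ∏ k ∈ s, ex (lam k) ^ m k := by
  classical
  induction s using Finset.induction_on with
  | empty => rw [Finset.sum_empty, Finset.prod_empty, ex_zero]
  | insert a s ha ih =>
    have h1 : ∀ k ∈ s, ‖lam k‖ ≤ ((p : ℝ) ^ 2)⁻¹ := fun k hk => h k (Finset.mem_insert_of_mem hk)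
    have h0 : (0 : ℝ) ≤ ((p : ℝ) ^ 2)⁻¹ := by positivity
    have h2 : ‖((m a : ℤ) : E) * lam a‖ ≤ ((p : ℝ) ^ 2)⁻¹ := by
      have := norm_int_comb_le {a} lam h0 (fun k hk => by
        rw [Finset.mem_singleton] at hk
        rw [hk]
        exact h a (Finset.mem_insert_self a s)) m
      rwa [Finset.sum_singleton] at this
    rw [Finset.sum_insert ha, Finset.prod_insert ha,
      ex_add h2 (norm_int_comb_le s lam h0 h1 m),
      ih h1, ex_int_mul (h a (Finset.mem_insert_self a s))]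

end Bru95
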