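import Pool.Agent.LibBru95.Defs

/-! Row B1. `‖1/n!‖ ≤ p^n`; integral elements have norm at most 1; natural numbers have norm at most one.
Plan: `norm_algebraMap'` turns the first into a statement on `ℚ_[p]`; there `‖n!‖ = p^(-v_p(n!))` and
`v_p(n!) ≤ n` (e.g. `sub_one_mul_padicValNat_factorial` / `Nat.factorization_factorial`..., or by induction is false:
use Legendre).  The second: in an ultrametric field, if `‖y‖ > 1` then the leading term of a monic integer equation
dominates. -/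

namespace Bru95

variable {p : ℕ} [Fact p.Prime] {E : Type*} [NormedField E] [NormedAlgebra ℚ_[p] E]

private theorem RFact_norm_nat (p : ℕ) [Fact p.Prime] {E : Type*} [NormedField E]
    [NormedAlgebra ℚ_[p] E] (n : ℕ) : ‖(n : E)‖ = ‖(n : ℚ_[p])‖ := by
  rw [← map_natCast (algebraMap ℚ_[p] E) n, norm_algebraMap']

private theorem RFact_norm_nat_val (p : ℕ) [Fact p.Prime] (n : ℕ) (hn : n ≠ 0) :
    ‖(n : ℚ_[p])‖ = ((p : ℝ) ^ padicValNat p n)⁻¹ := by
  have h1 : (n : ℚ_[p]) ≠ 0 := by exact_mod_cast hn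
  rw [Padic.norm_eq_zpow_neg_valuation h1, Padic.valuation_natCast, zpow_neg, zpow_natCast]

theorem norm_inv_factorial_le (n : ℕ) : ‖((n.factorial : E))⁻¹‖ ≤ (p : ℝ) ^ n := by
  have hp : 1 < p := (Fact.out : p.Prime).one_lt
  rw [norm_inv, RFact_norm_nat p, RFact_norm_nat_val p _ n.factorial_ne_zero, inv_inv]
  refine pow_le_pow_right₀ (by exact_mod_cast hp.le) ?_
  have h1 := sub_one_mul_padicValNat_factorial (p := p) n
  have h2 : 1 * padicValNat p n.factorial ≤ (p - 1) * padicValNat p n.factorial :=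
    Nat.mul_le_mul_right _ (by omega)
  omega

theorem norm_natCast_le_one' [IsUltrametricDist E] (n : ℕ) : ‖(n : E)‖ ≤ 1 :=
  IsUltrametricDist.norm_natCast_le_one E n

theorem norm_intCast_le_one' [IsUltrametricDist E] (n : ℤ) : ‖(n : E)‖ ≤ 1 := by
  rcases Int.natAbs_eq n with h | h
  · rw [h, Int.cast_natCast]
    exact norm_natCast_le_one' _
  · rw [h, Int.cast_neg, Int.cast_natCast, norm_neg]
    exact norm_natCast_le_one' _

/-- an integral element has norm at most one -/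
theorem norm_integral_le_one [IsUltrametricDist E] {y : E} (hy : IsIntegral ℤ y) : ‖y‖ ≤ 1 := by
  by_contra hlt
  have h1 : 1 < ‖y‖ := not_le.1 hlt
  obtain ⟨P, hP, hPy⟩ := hy
  have h2 : y ^ P.natDegree + ∑ i ∈ Finset.range P.natDegree, (P.coeff i : E) * y ^ i = 0 := by
    have h3 := hPy
    rw [hP.as_sum, Polynomial.eval₂_add, Polynomial.eval₂_pow, Polynomial.eval₂_X,
      Polynomial.eval₂_finsetSum] at h3
    rw [← h3]
    congr 1
    refine Finset.sum_congr rfl fun i _ => ?_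
    rw [Polynomial.eval₂_mul, Polynomial.eval₂_C, Polynomial.eval₂_pow, Polynomial.eval₂_X]
    simp
  have h4 : ‖y ^ P.natDegree‖ = ‖∑ i ∈ Finset.range P.natDegree, (P.coeff i : E) * y ^ i‖ := by
    rw [eq_neg_of_add_eq_zero_left h2, norm_neg]
  rcases Nat.eq_zero_or_pos P.natDegree with h0 | h0
  · rw [h0] at h2
    simp at h2
  · have h5 : ‖∑ i ∈ Finset.range P.natDegree, (P.coeff i : E) * y ^ i‖ ≤
        ‖y‖ ^ (P.natDegree - 1) := by
      refine IsUltrametricDist.norm_sum_le_of_forall_le_of_nonneg (by positivity) ?_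
      intro i hi
      rw [norm_mul, norm_pow]
      have h6 : ‖(P.coeff i : E)‖ ≤ 1 := norm_intCast_le_one' _
      have h7 : ‖y‖ ^ i ≤ ‖y‖ ^ (P.natDegree - 1) :=
        pow_le_pow_right₀ h1.le (by have := Finset.mem_range.1 hi; omega)
      calc ‖(P.coeff i : E)‖ * ‖y‖ ^ i ≤ 1 * ‖y‖ ^ i :=
            mul_le_mul_of_nonneg_right h6 (by positivity)
        _ ≤ ‖y‖ ^ (P.natDegree - 1) := by rw [one_mul]; exact h7
    rw [← h4, norm_pow] at h5
    have h8 : ‖y‖ ^ (P.natDegree - 1) < ‖y‖ ^ P.natDegree :=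
      pow_lt_pow_right₀ h1 (by omega)
    exact absurd h5 (not_le.2 h8)

/-- `‖m‖_p ≥ 1/|m|` for a nonzero integer `m` -/
theorem one_le_norm_int_mul (p : ℕ) [Fact p.Prime] {E : Type*} [NormedField E] [NormedAlgebra ℚ_[p] E]
    (m : ℤ) (hm : m ≠ 0) : 1 ≤ ‖(m : E)‖ * |(m : ℝ)| := by
  have hn : m.natAbs ≠ 0 := Int.natAbs_ne_zero.2 hm
  have h1 : ‖(m : E)‖ = ‖(m.natAbs : E)‖ := by
    rcases Int.natAbs_eq m with h | h
    · conv_lhs => rw [h, Int.cast_natCast]
    · conv_lhs => rw [h, Int.cast_neg, Int.cast_natCast, norm_neg]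
  have h2 : |(m : ℝ)| = (m.natAbs : ℝ) := by
    rw [Nat.cast_natAbs, Int.cast_abs]
  have hp : (0 : ℝ) < (p : ℝ) := by exact_mod_cast (Fact.out : p.Prime).pos
  rw [h1, h2, RFact_norm_nat p, RFact_norm_nat_val p _ hn]
  have h3 : p ^ padicValNat p m.natAbs ≤ m.natAbs :=
    Nat.le_of_dvd (Nat.pos_of_ne_zero hn) pow_padicValNat_dvd
  have h4 : ((p : ℝ) ^ padicValNat p m.natAbs) ≤ (m.natAbs : ℝ) := by exact_mod_cast h3
  have h5 : (0 : ℝ) < (p : ℝ) ^ padicValNat p m.natAbs := by positivity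
  calc (1 : ℝ) = ((p : ℝ) ^ padicValNat p m.natAbs)⁻¹ * (p : ℝ) ^ padicValNat p m.natAbs :=
        (inv_mul_cancel₀ h5.ne').symm
    _ ≤ _ := mul_le_mul_of_nonneg_left h4 (by positivity)

end Bru95
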