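import Pool.Agent.LibBru95.RHouse

/-! Row B14. House of `δ^(N S) gam P τ s`: sum over the `N^(r+1)` terms of `coeff_bound`. -/

namespace Bru95

open NumberField

variable {F : Type*} [Field F] [NumberField F] {r : ℕ}

theorem gam_house (a : Fin r → Fin (r + 1) → 𝓞 F) (x : Fin r → Fin (r + 1) → F) :
    ∃ (c : ℝ) (δ : ℕ), 1 ≤ c ∧ 1 ≤ δ ∧ ∀ (N S : ℕ) (P : (Fin (r + 1) → Fin N) → 𝓞 F) (H : ℝ)
      (τ s : Fin r → ℕ), (∀ l, house (P l : F) ≤ H) → (∀ i, s i < S) →
        IsIntegral ℤ ((δ : F) ^ (N * S) * gam a x P τ s) ∧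
        house ((δ : F) ^ (N * S) * gam a x P τ s) ≤
          (N : ℝ) ^ (r + 1) * (H * (c ^ (N * S) * (c * N) ^ (∑ g, τ g))) := by
  obtain ⟨c, δ, hc, hδ, H⟩ := coeff_bound a x
  refine ⟨c, δ, hc, hδ, fun N S P h τ s hP hs => ?_⟩
  have e : (δ : F) ^ (N * S) * gam a x P τ s = ∑ l, (P l : F) *
      ((δ : F) ^ (N * S) * ((∏ g, Aev a l g ^ τ g) * ∏ i, Xev x l i ^ s i)) := by
    unfold gam
    rw [Finset.mul_sum]
    refine Finset.sum_congr rfl fun l _ => ?_
    ring
  rw [e]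
  constructor
  · refine IsIntegral.sum _ fun l _ => ?_
    exact (RingOfIntegers.isIntegral_coe (P l)).mul (H N S l τ s hs).1
  · refine (house_sum_le_sum_house _ _).trans ?_
    have hcard : ((Finset.univ : Finset (Fin (r + 1) → Fin N)).card : ℝ) = (N : ℝ) ^ (r + 1) := by
      rw [Finset.card_univ, Fintype.card_fun, Fintype.card_fin, Fintype.card_fin]
      push_cast
      rfl
    rw [← hcard, ← nsmul_eq_mul]
    refine Finset.sum_le_card_nsmul _ _ _ fun l _ => ?_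
    refine (house_mul_le _ _).trans ?_
    exact mul_le_mul (hP l) (H N S l τ s hs).2 (house_nonneg _) ((house_nonneg _).trans (hP l))

end Bru95
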