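import Pool.Agent.LibBru95.RFact

/-! Row B15. Liouville's inequality. `N = norm(ξ) ∈ ℤ` is nonzero and `N = ξ η` with `η ∈ 𝓞 F`
(e.g. `Algebra.norm ℤ ξ` is divisible by `ξ` in `𝓞 F`: `RingOfIntegers.norm`/ `Algebra.dvd_norm`/
`Ideal.absNorm_mem`, or take `η` as the product of the other conjugates in an algebraic closure), so
`‖N‖ = ‖σ ξ‖ ‖σ η‖ ≤ ‖σ ξ‖`; `‖N‖ |N| ≥ 1` (`one_le_norm_int_mul`); `|N| = ∏_θ |θ ξ| ≤ house^d`
(`NumberField.Embeddings`/ `Algebra.norm_eq_prod_embeddings`, `house_eq_sup'`). -/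

namespace Bru95

open NumberField

variable {F : Type*} [Field F] [NumberField F]

theorem liouville (p : ℕ) [Fact p.Prime] {E : Type*} [NormedField E] [NormedAlgebra ℚ_[p] E]
    [IsUltrametricDist E] (σ : F →+* E) {ξ : F} (hint : IsIntegral ℤ ξ) (hξ : ξ ≠ 0) :
    1 ≤ ‖σ ξ‖ * house ξ ^ Module.finrank ℚ F := by
  set x : 𝓞 F := ⟨ξ, hint⟩ with hx
  have hxξ : (x : F) = ξ := rfl
  have hx0 : x ≠ 0 := by
    intro h
    apply hξ
    rw [← hxξ, h]
    rfl
  set n : ℕ := Ideal.absNorm (Ideal.span ({x} : Set (𝓞 F))) with hn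
  have hnN : n = (Algebra.norm ℤ x).natAbs := Ideal.absNorm_span_singleton x
  have hn0 : (Algebra.norm ℤ x) ≠ 0 := Algebra.norm_ne_zero_iff.2 hx0
  have hn0' : (n : ℤ) ≠ 0 := by
    rw [hnN]
    exact_mod_cast Int.natAbs_ne_zero.2 hn0
  have hmem : ((n : ℕ) : 𝓞 F) ∈ Ideal.span ({x} : Set (𝓞 F)) := Ideal.absNorm_mem _
  obtain ⟨η, hη⟩ := Ideal.mem_span_singleton'.1 hmem
  have hη' : (η : F) * ξ = (n : F) := by
    have := congrArg (fun z : 𝓞 F => (z : F)) hη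
    rw [← hxξ]
    simpa using this
  have hση : ‖σ (η : F)‖ ≤ 1 := by
    apply norm_integral_le_one
    exact map_isIntegral_int σ η.isIntegral_coe
  have h1 : ‖((n : ℤ) : E)‖ ≤ ‖σ ξ‖ := by
    have h2 : ((n : ℤ) : E) = σ (η : F) * σ ξ := by
      rw [← map_mul, hη']
      simp
    rw [h2, norm_mul]
    exact mul_le_of_le_one_left (norm_nonneg _) hση
  have h3 := one_le_norm_int_mul p (E := E) (n : ℤ) hn0'
  have h4 : |((n : ℤ) : ℝ)| ≤ house ξ ^ Module.finrank ℚ F := by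
    have h5 := norm_norm_le_norm_mul_house_pow ξ (Classical.arbitrary (F →+* ℂ))
    have h6 : ‖Algebra.norm ℚ ξ‖ = |((n : ℤ) : ℝ)| := by
      have h7 : (Algebra.norm ℤ x : ℚ) = Algebra.norm ℚ ξ := Algebra.coe_norm_int x
      rw [← h7, ← Rat.norm_cast_real, Real.norm_eq_abs, hnN]
      push_cast
      simp
    rw [← h6]
    refine h5.trans ?_
    have h8 : 0 < Module.finrank ℚ F := Module.finrank_pos
    calc ‖(Classical.arbitrary (F →+* ℂ)) ξ‖ * house ξ ^ (Module.finrank ℚ F - 1)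
        ≤ house ξ * house ξ ^ (Module.finrank ℚ F - 1) :=
          mul_le_mul_of_nonneg_right (norm_embedding_le_house _ _)
            (pow_nonneg (house_nonneg _) _)
      _ = house ξ ^ Module.finrank ℚ F := by
          rw [← pow_succ']
          congr 1
          omega
  calc (1 : ℝ) ≤ ‖((n : ℤ) : E)‖ * |((n : ℤ) : ℝ)| := h3
    _ ≤ ‖σ ξ‖ * house ξ ^ Module.finrank ℚ F :=
        mul_le_mul h1 h4 (abs_nonneg _) (norm_nonneg _)

end Bru95
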