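import Pool.Agent.LibBru95.Defs

/-! Row B13. The minimal order of a nonvanishing derivative on the grid (`Nat.find`). If `∑ τ < T` then all `τ g < T`. -/

namespace Bru95

open NumberField

variable {F : Type*} [Field F] [NumberField F] {r : ℕ}

theorem exists_min_order (a : Fin r → Fin (r + 1) → 𝓞 F) (x : Fin r → Fin (r + 1) → F) {N : ℕ}
    (P : (Fin (r + 1) → Fin N) → 𝓞 F) (S T : ℕ) (hS : 1 ≤ S)
    (hvan : ∀ τ s : Fin r → ℕ, (∀ g, τ g < T) → (∀ i, s i < S) → gam a x P τ s = 0)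
    (hne : ∃ τ : Fin r → ℕ, gam a x P τ 0 ≠ 0) :
    ∃ (T₁ : ℕ) (τ s : Fin r → ℕ), T ≤ T₁ ∧ (∀ i, s i < S) ∧ ∑ g, τ g = T₁ ∧
      gam a x P τ s ≠ 0 ∧
      ∀ τ' s' : Fin r → ℕ, (∀ i, s' i < S) → ∑ g, τ' g < T₁ → gam a x P τ' s' = 0 := by
  classical
  have hex : ∃ n : ℕ, ∃ τ s : Fin r → ℕ, (∀ i, s i < S) ∧ ∑ g, τ g = n ∧ gam a x P τ s ≠ 0 := by
    obtain ⟨τ, hτ⟩ := hne
    exact ⟨∑ g, τ g, τ, 0, fun i => hS, rfl, hτ⟩
  obtain ⟨τ, s, hs, hτ, hg⟩ := Nat.find_spec hex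
  refine ⟨Nat.find hex, τ, s, ?_, hs, hτ, hg, ?_⟩
  · by_contra hlt
    rw [not_le] at hlt
    apply hg
    refine hvan τ s (fun g => lt_of_le_of_lt ?_ hlt) hs
    rw [← hτ]
    exact Finset.single_le_sum (f := τ) (fun _ _ => Nat.zero_le _) (Finset.mem_univ g)
  · intro τ' s' hs' hlt
    by_contra hne'
    exact Nat.find_min hex hlt ⟨τ', s', hs', rfl, hne'⟩

end Bru95
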