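import Mathlib

/-! Row B20. The parameters: `N = 2 S^(2r)`, `T = N S`, `S` large (exponential beats polynomial:
`c^2 (2 c S^(2r))^c < 2^S` for large `S`, e.g. `tendsto_pow_const_div_const_pow_of_one_lt` ). -/

namespace Bru95

theorem params (c r : ℕ) (hr : 1 ≤ r) : ∃ N S T : ℕ, 1 ≤ N ∧ 1 ≤ S ∧ 1 ≤ T ∧
    2 * (S * T) ^ r ≤ N ^ (r + 1) ∧ N * S ≤ T ∧ c ^ 2 * (c * N) ^ c < 2 ^ S := by
  have h := tendsto_pow_const_div_const_pow_of_one_lt (2 * r * c) (r := (2 : ℝ)) (by norm_num)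
  have hK : (0 : ℝ) < 1 / ((c : ℝ) ^ 2 * (2 * c) ^ c + 1) := by positivity
  have h2 := (h.eventually (gt_mem_nhds hK)).and (Filter.eventually_ge_atTop 1)
  obtain ⟨S, hS, hS1⟩ := h2.exists
  refine ⟨2 * S ^ (2 * r), S, 2 * S ^ (2 * r) * S, ?_, hS1, ?_, ?_, le_rfl, ?_⟩
  · have : 0 < 2 * S ^ (2 * r) := by positivity
    omega
  · have : 0 < 2 * S ^ (2 * r) * S := by positivity
    omega
  · apply le_of_eq
    have e : S * (2 * S ^ (2 * r) * S) = (2 * S ^ (2 * r)) * S ^ 2 := by ring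
    rw [e, mul_pow, ← pow_mul, pow_succ (2 * S ^ (2 * r)) r]
    ring
  · have hc : (0 : ℝ) < (c : ℝ) ^ 2 * (2 * c) ^ c + 1 := by positivity
    have h2S : (0 : ℝ) < 2 ^ S := by positivity
    rw [div_lt_div_iff₀ h2S hc, one_mul] at hS
    have key : ((c ^ 2 * (c * (2 * S ^ (2 * r))) ^ c : ℕ) : ℝ) < ((2 ^ S : ℕ) : ℝ) := by
      push_cast
      have e : (c : ℝ) ^ 2 * (c * (2 * (S : ℝ) ^ (2 * r))) ^ c =
          (S : ℝ) ^ (2 * r * c) * ((c : ℝ) ^ 2 * (2 * c) ^ c) := by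
        rw [show (c : ℝ) * (2 * (S : ℝ) ^ (2 * r)) = (2 * c) * (S : ℝ) ^ (2 * r) by ring, mul_pow,
          ← pow_mul]
        ring
      rw [e]
      refine lt_of_le_of_lt ?_ hS
      have : (0 : ℝ) ≤ (S : ℝ) ^ (2 * r * c) := by positivity
      nlinarith
    exact_mod_cast key

end Bru95
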