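import Pool.Agent.LibBru95.RHouse

/-! Row B11. Siegel's lemma for the auxiliary function (`NumberField.house.exists_ne_zero_int_vec_house_le`).
Unknowns: `β = Fin (r+1) → Fin N` (`q = N^(r+1)`), equations: `α = (Fin r → Fin T) × (Fin r → Fin S)` (`p = T^r S^r`,
`2p ≤ q` by hypothesis), matrix entries `δ^(N S) ∏ A^τ ∏ X^s ∈ 𝓞 F` (from `coeff_bound`); each has house at most
`A = c^(N S) (c N)^(r T)` (`∑ τ_g ≤ r T`, `c N ≥ 1`).  The matrix is nonzero?  If it is zero every `P` works: take `P = 1`.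
Otherwise `exists_ne_zero_int_vec_house_le` with exponent `p/(q-p) ≤ 1` and base at least 1 (replace the private constant `c₁`
by `max 1 c₁`: the theorem gives, for each field, SOME bound of the form `c₁ (c₁ q A)^(p/(q-p))`; get hold of the constant by
`obtain`ing it from the statement, e.g. `have := @exists_ne_zero_int_vec_house_le F ...` and generalize `c₁ F`), so
`house (P l) ≤ C² N^(r+1) c^(N S) (c N)^(r T) ≤ c'^(N S) (c' N)^((2 r + 1) T)` as `N, S, T ≥ 1`. -/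

namespace Bru95

open NumberField

variable {F : Type*} [Field F] [NumberField F] {r : ℕ}

private theorem rSiegel_base : ∃ C : ℝ, ∀ (α β : Type) (_ : Fintype α) (_ : Fintype β) (a : Matrix α β (𝓞 F)),
    a ≠ 0 → ∀ p q : ℕ, 0 < p → p < q → Fintype.card β = q → ∀ A : ℝ,
    (∀ k l, house ((algebraMap (𝓞 F) F) (a k l)) ≤ A) → Fintype.card α = p →
    ∃ ξ : β → 𝓞 F, ξ ≠ 0 ∧ a.mulVec ξ = 0 ∧
      ∀ l, house (ξ l).1 ≤ C * ((C * q * A) ^ ((p : ℝ) / (q - p))) := by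
  classical
  exact ⟨_, fun α β _ _ a ha p q h0p hpq hβ A hA hα =>
    NumberField.house.exists_ne_zero_int_vec_house_le F a ha h0p hpq hβ hA hα⟩

private theorem rSiegel_rpow {C D : ℝ} (hD : 1 ≤ D) (hCD : |C| ≤ D) {p q : ℕ} (hq : 0 < p) (hpq : 2 * p ≤ q) {A : ℝ}
    (hA : 1 ≤ A) : C * ((C * q * A) ^ ((p : ℝ) / (q - p))) ≤ D * (D * q * A) := by
  have hp1 : (1 : ℝ) ≤ p := by exact_mod_cast hq
  have hpq' : (2 : ℝ) * p ≤ q := by exact_mod_cast hpq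
  have he0 : 0 ≤ (p : ℝ) / (q - p) := div_nonneg (by linarith) (by linarith)
  have he1 : (p : ℝ) / (q - p) ≤ 1 := by
    rw [div_le_one (by linarith)]
    linarith
  have h1 : |(C * q * A) ^ ((p : ℝ) / (q - p))| ≤ |C * q * A| ^ ((p : ℝ) / (q - p)) :=
    Real.abs_rpow_le_abs_rpow _ _
  have h2 : |C * q * A| ≤ D * q * A := by
    rw [abs_mul, abs_mul, abs_of_nonneg (by linarith : (0 : ℝ) ≤ q), abs_of_nonneg (by linarith : (0 : ℝ) ≤ A)]
    gcongr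
  have h3 : 1 ≤ D * q * A := by
    have hq1 : (1 : ℝ) ≤ q := by linarith
    calc (1 : ℝ) = 1 * 1 * 1 := by ring
      _ ≤ D * q * A := by gcongr
  have h4 : |C * q * A| ^ ((p : ℝ) / (q - p)) ≤ (D * q * A) ^ ((p : ℝ) / (q - p)) :=
    Real.rpow_le_rpow (abs_nonneg _) h2 he0
  have h5 : (D * q * A) ^ ((p : ℝ) / (q - p)) ≤ (D * q * A) ^ (1 : ℝ) :=
    Real.rpow_le_rpow_of_exponent_le h3 he1
  rw [Real.rpow_one] at h5
  calc C * ((C * q * A) ^ ((p : ℝ) / (q - p))) ≤ |C * ((C * q * A) ^ ((p : ℝ) / (q - p)))| := le_abs_self _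
    _ = |C| * |(C * q * A) ^ ((p : ℝ) / (q - p))| := abs_mul _ _
    _ ≤ D * (D * q * A) := by
      refine mul_le_mul hCD (h1.trans (h4.trans h5)) (abs_nonneg _) (by linarith)

/-- the estimate at the end -/
private theorem rSiegel_est {c D : ℝ} (hc : 1 ≤ c) (hD : 1 ≤ D) {N S T : ℕ} (hN : 1 ≤ N) (hS : 1 ≤ S) (hT : 1 ≤ T) :
    D * (D * (N ^ (r + 1) : ℕ) * (c ^ (N * S) * (c * N) ^ (r * T))) ≤
      (D ^ 2 * c) ^ (N * S) * ((D ^ 2 * c) * N) ^ ((2 * r + 1) * T) := by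
  have hN1 : (1 : ℝ) ≤ N := by exact_mod_cast hN
  have hD2 : 1 ≤ D ^ 2 := one_le_pow₀ hD
  have hcc : c ≤ D ^ 2 * c := by nlinarith
  have hc1 : 1 ≤ D ^ 2 * c := le_trans hc hcc
  have hNS : N * S ≠ 0 := Nat.mul_ne_zero (by omega) (by omega)
  have hcN : 1 ≤ (D ^ 2 * c) * N := by nlinarith
  have h1 : D * D * c ^ (N * S) ≤ (D ^ 2 * c) ^ (N * S) := by
    rw [mul_pow]
    have h2 : D * D ≤ (D ^ 2) ^ (N * S) := by
      rw [← sq]
      exact le_self_pow₀ hD2 hNS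
    gcongr
  have h3 : ((N ^ (r + 1) : ℕ) : ℝ) ≤ ((D ^ 2 * c) * N) ^ ((r + 1) * T) := by
    push_cast
    calc (N : ℝ) ^ (r + 1) ≤ ((D ^ 2 * c) * N) ^ (r + 1) := by
          gcongr
          nlinarith
      _ ≤ ((D ^ 2 * c) * N) ^ ((r + 1) * T) := pow_le_pow_right₀ hcN (Nat.le_mul_of_pos_right _ (by omega))
  have h4 : (c * N) ^ (r * T) ≤ ((D ^ 2 * c) * N) ^ (r * T) := by gcongr
  calc D * (D * (N ^ (r + 1) : ℕ) * (c ^ (N * S) * (c * N) ^ (r * T)))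
      = (D * D * c ^ (N * S)) * (((N ^ (r + 1) : ℕ) : ℝ) * (c * N) ^ (r * T)) := by ring
    _ ≤ (D ^ 2 * c) ^ (N * S) * (((D ^ 2 * c) * N) ^ ((r + 1) * T) * ((D ^ 2 * c) * N) ^ (r * T)) := by
        gcongr
    _ = (D ^ 2 * c) ^ (N * S) * ((D ^ 2 * c) * N) ^ ((2 * r + 1) * T) := by
        rw [← pow_add]
        congr 2
        ring

theorem siegel (hr : 0 < r) (a : Fin r → Fin (r + 1) → 𝓞 F) (x : Fin r → Fin (r + 1) → F) :
    ∃ c : ℝ, 1 ≤ c ∧ ∀ N S T : ℕ, 1 ≤ N → 1 ≤ S → 1 ≤ T → 2 * (S * T) ^ r ≤ N ^ (r + 1) →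
      ∃ P : (Fin (r + 1) → Fin N) → 𝓞 F, P ≠ 0 ∧
        (∀ τ s : Fin r → ℕ, (∀ g, τ g < T) → (∀ i, s i < S) → gam a x P τ s = 0) ∧
        ∀ l, house (P l : F) ≤ c ^ (N * S) * (c * N) ^ ((2 * r + 1) * T) := by
  obtain ⟨c, δ, hc, hδ, hcb⟩ := coeff_bound a x
  obtain ⟨C, hC⟩ := rSiegel_base (F := F)
  obtain ⟨D, hD⟩ : ∃ D : ℝ, D = max 1 |C| := ⟨_, rfl⟩
  have hD1 : 1 ≤ D := by
    rw [hD]
    exact le_max_left _ _
  have hCD : |C| ≤ D := by
    rw [hD]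
    exact le_max_right _ _
  refine ⟨D ^ 2 * c, one_le_mul_of_one_le_of_one_le (one_le_pow₀ hD1) hc, ?_⟩
  intro N S T hN hS hT hcard
  have hδ0 : (δ : F) ^ (N * S) ≠ 0 := pow_ne_zero _ (by exact_mod_cast (by omega : δ ≠ 0))
  have hent : ∀ (k : (Fin r → Fin T) × (Fin r → Fin S)) (l : Fin (r + 1) → Fin N), ∃ y : 𝓞 F, algebraMap (𝓞 F) F y =
      (δ : F) ^ (N * S) * ((∏ g, Aev a l g ^ (k.1 g : ℕ)) * ∏ i, Xev x l i ^ (k.2 i : ℕ)) := by
    intro k l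
    have h1 := (hcb N S l (fun g => (k.1 g : ℕ)) (fun i => (k.2 i : ℕ)) fun i => (k.2 i).2).1
    exact ⟨⟨_, h1⟩, rfl⟩
  choose f hf using hent
  obtain ⟨a', ha'⟩ : ∃ a' : Matrix ((Fin r → Fin T) × (Fin r → Fin S)) (Fin (r + 1) → Fin N) (𝓞 F),
      a' = Matrix.of f := ⟨_, rfl⟩
  have hcoe : ∀ k l, algebraMap (𝓞 F) F (a' k l) =
      (δ : F) ^ (N * S) * ((∏ g, Aev a l g ^ (k.1 g : ℕ)) * ∏ i, Xev x l i ^ (k.2 i : ℕ)) := by
    intro k l
    rw [ha']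
    exact hf k l
  -- a vector of the kernel is a solution
  have hsol : ∀ P : (Fin (r + 1) → Fin N) → 𝓞 F, a'.mulVec P = 0 →
      ∀ τ s : Fin r → ℕ, (∀ g, τ g < T) → (∀ i, s i < S) → gam a x P τ s = 0 := by
    intro P hP τ s hτ hs
    have h1 := congrFun hP (fun g => ⟨τ g, hτ g⟩, fun i => ⟨s i, hs i⟩)
    have h2 : algebraMap (𝓞 F) F (a'.mulVec P (fun g => ⟨τ g, hτ g⟩, fun i => ⟨s i, hs i⟩)) =
        (δ : F) ^ (N * S) * gam a x P τ s := by
      have e1 : a'.mulVec P (fun g => ⟨τ g, hτ g⟩, fun i => ⟨s i, hs i⟩) =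
          ∑ l, a' (fun g => ⟨τ g, hτ g⟩, fun i => ⟨s i, hs i⟩) l * P l := rfl
      unfold gam
      rw [e1, Finset.mul_sum, map_sum]
      refine Finset.sum_congr rfl fun l _ => ?_
      rw [map_mul, hcoe]
      ring
    rw [h1] at h2
    have h3 : (δ : F) ^ (N * S) * gam a x P τ s = 0 := by
      rw [← h2]
      exact map_zero _
    exact (mul_eq_zero.1 h3).resolve_left hδ0
  have hN1 : (1 : ℝ) ≤ N := by exact_mod_cast hN
  have hcN : 1 ≤ c * N := one_le_mul_of_one_le_of_one_le hc hN1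
  by_cases h0 : a' = 0
  · have hDc : 1 ≤ D ^ 2 * c := one_le_mul_of_one_le_of_one_le (one_le_pow₀ hD1) hc
    refine ⟨fun _ => 1, ?_, hsol _ (by rw [h0, Matrix.zero_mulVec]), fun l => ?_⟩
    · intro h1
      have h2 := congrFun h1 fun _ => ⟨0, by omega⟩
      exact one_ne_zero h2
    · have h1 : house (((1 : 𝓞 F) : 𝓞 F) : F) = 1 := by
        have h2 := house_intCast (K := F) 1
        simpa using h2
      rw [h1]
      exact one_le_mul_of_one_le_of_one_le (one_le_pow₀ hDc)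
        (one_le_pow₀ (one_le_mul_of_one_le_of_one_le hDc hN1))
  · have hA : ∀ k l, house ((algebraMap (𝓞 F) F) (a' k l)) ≤ c ^ (N * S) * (c * N) ^ (r * T) := by
      intro k l
      have h1 := (hcb N S l (fun g => (k.1 g : ℕ)) (fun i => (k.2 i : ℕ)) fun i => (k.2 i).2).2
      have h2 : house ((algebraMap (𝓞 F) F) (a' k l)) =
          house ((δ : F) ^ (N * S) * ((∏ g, Aev a l g ^ (k.1 g : ℕ)) * ∏ i, Xev x l i ^ (k.2 i : ℕ))) := by
        rw [← hcoe k l]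
      rw [h2]
      refine h1.trans ?_
      have h3 : ∑ g, (k.1 g : ℕ) ≤ r * T := by
        calc ∑ g, (k.1 g : ℕ) ≤ ∑ _g : Fin r, T := Finset.sum_le_sum fun g _ => (k.1 g).2.le
          _ = r * T := by simp
      gcongr
    have hcα : Fintype.card ((Fin r → Fin T) × (Fin r → Fin S)) = (S * T) ^ r := by
      rw [Fintype.card_prod, Fintype.card_fun, Fintype.card_fun, Fintype.card_fin, Fintype.card_fin,
        Fintype.card_fin, mul_pow, mul_comm]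
    have hcβ : Fintype.card (Fin (r + 1) → Fin N) = N ^ (r + 1) := by
      rw [Fintype.card_fun, Fintype.card_fin, Fintype.card_fin]
    have hpos : 0 < (S * T) ^ r := pow_pos (Nat.mul_pos (by omega) (by omega)) _
    obtain ⟨P, hP0, hP1, hP2⟩ := hC _ _ inferInstance inferInstance a' h0 ((S * T) ^ r) (N ^ (r + 1)) hpos
      (by omega) hcβ _ hA hcα
    refine ⟨P, hP0, hsol P hP1, fun l => ?_⟩
    refine (hP2 l).trans ?_
    refine (rSiegel_rpow hD1 hCD hpos hcard ?_).trans ?_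
    · exact one_le_mul_of_one_le_of_one_le (one_le_pow₀ hc) (one_le_pow₀ hcN)
    · exact rSiegel_est hc hD1 hN hS hT

end Bru95
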