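import Pool.Agent.LibBru95.Defs

/-! Row B12. Not all derivatives vanish: the numbers `A(l, g₀)`, `l ∈ Fin (r+1) → Fin N`, are distinct (by `hind` applied to
`l_j - l'_j`), so if `∑_l P_l A(l,g₀)^m = 0` for all `m` then `P = 0` (`Matrix.eq_zero_of_forall_index_sum_pow_mul_eq_zero`,
transport `Fin (r+1) → Fin N` to `Fin (card)`). -/

namespace Bru95

open NumberField

variable {F : Type*} [Field F] [NumberField F] {r : ℕ}

private theorem RVand_inj (hr : 0 < r) (a : Fin r → Fin (r + 1) → 𝓞 F)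
    (hind : ∀ m : Fin (r + 1) → ℤ, (∑ j, (m j : F) * (a ⟨0, hr⟩ j : F)) = 0 → m = 0) {N : ℕ} :
    Function.Injective fun l : Fin (r + 1) → Fin N => Aev a l ⟨0, hr⟩ := by
  intro l l' h
  have h0 : (∑ j, ((l j : ℕ) : F) * (a ⟨0, hr⟩ j : F)) = ∑ j, ((l' j : ℕ) : F) * (a ⟨0, hr⟩ j : F) := h
  have h1 := hind (fun j => ((l j : ℕ) : ℤ) - ((l' j : ℕ) : ℤ)) (by
    simp only [Int.cast_sub, Int.cast_natCast, sub_mul, Finset.sum_sub_distrib]
    rw [h0, sub_self])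
  funext j
  have h2 : ((l j : ℕ) : ℤ) - ((l' j : ℕ) : ℤ) = 0 := congrFun h1 j
  exact Fin.ext (by omega)

private theorem RVand_gam (hr : 0 < r) (a : Fin r → Fin (r + 1) → 𝓞 F)
    (x : Fin r → Fin (r + 1) → F) {N : ℕ} (P : (Fin (r + 1) → Fin N) → 𝓞 F) (m : ℕ) :
    gam a x P (Pi.single (⟨0, hr⟩ : Fin r) m) 0 = ∑ l, (P l : F) * Aev a l ⟨0, hr⟩ ^ m := by
  unfold gam
  refine Finset.sum_congr rfl fun l _ => ?_
  have h1 : (∏ i, Xev x l i ^ ((0 : Fin r → ℕ) i)) = 1 :=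
    Finset.prod_eq_one fun i _ => by rw [Pi.zero_apply, pow_zero]
  have h2 : (∏ g, Aev a l g ^ ((Pi.single (⟨0, hr⟩ : Fin r) m : Fin r → ℕ) g)) =
      Aev a l ⟨0, hr⟩ ^ m := by
    rw [Finset.prod_eq_single (⟨0, hr⟩ : Fin r)]
    · rw [Pi.single_eq_same]
    · intro g _ hg
      rw [Pi.single_eq_of_ne hg, pow_zero]
    · intro h
      exact absurd (Finset.mem_univ _) h
  rw [h1, h2, mul_one]

theorem vand (hr : 0 < r) (a : Fin r → Fin (r + 1) → 𝓞 F) (x : Fin r → Fin (r + 1) → F)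
    (hind : ∀ m : Fin (r + 1) → ℤ, (∑ j, (m j : F) * (a ⟨0, hr⟩ j : F)) = 0 → m = 0) {N : ℕ}
    (P : (Fin (r + 1) → Fin N) → 𝓞 F) (hP : P ≠ 0) :
    ∃ m : ℕ, gam a x P (Pi.single (⟨0, hr⟩ : Fin r) m) 0 ≠ 0 := by
  by_contra hcon
  push Not at hcon
  apply hP
  let e := Fintype.equivFin (Fin (r + 1) → Fin N)
  have h1 := Matrix.eq_zero_of_forall_pow_sum_mul_pow_eq_zero
    (f := fun j => Aev a (e.symm j) ⟨0, hr⟩) (v := fun j => ((P (e.symm j) : 𝓞 F) : F))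
    ((RVand_inj hr a hind).comp e.symm.injective) (by
      intro i
      have h2 := hcon i
      rw [RVand_gam] at h2
      rw [← h2]
      exact e.symm.sum_comp fun l => (P l : F) * Aev a l ⟨0, hr⟩ ^ (i : ℕ))
  funext l
  have h2 := congrFun h1 (e l)
  simp only [Equiv.symm_apply_apply, Pi.zero_apply] at h2
  exact RingOfIntegers.ext h2

end Bru95
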