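import Pool.Agent.LibBru95.RUpper
import Pool.Agent.LibBru95.RSiegel
import Pool.Agent.LibBru95.RVand
import Pool.Agent.LibBru95.RMin
import Pool.Agent.LibBru95.RGamH
import Pool.Agent.LibBru95.RLiou
import Pool.Agent.LibBru95.RParam

/-! Row B21. The contradiction. Let `c ≥ 1` be a common constant for `siegel`, `gam_house` and `upper` (replace `c` by a max;
all three statements are monotone in `c`), `d = [F:ℚ]`. Choose a natural number `c' ≥ C (c^2)^(dr) + c + (3r+3) d r + 1` (say)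
with `C (c^2 (c N)^(3r+3))^(dr) ≤ c'^2 (c' N)^c'` for all `N ≥ 1`, and `N, S, T` from `params c' r`. Take `P` from `siegel`,
`m` from `vand`, `T₁, τ, s` from `exists_min_order`; `ξ = δ^(N S) gam P τ s` is integral and nonzero,
`house ξ ≤ N^(r+1) c^(NS) (c N)^((2r+1)T) c^(NS) (c N)^T₁ ≤ (c^2 (c N)^(3r+3))^T₁` (`N S ≤ T ≤ T₁`, `1 ≤ T₁`),
`liouville`: `1 ≤ ‖σ ξ‖ house^d ≤ ‖σ gam‖ house^d` (`‖δ‖ ≤ 1`); power `r` and `upper`: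
`p^(S T₁) ≤ (C (c^2 (cN)^(3r+3))^(dr))^T₁`, so `2^S ≤ p^S ≤ c'^2 (c' N)^c' < 2^S`. -/

namespace Bru95

open NumberField

variable {p : ℕ} [Fact p.Prime] {E : Type*} [NormedField E] [NormedAlgebra ℚ_[p] E]
  [IsUltrametricDist E] [CompleteSpace E] [CharZero E]
  {F : Type*} [Field F] [NumberField F] {r : ℕ}

private theorem RFalse_house (c : ℝ) (hc : 1 ≤ c) (N S T T₁ r : ℕ) (hN : 1 ≤ N) (hNS : N * S ≤ T)
    (hT : 1 ≤ T) (hT₁ : T ≤ T₁) :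
    (N : ℝ) ^ (r + 1) * ((c ^ (N * S) * (c * N) ^ ((2 * r + 1) * T)) *
      (c ^ (N * S) * (c * N) ^ T₁)) ≤ (c ^ 2 * (c * N) ^ (3 * r + 3)) ^ T₁ := by
  have hN' : (1 : ℝ) ≤ N := by exact_mod_cast hN
  have hcN : 1 ≤ c * N := by nlinarith
  have hN0 : (N : ℝ) ≤ c * N := by nlinarith
  have h1 : (N : ℝ) ^ (r + 1) ≤ (c * N) ^ ((r + 1) * T₁) := by
    refine (pow_le_pow_left₀ (by linarith) hN0 _).trans (pow_le_pow_right₀ hcN ?_)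
    have : 1 ≤ T₁ := by omega
    nlinarith
  have h2 : c ^ (N * S) ≤ c ^ T₁ := pow_le_pow_right₀ hc (by omega)
  have h3 : (c * N) ^ ((2 * r + 1) * T) ≤ (c * N) ^ ((2 * r + 1) * T₁) :=
    pow_le_pow_right₀ hcN (Nat.mul_le_mul_left _ hT₁)
  calc (N : ℝ) ^ (r + 1) * ((c ^ (N * S) * (c * N) ^ ((2 * r + 1) * T)) *
      (c ^ (N * S) * (c * N) ^ T₁))
      ≤ (c * N) ^ ((r + 1) * T₁) * ((c ^ T₁ * (c * N) ^ ((2 * r + 1) * T₁)) *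
      (c ^ T₁ * (c * N) ^ T₁)) := by gcongr
    _ = _ := by
        rw [mul_pow (c ^ 2) _ T₁, ← pow_mul c, ← pow_mul (c * (N : ℝ))]
        have e1 : (3 * r + 3) * T₁ = (r + 1) * T₁ + (2 * r + 1) * T₁ + T₁ := by ring
        have e2 : 2 * T₁ = T₁ + T₁ := by ring
        rw [e1, e2, pow_add, pow_add, pow_add]
        ring

private theorem RFalse_const (c C : ℝ) (hc : 1 ≤ c) (hC : 1 ≤ C) (r d : ℕ) : ∃ c' : ℕ, ∀ N : ℕ,
    1 ≤ N → C * (c ^ 2 * (c * N) ^ (3 * r + 3)) ^ (d * r) ≤ (c' : ℝ) ^ 2 * (c' * N) ^ c' := by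
  obtain ⟨c₀, hc₀⟩ := exists_nat_ge c
  obtain ⟨C₀, hC₀⟩ := exists_nat_ge C
  have hc₀1 : (1 : ℝ) ≤ c₀ := hc.trans hc₀
  have hC₀1 : (1 : ℝ) ≤ C₀ := hC.trans hC₀
  refine ⟨C₀ * c₀ ^ (2 * (d * r)) + c₀ + (3 * r + 3) * (d * r), ?_⟩
  intro N hN
  obtain ⟨c', hc'⟩ : ∃ c' : ℕ, c' = C₀ * c₀ ^ (2 * (d * r)) + c₀ + (3 * r + 3) * (d * r) := ⟨_, rfl⟩
  rw [← hc']
  have hN' : (1 : ℝ) ≤ N := by exact_mod_cast hN
  have e1 : (C₀ : ℝ) * (c₀ : ℝ) ^ (2 * (d * r)) ≤ c' := by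
    rw [hc']
    push_cast
    have : (0 : ℝ) ≤ (3 * (r : ℝ) + 3) * (d * r) := by positivity
    linarith
  have e2 : (c₀ : ℝ) ≤ c' := by
    rw [hc']
    push_cast
    have : (0 : ℝ) ≤ (3 * (r : ℝ) + 3) * (d * r) := by positivity
    have : (0 : ℝ) ≤ (C₀ : ℝ) * (c₀ : ℝ) ^ (2 * (d * r)) := by positivity
    linarith
  have e3 : (3 * r + 3) * (d * r) ≤ c' := by
    rw [hc']
    exact Nat.le_add_left _ _
  have e4 : (1 : ℝ) ≤ c' := hc₀1.trans e2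
  have e5 : (1 : ℝ) ≤ c' * N := one_le_mul_of_one_le_of_one_le e4 hN'
  calc C * (c ^ 2 * (c * N) ^ (3 * r + 3)) ^ (d * r)
      ≤ C₀ * ((c₀ : ℝ) ^ 2 * (c₀ * N) ^ (3 * r + 3)) ^ (d * r) := by gcongr
    _ = (C₀ * (c₀ : ℝ) ^ (2 * (d * r))) * (c₀ * N) ^ ((3 * r + 3) * (d * r)) := by
        rw [mul_pow, ← pow_mul, ← pow_mul]
        ring
    _ ≤ c' * (c' * N) ^ ((3 * r + 3) * (d * r)) := by gcongr
    _ ≤ (c' : ℝ) ^ 2 * (c' * N) ^ c' := by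
        have e6 : (c' : ℝ) ≤ (c' : ℝ) ^ 2 := by nlinarith
        have e7 : ((c' : ℝ) * N) ^ ((3 * r + 3) * (d * r)) ≤ (c' * N) ^ c' :=
          pow_le_pow_right₀ e5 e3
        gcongr

theorem SL.false (D : SL p E F r) : False := by
  obtain ⟨c₁, hc₁, hsieg⟩ := siegel D.hr D.a D.x
  obtain ⟨c₂, δ, hc₂, hδ, hgam⟩ := gam_house D.a D.x
  obtain ⟨C, hC, hup⟩ := upper D
  obtain ⟨c, hcdef⟩ : ∃ c : ℝ, c = max c₁ c₂ := ⟨_, rfl⟩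
  have hc1 : c₁ ≤ c := by rw [hcdef]; exact le_max_left _ _
  have hc2 : c₂ ≤ c := by rw [hcdef]; exact le_max_right _ _
  have hc : 1 ≤ c := hc₁.trans hc1
  obtain ⟨d, hd⟩ : ∃ d : ℕ, d = Module.finrank ℚ F := ⟨_, rfl⟩
  obtain ⟨c', hc'⟩ := RFalse_const c C hc hC r d
  obtain ⟨N, S, T, hN, hS, hT, h1, hNS, hlt⟩ := params c' r D.hr
  obtain ⟨P, hP, hvan, hH⟩ := hsieg N S T hN hS hT h1
  obtain ⟨m, hm⟩ := vand D.hr D.a D.x D.indep P hP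
  obtain ⟨T₁, τ, s, hT₁, hs, hτ, hne, hmin⟩ := exists_min_order D.a D.x P S T hS hvan ⟨_, hm⟩
  have hT₁1 : 1 ≤ T₁ := hT.trans hT₁
  have hU := hup N P S T₁ hmin τ s hs hτ
  have hN' : (1 : ℝ) ≤ N := by exact_mod_cast hN
  have hH' : ∀ l, house (P l : F) ≤ c ^ (N * S) * (c * N) ^ ((2 * r + 1) * T) := by
    intro l
    refine (hH l).trans ?_
    gcongr
  obtain ⟨hint, hhouse⟩ := hgam N S P _ τ s hH' hs
  rw [hτ] at hhouse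
  obtain ⟨ξ, hξ⟩ : ∃ ξ : F, ξ = (δ : F) ^ (N * S) * gam D.a D.x P τ s := ⟨_, rfl⟩
  rw [← hξ] at hint hhouse
  have hδF : (δ : F) ≠ 0 := by
    have : δ ≠ 0 := by omega
    exact_mod_cast this
  have hξ0 : ξ ≠ 0 := by
    rw [hξ]
    exact mul_ne_zero (pow_ne_zero _ hδF) hne
  obtain ⟨b, hb⟩ : ∃ b : ℝ, b = c ^ 2 * (c * N) ^ (3 * r + 3) := ⟨_, rfl⟩
  have hb0 : 0 ≤ b := by rw [hb]; positivity
  have hhb : house ξ ≤ b ^ T₁ := by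
    refine hhouse.trans ?_
    rw [hb]
    refine le_trans ?_ (RFalse_house c hc N S T T₁ r hN hNS hT hT₁)
    gcongr
  have hL := liouville p D.σ hint hξ0
  obtain ⟨g, hg⟩ : ∃ g : ℝ, g = ‖D.σ (gam D.a D.x P τ s)‖ := ⟨_, rfl⟩
  have hg0 : 0 ≤ g := by rw [hg]; exact norm_nonneg _
  have hσ : ‖D.σ ξ‖ ≤ g := by
    rw [hξ, map_mul, norm_mul, map_pow, norm_pow, map_natCast, ← hg]
    have h2 : ‖(δ : E)‖ ≤ 1 := IsUltrametricDist.norm_natCast_le_one E δ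
    calc ‖(δ : E)‖ ^ (N * S) * g ≤ 1 * g := by
          gcongr
          exact pow_le_one₀ (norm_nonneg _) h2
      _ = g := one_mul g
  have hhn : 0 ≤ house ξ := house_nonneg ξ
  rw [← hd] at hL
  have h3 : 1 ≤ g * (b ^ T₁) ^ d := hL.trans (by gcongr)
  have h4 : 1 ≤ (g * (b ^ T₁) ^ d) ^ r := one_le_pow₀ h3
  rw [← hg] at hU
  have hp0 : (0 : ℝ) ≤ (p : ℝ) ^ (S * T₁) := by positivity
  have h5 : ((p : ℝ) ^ S) ^ T₁ ≤ (C * b ^ (d * r)) ^ T₁ := by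
    calc ((p : ℝ) ^ S) ^ T₁ = (p : ℝ) ^ (S * T₁) * 1 := by rw [← pow_mul, mul_one]
      _ ≤ (p : ℝ) ^ (S * T₁) * (g * (b ^ T₁) ^ d) ^ r := by gcongr
      _ = (g ^ r * (p : ℝ) ^ (S * T₁)) * (b ^ (d * r)) ^ T₁ := by
          rw [mul_pow, ← pow_mul, ← pow_mul, ← pow_mul]
          ring
      _ ≤ C ^ T₁ * (b ^ (d * r)) ^ T₁ := by gcongr
      _ = _ := (mul_pow _ _ _).symm
  have hbdr : 0 ≤ C * b ^ (d * r) := by positivity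
  have h6 : (p : ℝ) ^ S ≤ C * b ^ (d * r) :=
    (pow_le_pow_iff_left₀ (by positivity) hbdr (by omega)).1 h5
  have h7 := hc' N hN
  rw [← hb] at h7
  have h8 : (2 : ℝ) ^ S ≤ (p : ℝ) ^ S := by
    have h9 : (2 : ℝ) ≤ p := by exact_mod_cast (Fact.out : p.Prime).two_le
    gcongr
  have h10 : ((c' : ℝ)) ^ 2 * (c' * N) ^ c' < 2 ^ S := by exact_mod_cast hlt
  linarith

end Bru95
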