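import Pool.Agent.LibBru95.Defs

/-! Row B10. Denominators and houses of the coefficients `∏_g A(l,g)^(τ_g) ∏_i X(l,i)^(s_i)`.
Plan: choose `δ₀ ≥ 1` with `δ₀ x_ij` integral for all `i, j` (`IsLocalization`/`exists_integer_multiple`), `δ = δ₀^(r(r+1))`.
`∏_i X(l,i)^(s_i) = ∏_i ∏_j x_ij^(l_j s_i)` and `∑_{i,j} l_j s_i ≤ r (r+1) N S`, so `δ^(N S) ∏ ...` is a natural number power of
`δ₀` times products of the `δ₀ x_ij`.  House: `house A(l,g) ≤ (r+1) N max house(a_gj)`, `house (δ₀ x_ij) ≤ c₁` and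
`δ₀ ≤ c₁`, so the house is at most `c₁^(r(r+1) N S) (c₂ N)^(∑ τ)` (house of 1 is 1; use `house_mul_le`, `house_pow_le`;
products over a `Finset.univ`: prove `house (∏ i, f i) ≤ ∏ i, house (f i)` by induction). -/

namespace Bru95

open NumberField

variable {F : Type*} [Field F] [NumberField F] {r : ℕ}

/-! ### Auxiliary lemmas -/

private lemma RHouse_mult {ι : Type*} [Fintype ι] (f : ι → F) :
    ∃ δ : ℕ, 1 ≤ δ ∧ ∀ i, IsIntegral ℤ ((δ : F) * f i) := by
  classical
  have h1 : ∀ i, ∃ y : ℤ, y ≠ 0 ∧ IsIntegral ℤ (y • f i) := by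
    intro i
    have h2 : IsAlgebraic ℤ (f i) :=
      (IsFractionRing.isAlgebraic_iff ℤ ℚ F).2 (Algebra.IsAlgebraic.isAlgebraic (f i))
    exact h2.exists_integral_multiple
  choose y hy0 hy using h1
  refine ⟨∏ i, (y i).natAbs, ?_, ?_⟩
  · exact Finset.one_le_prod' (fun i _ => Nat.one_le_iff_ne_zero.2 (Int.natAbs_ne_zero.2 (hy0 i)))
  · intro i
    obtain ⟨m, hm⟩ := Finset.dvd_prod_of_mem (fun i => (y i).natAbs) (Finset.mem_univ i)
    have h3 : IsIntegral ℤ (((y i).natAbs : F) * f i) := by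
      rcases Int.natAbs_eq (y i) with h | h
      · have h4 := hy i
        rw [h, zsmul_eq_mul] at h4
        simpa using h4
      · have h4 := (hy i).neg
        rw [h, zsmul_eq_mul] at h4
        simpa using h4
    rw [hm]
    push_cast
    have h5 : ((y i).natAbs : F) * (m : F) * f i = (m : F) * (((y i).natAbs : F) * f i) := by ring
    rw [h5]
    exact IsIntegral.mul (isIntegral_algebraMap (R := ℤ) (x := (m : ℤ)) |> fun h => by simpa using h)
      h3

private lemma RHouse_one_le : house (1 : F) ≤ 1 := by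
  have := house_intCast (K := F) 1
  simp at this
  simp [this]

private lemma RHouse_prod_le {ι : Type*} (s : Finset ι) (f : ι → F) :
    house (∏ i ∈ s, f i) ≤ ∏ i ∈ s, house (f i) := by
  classical
  induction s using Finset.induction_on with
  | empty => simpa using RHouse_one_le
  | insert a s ha ih =>
    rw [Finset.prod_insert ha, Finset.prod_insert ha]
    exact (house_mul_le _ _).trans (mul_le_mul_of_nonneg_left ih (house_nonneg _))

private lemma RHouse_nat (n : ℕ) : house (n : F) = n := by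
  have := house_intCast (K := F) n
  simpa using this

omit [NumberField F] in
private lemma RHouse_int_nat (n : ℕ) : IsIntegral ℤ (n : F) := by
  have := isIntegral_algebraMap (R := ℤ) (A := F) (x := (n : ℤ))
  simpa using this

private lemma RHouse_factor {δ : ℕ} {c : ℝ} (hδ : (δ : ℝ) ≤ c) (hc : 1 ≤ c) {x : F}
    (hx : IsIntegral ℤ ((δ : F) * x)) (hxc : house ((δ : F) * x) ≤ c) {e M : ℕ} (he : e ≤ M) :
    IsIntegral ℤ ((δ : F) ^ M * x ^ e) ∧ house ((δ : F) ^ M * x ^ e) ≤ c ^ M := by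
  have h1 : (δ : F) ^ M * x ^ e = (δ : F) ^ (M - e) * ((δ : F) * x) ^ e := by
    rw [mul_pow, ← mul_assoc, ← pow_add, Nat.sub_add_cancel he]
  rw [h1]
  refine ⟨((RHouse_int_nat δ).pow _).mul (hx.pow _), ?_⟩
  have hc0 : (0 : ℝ) ≤ c := by linarith
  calc house ((δ : F) ^ (M - e) * ((δ : F) * x) ^ e)
      ≤ house ((δ : F) ^ (M - e)) * house (((δ : F) * x) ^ e) := house_mul_le _ _
    _ ≤ c ^ (M - e) * c ^ e := by
        refine mul_le_mul ?_ ?_ (house_nonneg _) (pow_nonneg hc0 _)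
        · refine (house_pow_le _ _).trans ?_
          exact pow_le_pow_left₀ (house_nonneg _) (by rw [RHouse_nat]; exact hδ) _
        · refine (house_pow_le _ _).trans ?_
          exact pow_le_pow_left₀ (house_nonneg _) hxc _
    _ = c ^ M := by rw [← pow_add, Nat.sub_add_cancel he]

omit [NumberField F] in
private lemma RHouse_prod_int {ι : Type*} (s : Finset ι) (f : ι → F)
    (h : ∀ i ∈ s, IsIntegral ℤ (f i)) : IsIntegral ℤ (∏ i ∈ s, f i) :=
  IsIntegral.prod f h

theorem coeff_bound (a : Fin r → Fin (r + 1) → 𝓞 F) (x : Fin r → Fin (r + 1) → F) :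
    ∃ (c : ℝ) (δ : ℕ), 1 ≤ c ∧ 1 ≤ δ ∧ ∀ (N S : ℕ) (l : Fin (r + 1) → Fin N) (τ s : Fin r → ℕ),
      (∀ i, s i < S) →
        IsIntegral ℤ ((δ : F) ^ (N * S) * ((∏ g, Aev a l g ^ τ g) * ∏ i, Xev x l i ^ s i)) ∧
        house ((δ : F) ^ (N * S) * ((∏ g, Aev a l g ^ τ g) * ∏ i, Xev x l i ^ s i)) ≤
          c ^ (N * S) * (c * N) ^ (∑ g, τ g) := by
  classical
  obtain ⟨δ, hδ1, hδ⟩ := RHouse_mult (F := F) (fun q : Fin r × Fin (r + 1) => x q.1 q.2)
  set c₁ : ℝ := 1 + δ + ∑ q : Fin r × Fin (r + 1), house ((δ : F) * x q.1 q.2) with hc₁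
  have hsum0 : 0 ≤ ∑ q : Fin r × Fin (r + 1), house ((δ : F) * x q.1 q.2) :=
    Finset.sum_nonneg (fun q _ => house_nonneg _)
  have hδ0 : (0 : ℝ) ≤ δ := Nat.cast_nonneg δ
  have hc₁1 : 1 ≤ c₁ := by rw [hc₁]; linarith
  have hδc : (δ : ℝ) ≤ c₁ := by rw [hc₁]; linarith
  have hxc : ∀ i j, house ((δ : F) * x i j) ≤ c₁ := by
    intro i j
    have := Finset.single_le_sum (f := fun q : Fin r × Fin (r + 1) => house ((δ : F) * x q.1 q.2))
      (fun q _ => house_nonneg _) (Finset.mem_univ (i, j))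
    simp only at this
    rw [hc₁]
    linarith
  set H : ℝ := ∑ q : Fin r × Fin (r + 1), house ((a q.1 q.2 : 𝓞 F) : F) with hH
  have hH0 : 0 ≤ H := Finset.sum_nonneg (fun q _ => house_nonneg _)
  have haH : ∀ g j, house ((a g j : 𝓞 F) : F) ≤ H := fun g j =>
    Finset.single_le_sum (f := fun q : Fin r × Fin (r + 1) => house ((a q.1 q.2 : 𝓞 F) : F))
      (fun q _ => house_nonneg _) (Finset.mem_univ (g, j))
  set C₁ : ℝ := c₁ ^ (r * (r + 1)) with hC₁
  set C₂ : ℝ := (r + 1) * H with hC₂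
  have hC₁1 : 1 ≤ C₁ := one_le_pow₀ hc₁1
  have hC₂0 : 0 ≤ C₂ := by rw [hC₂]; positivity
  refine ⟨C₁ + C₂, δ ^ (r * (r + 1)), by linarith, Nat.one_le_pow _ _ hδ1, ?_⟩
  intro N S l τ s hs
  -- the part of the points
  have hpts : (((δ ^ (r * (r + 1)) : ℕ) : F)) ^ (N * S) * ∏ i, Xev x l i ^ s i =
      ∏ i, ∏ j, ((δ : F) ^ (N * S) * x i j ^ ((l j : ℕ) * s i)) := by
    have e1 : (((δ ^ (r * (r + 1)) : ℕ) : F)) ^ (N * S) =
        ∏ _i : Fin r, ∏ _j : Fin (r + 1), (δ : F) ^ (N * S) := by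
      simp only [Finset.prod_const, Finset.card_univ, Fintype.card_fin]
      push_cast
      rw [← pow_mul, ← pow_mul, ← pow_mul]
      congr 1
      ring
    have e2 : ∏ i, Xev x l i ^ s i = ∏ i, ∏ j, x i j ^ ((l j : ℕ) * s i) := by
      refine Finset.prod_congr rfl (fun i _ => ?_)
      unfold Xev
      rw [← Finset.prod_pow]
      refine Finset.prod_congr rfl (fun j _ => ?_)
      rw [pow_mul]
    rw [e1, e2, ← Finset.prod_mul_distrib]
    refine Finset.prod_congr rfl (fun i _ => ?_)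
    rw [← Finset.prod_mul_distrib]
  have hfac : ∀ i j, IsIntegral ℤ ((δ : F) ^ (N * S) * x i j ^ ((l j : ℕ) * s i)) ∧
      house ((δ : F) ^ (N * S) * x i j ^ ((l j : ℕ) * s i)) ≤ c₁ ^ (N * S) := by
    intro i j
    exact RHouse_factor hδc hc₁1 (hδ (i, j)) (hxc i j)
      (Nat.mul_le_mul (l j).2.le (hs i).le)
  have hc₁0 : (0 : ℝ) ≤ c₁ := by linarith
  have hPint : IsIntegral ℤ ((((δ ^ (r * (r + 1)) : ℕ) : F)) ^ (N * S) * ∏ i, Xev x l i ^ s i) := by
    rw [hpts]
    exact RHouse_prod_int _ _ (fun i _ => RHouse_prod_int _ _ (fun j _ => (hfac i j).1))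
  have hPhouse : house ((((δ ^ (r * (r + 1)) : ℕ) : F)) ^ (N * S) * ∏ i, Xev x l i ^ s i) ≤
      C₁ ^ (N * S) := by
    rw [hpts]
    calc house (∏ i, ∏ j, ((δ : F) ^ (N * S) * x i j ^ ((l j : ℕ) * s i)))
        ≤ ∏ i, house (∏ j, ((δ : F) ^ (N * S) * x i j ^ ((l j : ℕ) * s i))) :=
          RHouse_prod_le _ _
      _ ≤ ∏ _i : Fin r, ∏ _j : Fin (r + 1), c₁ ^ (N * S) := by
          refine Finset.prod_le_prod (fun i _ => house_nonneg _) (fun i _ => ?_)
          refine (RHouse_prod_le _ _).trans ?_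
          exact Finset.prod_le_prod (fun j _ => house_nonneg _) (fun j _ => (hfac i j).2)
      _ = C₁ ^ (N * S) := by
          simp only [Finset.prod_const, Finset.card_univ, Fintype.card_fin]
          rw [hC₁, ← pow_mul, ← pow_mul, ← pow_mul]
          congr 1
          ring
  -- the part of the derivations
  have hAint : ∀ g, IsIntegral ℤ (Aev a l g : F) := by
    intro g
    unfold Aev
    exact IsIntegral.sum _ (fun j _ => (RHouse_int_nat _).mul (a g j).2)
  have hAhouse : ∀ g, house (Aev a l g : F) ≤ C₂ * N := by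
    intro g
    unfold Aev
    calc house (∑ j, (((l j : ℕ) : F) * ((a g j : 𝓞 F) : F)))
        ≤ ∑ j, house (((l j : ℕ) : F) * ((a g j : 𝓞 F) : F)) := house_sum_le_sum_house _ _
      _ ≤ ∑ _j : Fin (r + 1), (N : ℝ) * H := by
          refine Finset.sum_le_sum (fun j _ => ?_)
          rw [house_nat_mul]
          have h1 : ((l j : ℕ) : ℝ) ≤ N := by exact_mod_cast (l j).2.le
          exact mul_le_mul h1 (haH g j) (house_nonneg _) (Nat.cast_nonneg _)
      _ = C₂ * N := by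
          simp only [Finset.sum_const, Finset.card_univ, Fintype.card_fin, nsmul_eq_mul]
          rw [hC₂]
          push_cast
          ring
  have hBint : IsIntegral ℤ (∏ g, (Aev a l g : F) ^ τ g) :=
    RHouse_prod_int _ _ (fun g _ => (hAint g).pow _)
  have hBhouse : house (∏ g, (Aev a l g : F) ^ τ g) ≤ (C₂ * N) ^ (∑ g, τ g) := by
    rw [← Finset.prod_pow_eq_pow_sum]
    refine (RHouse_prod_le _ _).trans ?_
    refine Finset.prod_le_prod (fun g _ => house_nonneg _) (fun g _ => ?_)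
    exact (house_pow_le _ _).trans (pow_le_pow_left₀ (house_nonneg _) (hAhouse g) _)
  have hre : (((δ ^ (r * (r + 1)) : ℕ) : F)) ^ (N * S) *
      ((∏ g, (Aev a l g : F) ^ τ g) * ∏ i, Xev x l i ^ s i) =
      ((((δ ^ (r * (r + 1)) : ℕ) : F)) ^ (N * S) * ∏ i, Xev x l i ^ s i) *
        ∏ g, (Aev a l g : F) ^ τ g := by ring
  rw [hre]
  refine ⟨hPint.mul hBint, ?_⟩
  have hN0 : (0 : ℝ) ≤ N := Nat.cast_nonneg N
  refine (house_mul_le _ _).trans ?_
  refine mul_le_mul (hPhouse.trans ?_) (hBhouse.trans ?_) (house_nonneg _) ?_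
  · exact pow_le_pow_left₀ (by linarith) (by linarith) _
  · refine pow_le_pow_left₀ (by positivity) ?_ _
    exact mul_le_mul_of_nonneg_right (by linarith) hN0
  · have : 0 ≤ C₁ + C₂ := by linarith
    positivity

end Bru95
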