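import Pool.Agent.LibBru95.RDiv

/-! Row B5. Derivatives of `(X - t) g`. -/

namespace Bru95

variable {p : ℕ} [Fact p.Prime] {E : Type*} [NormedField E] [NormedAlgebra ℚ_[p] E]
  [IsUltrametricDist E] [CompleteSpace E] [CharZero E]

/-- `‖(n+1) c_(n+1)‖ R^n ≤ ‖c_(n+1)‖ R^(n+1) ≤ B` -/
theorem PB_der {R B : ℝ} (hR : 1 ≤ R) {f : PowerSeries E} (hf : PB R B f) : PB R B (der f) := by
  intro n
  have h1 : PowerSeries.coeff n (der f) = ((n + 1 : ℕ) : E) * PowerSeries.coeff (n + 1) f :=
    PowerSeries.coeff_mk _ _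
  have h2 : ‖((n + 1 : ℕ) : E)‖ ≤ 1 := IsUltrametricDist.norm_natCast_le_one E (n + 1)
  have h3 : (0 : ℝ) ≤ R ^ n := pow_nonneg (zero_le_one.trans hR) n
  have h4 : R ^ n ≤ R ^ (n + 1) := pow_le_pow_right₀ hR (Nat.le_succ n)
  rw [h1, norm_mul]
  calc ‖((n + 1 : ℕ) : E)‖ * ‖PowerSeries.coeff (n + 1) f‖ * R ^ n
      ≤ 1 * ‖PowerSeries.coeff (n + 1) f‖ * R ^ n := by gcongr
    _ = ‖PowerSeries.coeff (n + 1) f‖ * R ^ n := by rw [one_mul]
    _ ≤ ‖PowerSeries.coeff (n + 1) f‖ * R ^ (n + 1) := by gcongr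
    _ ≤ B := hf (n + 1)

theorem PB_der_iter {R B : ℝ} (hR : 1 ≤ R) {f : PowerSeries E} (hf : PB R B f) (m : ℕ) :
    PB R B (der^[m] f) := by
  induction m with
  | zero => exact hf
  | succ m ih =>
    rw [Function.iterate_succ_apply']
    exact PB_der hR ih

omit [IsUltrametricDist E] [CompleteSpace E] [CharZero E] in
private theorem RLeib_der (f : PowerSeries E) : der f = PowerSeries.derivative E f := by
  ext n
  rw [PowerSeries.coeff_derivative]
  have h1 : PowerSeries.coeff n (der f) = ((n + 1 : ℕ) : E) * PowerSeries.coeff (n + 1) f :=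
    PowerSeries.coeff_mk _ _
  rw [h1, mul_comm]
  push_cast
  rfl

private theorem RLeib_lin (t : E) (g : PowerSeries E) :
    der ((PowerSeries.X - PowerSeries.C t) * g) =
      (PowerSeries.X - PowerSeries.C t) * der g + g := by
  rw [RLeib_der, RLeib_der, Derivation.leibniz, map_sub, PowerSeries.derivative_X,
    PowerSeries.derivative_C, sub_zero, smul_eq_mul, smul_eq_mul, mul_one]

private theorem RLeib_add (f g : PowerSeries E) : der (f + g) = der f + der g := by
  rw [RLeib_der, RLeib_der, RLeib_der, map_add]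

private theorem RLeib_nat (k : ℕ) (g : PowerSeries E) :
    der ((k : PowerSeries E) * g) = (k : PowerSeries E) * der g := by
  rw [RLeib_der, RLeib_der, Derivation.leibniz, Derivation.map_natCast, smul_zero, add_zero,
    smul_eq_mul]

theorem der_iter_lin (t : E) (g : PowerSeries E) (m : ℕ) :
    der^[m + 1] ((PowerSeries.X - PowerSeries.C t) * g) =
      (PowerSeries.X - PowerSeries.C t) * der^[m + 1] g + ((m + 1 : ℕ) : PowerSeries E) * der^[m] g := by
  induction m with
  | zero =>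
    have h := RLeib_lin t g
    rw [zero_add, Function.iterate_one, Function.iterate_zero, id, h, Nat.cast_one, one_mul]
  | succ m ih =>
    rw [Function.iterate_succ_apply' der (m + 1), ih, RLeib_add, RLeib_lin,
      RLeib_nat, ← Function.iterate_succ_apply' der (m + 1),
      ← Function.iterate_succ_apply' der m]
    push_cast
    ring

private theorem RLeib_hs {R B : ℝ} (hR : 1 < R) {g : PowerSeries E} (hg : PB R B g) {s : E}
    (hs : ‖s‖ ≤ 1) : HasSum (fun n : ℕ => PowerSeries.coeff n g * s ^ n) (ev g s) :=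
  (PB_summable hR hg hs).hasSum

private theorem RLeib_hsl {R B : ℝ} (hR : 1 < R) {g : PowerSeries E} (hg : PB R B g) {s : E}
    (hs : ‖s‖ ≤ 1) (t : E) :
    HasSum (fun n : ℕ => PowerSeries.coeff n ((PowerSeries.X - PowerSeries.C t) * g) * s ^ n)
      ((s - t) * ev g s) := by
  have h0 := RLeib_hs hR hg hs
  have h1 : HasSum (fun n : ℕ => PowerSeries.coeff n (PowerSeries.X * g) * s ^ n) (s * ev g s) := by
    have h2 := h0.mul_left s
    rw [← hasSum_nat_add_iff' 1]
    rw [Finset.sum_range_one, PowerSeries.coeff_zero_X_mul, zero_mul, sub_zero]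
    have h5 : (fun n : ℕ => PowerSeries.coeff (n + 1) (PowerSeries.X * g) * s ^ (n + 1)) =
        fun n => s * (PowerSeries.coeff n g * s ^ n) := by
      funext n
      rw [PowerSeries.coeff_succ_X_mul]
      ring
    rw [h5]
    exact h2
  have h3 := h1.sub (h0.mul_left t)
  rw [sub_mul s t]
  have h4 : (fun n : ℕ => PowerSeries.coeff n ((PowerSeries.X - PowerSeries.C t) * g) * s ^ n) =
      fun n => PowerSeries.coeff n (PowerSeries.X * g) * s ^ n -
        t * (PowerSeries.coeff n g * s ^ n) := by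
    funext n
    rw [sub_mul, map_sub, PowerSeries.coeff_C_mul]
    ring
  rw [h4]
  exact h3

theorem ev_lin {R B : ℝ} (hR : 1 < R) {g : PowerSeries E} (hg : PB R B g) {s : E} (hs : ‖s‖ ≤ 1)
    (t : E) : ev ((PowerSeries.X - PowerSeries.C t) * g) s = (s - t) * ev g s :=
  (RLeib_hsl hR hg hs t).tsum_eq

theorem ev_der_lin {R B : ℝ} (hR : 1 < R) {g : PowerSeries E} (hg : PB R B g) {s : E} (hs : ‖s‖ ≤ 1)
    (t : E) (m : ℕ) :
    ev (der^[m + 1] ((PowerSeries.X - PowerSeries.C t) * g)) s =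
      (s - t) * ev (der^[m + 1] g) s + ((m + 1 : ℕ) : E) * ev (der^[m] g) s := by
  rw [der_iter_lin]
  have h1 := RLeib_hsl hR (PB_der_iter hR.le hg (m + 1)) hs t
  have h2 := (RLeib_hs hR (PB_der_iter hR.le hg m) hs).mul_left
    ((m + 1 : ℕ) : E)
  have h3 := h1.add h2
  have h4 : (fun n : ℕ => PowerSeries.coeff n ((PowerSeries.X - PowerSeries.C t) * der^[m + 1] g +
      ((m + 1 : ℕ) : PowerSeries E) * der^[m] g) * s ^ n) =
      fun n => PowerSeries.coeff n ((PowerSeries.X - PowerSeries.C t) * der^[m + 1] g) * s ^ n +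
        ((m + 1 : ℕ) : E) * (PowerSeries.coeff n (der^[m] g) * s ^ n) := by
    funext n
    have h5 : ((m + 1 : ℕ) : PowerSeries E) = PowerSeries.C ((m + 1 : ℕ) : E) :=
      (map_natCast PowerSeries.C (m + 1)).symm
    rw [h5, map_add, PowerSeries.coeff_C_mul, add_mul, mul_assoc]
  unfold ev at h3 ⊢
  rw [h4]
  exact h3.tsum_eq

end Bru95
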