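import Pool.Agent.LibBru95.Defs

/-! Row B16. Linear change of coordinates. Induction on `∑ τ` with the functions `c` generalized
(replace `c l` by `c l * u l i`), or expand `∏_g (∑_i Z g i * u l i)^(τ g)` by `Finset.prod_univ_sum`
over `Fin (∑ τ) → Fin r`. For the induction: if `τ g ≥ 1`, `v_g^(τ g) = v_g^(τ g - 1) ∑_i Z g i u_i`;
`‖∑_l c_l v^τ‖ ≤ max_i ‖Z g i‖ ‖∑_l (c_l u_l,i) v^(τ - e_g)‖`, and the hypothesis for `c_l u_l,i` at order
`∑ τ - 1` is the hypothesis for `c_l` at the exponents `κ + e_i`. -/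

namespace Bru95

private theorem RLin_aux {E : Type*} [NormedField E] [IsUltrametricDist E] {Λ : Type*} [Fintype Λ] {r : ℕ}
    (u v : Λ → Fin r → E) (Z : Matrix (Fin r) (Fin r) E)
    (hv : ∀ l g, v l g = ∑ i, Z g i * u l i) {C : ℝ} (hC : 0 ≤ C) (hZ : ∀ g i, ‖Z g i‖ ≤ C)
    {B : ℝ} (hB : 0 ≤ B) (n : ℕ) : ∀ (c : Λ → E) (τ : Fin r → ℕ), ∑ g, τ g = n →
    (∀ κ : Fin r → ℕ, ∑ i, κ i = n → ‖∑ l, c l * ∏ i, u l i ^ κ i‖ ≤ B) →
    ‖∑ l, c l * ∏ g, v l g ^ τ g‖ ≤ C ^ n * B := by
  classical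
  induction n with
  | zero =>
    intro c τ hτ hκ
    have h0 : ∀ g, τ g = 0 := by
      intro g
      have := Finset.single_le_sum (f := τ) (fun _ _ => Nat.zero_le _) (Finset.mem_univ g)
      omega
    have h1 := hκ (fun _ => 0) (by simp)
    rw [pow_zero, one_mul]
    simp only [pow_zero] at h1
    have h2 : ∑ l, c l * ∏ g, v l g ^ τ g = ∑ l, c l * ∏ _i : Fin r, (1 : E) := by
      refine Finset.sum_congr rfl fun l _ => ?_
      congr 1
      refine Finset.prod_congr rfl fun g _ => ?_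
      rw [h0 g, pow_zero]
    rw [h2]
    exact h1
  | succ n ih =>
    intro c τ hτ hκ
    obtain ⟨g, hg⟩ : ∃ g, 1 ≤ τ g := by
      by_contra hcon
      push Not at hcon
      have : ∑ g, τ g = 0 := Finset.sum_eq_zero fun g _ => by
        have := hcon g
        omega
      omega
    obtain ⟨τ', hτ'⟩ : ∃ τ' : Fin r → ℕ, τ' = Function.update τ g (τ g - 1) := ⟨_, rfl⟩
    have hτg : τ' g + 1 = τ g := by
      rw [hτ', Function.update_self]
      omega
    have hτne : ∀ h, h ≠ g → τ' h = τ h := fun h hh => by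
      rw [hτ', Function.update_of_ne hh]
    have hsum : ∑ h, τ' h = n := by
      have h1 : ∑ h, τ h = τ g + ∑ h ∈ Finset.univ.erase g, τ h :=
        (Finset.add_sum_erase _ _ (Finset.mem_univ g)).symm
      have h2 : ∑ h, τ' h = τ' g + ∑ h ∈ Finset.univ.erase g, τ' h :=
        (Finset.add_sum_erase _ _ (Finset.mem_univ g)).symm
      have h3 : ∑ h ∈ Finset.univ.erase g, τ' h = ∑ h ∈ Finset.univ.erase g, τ h :=
        Finset.sum_congr rfl fun h hh => hτne h (Finset.ne_of_mem_erase hh)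
      omega
    have hprod : ∀ w : Fin r → E, ∏ h, w h ^ τ h = w g * ∏ h, w h ^ τ' h := by
      intro w
      rw [← Finset.mul_prod_erase _ _ (Finset.mem_univ g),
        ← Finset.mul_prod_erase (Finset.univ) (fun h => w h ^ τ' h) (Finset.mem_univ g), ← hτg,
        pow_succ]
      have h3 : ∏ h ∈ Finset.univ.erase g, w h ^ τ h = ∏ h ∈ Finset.univ.erase g, w h ^ τ' h :=
        Finset.prod_congr rfl fun h hh => by rw [hτne h (Finset.ne_of_mem_erase hh)]
      rw [h3]
      ring
    have e : ∑ l, c l * ∏ h, v l h ^ τ h =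
        ∑ i, Z g i * ∑ l, (c l * u l i) * ∏ h, v l h ^ τ' h := by
      simp only [Finset.mul_sum]
      rw [Finset.sum_comm]
      refine Finset.sum_congr rfl fun l _ => ?_
      rw [hprod, hv l g, Finset.sum_mul, Finset.mul_sum]
      refine Finset.sum_congr rfl fun i _ => ?_
      ring
    rw [e]
    refine IsUltrametricDist.norm_sum_le_of_forall_le_of_nonneg (by positivity) fun i _ => ?_
    rw [norm_mul]
    have h1 := ih (fun l => c l * u l i) τ' hsum (fun κ hκ' => by
      have h2 := hκ (Function.update κ i (κ i + 1)) (by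
        have h3 : ∑ h, Function.update κ i (κ i + 1) h = Function.update κ i (κ i + 1) i +
            ∑ h ∈ Finset.univ.erase i, Function.update κ i (κ i + 1) h :=
          (Finset.add_sum_erase _ _ (Finset.mem_univ i)).symm
        have h4 : ∑ h, κ h = κ i + ∑ h ∈ Finset.univ.erase i, κ h :=
          (Finset.add_sum_erase _ _ (Finset.mem_univ i)).symm
        have h5 : ∑ h ∈ Finset.univ.erase i, Function.update κ i (κ i + 1) h =
            ∑ h ∈ Finset.univ.erase i, κ h :=
          Finset.sum_congr rfl fun h hh => Function.update_of_ne (Finset.ne_of_mem_erase hh) _ _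
        rw [Function.update_self] at h3
        omega)
      have h6 : ∑ l, c l * u l i * ∏ h, u l h ^ κ h =
          ∑ l, c l * ∏ h, u l h ^ (Function.update κ i (κ i + 1)) h := by
        refine Finset.sum_congr rfl fun l _ => ?_
        rw [mul_assoc]
        congr 1
        rw [← Finset.mul_prod_erase _ _ (Finset.mem_univ i),
          ← Finset.mul_prod_erase (Finset.univ)
            (fun h => u l h ^ (Function.update κ i (κ i + 1)) h) (Finset.mem_univ i),
          Function.update_self, pow_succ]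
        have h7 : ∏ h ∈ Finset.univ.erase i, u l h ^ (Function.update κ i (κ i + 1)) h =
            ∏ h ∈ Finset.univ.erase i, u l h ^ κ h :=
          Finset.prod_congr rfl fun h hh => by
            rw [Function.update_of_ne (Finset.ne_of_mem_erase hh)]
        rw [h7]
        ring
      rw [h6]
      exact h2)
    calc ‖Z g i‖ * ‖∑ l, c l * u l i * ∏ h, v l h ^ τ' h‖ ≤ C * (C ^ n * B) :=
          mul_le_mul (hZ g i) h1 (norm_nonneg _) hC
      _ = C ^ (n + 1) * B := by ring

theorem lin_change {E : Type*} [NormedField E] [IsUltrametricDist E] {Λ : Type*} [Fintype Λ] {r : ℕ}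
    (c : Λ → E) (u v : Λ → Fin r → E) (Z : Matrix (Fin r) (Fin r) E)
    (hv : ∀ l g, v l g = ∑ i, Z g i * u l i) {C : ℝ} (hC : 0 ≤ C) (hZ : ∀ g i, ‖Z g i‖ ≤ C)
    (τ : Fin r → ℕ) {B : ℝ} (hB : 0 ≤ B)
    (hκ : ∀ κ : Fin r → ℕ, ∑ i, κ i = ∑ g, τ g → ‖∑ l, c l * ∏ i, u l i ^ κ i‖ ≤ B) :
    ‖∑ l, c l * ∏ g, v l g ^ τ g‖ ≤ C ^ (∑ g, τ g) * B := by
  exact RLin_aux u v Z hv hC hZ hB _ c τ rfl hκ

end Bru95
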