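import Pool.Agent.LibBru95.RExSurj

/-! Row B28. `L (ex z) = z`. `L` is a homomorphism so `L 1 = 0`, `L (w^k) = k L w`. `ex (p^n z) = (ex z)^(p^n)` so
`L (ex z) = L (ex (p^n z)) / p^n`; as `n → ∞`, `ex (p^n z) → 1`, `(ex (p^n z) - 1)/p^n → z`
(`norm_ex_sub_one_sub_le`), and `L w = (w - 1) + o(w - 1)` (`HasDerivAt` at 1, `L 1 = 0`). -/

namespace Bru95

variable {p : ℕ} [Fact p.Prime] {L : ℚ_[p] → ℚ_[p]}

theorem IsPadicLog.map_one (hL : IsPadicLog p L) : L 1 = 0 := by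
  have h := hL.map_mul 1 1 one_ne_zero one_ne_zero
  rw [one_mul] at h
  exact left_eq_add.1 h

theorem IsPadicLog.map_inv (hL : IsPadicLog p L) {x : ℚ_[p]} (hx : x ≠ 0) : L x⁻¹ = - L x := by
  have h := hL.map_mul x x⁻¹ hx (inv_ne_zero hx)
  rw [mul_inv_cancel₀ hx, hL.map_one] at h
  exact (neg_eq_of_add_eq_zero_right h.symm).symm

theorem IsPadicLog.map_zpow (hL : IsPadicLog p L) {x : ℚ_[p]} (hx : x ≠ 0) (m : ℤ) :
    L (x ^ m) = (m : ℚ_[p]) * L x := by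
  have hn : ∀ n : ℕ, L (x ^ n) = (n : ℚ_[p]) * L x := by
    intro n
    induction n with
    | zero => rw [pow_zero, hL.map_one, Nat.cast_zero, zero_mul]
    | succ n ih =>
      rw [pow_succ, hL.map_mul _ _ (pow_ne_zero n hx) hx, ih, Nat.cast_succ]
      ring
  cases m with
  | ofNat n =>
    rw [Int.ofNat_eq_natCast, zpow_natCast, hn, Int.cast_natCast]
  | negSucc n =>
    rw [zpow_negSucc, hL.map_inv (pow_ne_zero _ hx), hn, Int.cast_negSucc]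
    ring

theorem IsPadicLog.map_prod_zpow (hL : IsPadicLog p L) {ι : Type*} (s : Finset ι) (x : ι → ℚ_[p])
    (hx : ∀ i ∈ s, x i ≠ 0) (m : ι → ℤ) :
    L (∏ i ∈ s, x i ^ m i) = ∑ i ∈ s, (m i : ℚ_[p]) * L (x i) := by
  classical
  induction s using Finset.induction_on with
  | empty => rw [Finset.prod_empty, Finset.sum_empty, hL.map_one]
  | insert i s hi ih =>
    have h1 : ∀ k ∈ s, x k ≠ 0 := fun k hk => hx k (Finset.mem_insert_of_mem hk)
    have h2 : x i ≠ 0 := hx i (Finset.mem_insert_self i s)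
    rw [Finset.prod_insert hi, Finset.sum_insert hi, hL.map_mul _ _ (zpow_ne_zero _ h2)
      (Finset.prod_ne_zero_iff.2 fun k hk => zpow_ne_zero _ (h1 k hk)), hL.map_zpow h2, ih h1]

theorem IsPadicLog.log_ex (hL : IsPadicLog p L) {z : ℚ_[p]} (hz : ‖z‖ ≤ ((p : ℝ) ^ 3)⁻¹) :
    L (ex z) = z := by
  have hp1 : (1 : ℝ) < p := by exact_mod_cast (Fact.out : p.Prime).one_lt
  have hp0 : (0 : ℝ) < p := by linarith
  have h32 : ((p : ℝ) ^ 3)⁻¹ ≤ ((p : ℝ) ^ 2)⁻¹ :=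
    inv_anti₀ (by positivity) (pow_le_pow_right₀ hp1.le (by norm_num))
  have hz2 : ‖z‖ ≤ ((p : ℝ) ^ 2)⁻¹ := hz.trans h32
  have hez : ex z ≠ 0 := ex_ne_zero hz2
  obtain ⟨w, hw⟩ : ∃ w : ℕ → ℚ_[p], w = fun n => ex ((p : ℚ_[p]) ^ n * z) := ⟨_, rfl⟩
  have hq : ‖(p : ℚ_[p])‖ = (p : ℝ)⁻¹ := Padic.norm_p
  have hq1 : ‖(p : ℚ_[p])‖ ≤ 1 := by rw [hq]; exact inv_le_one_of_one_le₀ hp1.le
  have hle : ∀ n, ‖(p : ℚ_[p]) ^ n * z‖ ≤ ‖z‖ := by
    intro n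
    rw [norm_mul, norm_pow]
    exact mul_le_of_le_one_left (norm_nonneg _) (pow_le_one₀ (norm_nonneg _) hq1)
  have hLw : ∀ n, L (w n) = (p : ℚ_[p]) ^ n * L (ex z) := by
    intro n
    have h1 : w n = ex z ^ ((p : ℤ) ^ n) := by
      have h2 := ex_int_mul hz2 ((p : ℤ) ^ n)
      rw [Int.cast_pow, Int.cast_natCast] at h2
      rw [hw]
      exact h2
    rw [h1, hL.map_zpow hez, Int.cast_pow, Int.cast_natCast]
  have hn1 : ∀ n, ‖w n - 1‖ = ‖(p : ℚ_[p]) ^ n * z‖ := by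
    intro n
    rw [hw]
    exact norm_ex_sub_one ((hle n).trans hz)
  have hn2 : ∀ n, ‖w n - 1 - (p : ℚ_[p]) ^ n * z‖ ≤
      (p : ℝ) ^ 2 * ‖(p : ℚ_[p]) ^ n * z‖ ^ 2 := by
    intro n
    rw [hw]
    exact norm_ex_sub_one_sub_le ((hle n).trans hz2)
  have hpt : Filter.Tendsto (fun n : ℕ => (p : ℚ_[p]) ^ n) Filter.atTop (nhds 0) := by
    refine tendsto_pow_atTop_nhds_zero_of_norm_lt_one ?_
    rw [hq]
    exact inv_lt_one_of_one_lt₀ hp1
  have hwt : Filter.Tendsto w Filter.atTop (nhds 1) := by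
    rw [tendsto_iff_norm_sub_tendsto_zero]
    have h1 : Filter.Tendsto (fun n : ℕ => (p : ℚ_[p]) ^ n * z) Filter.atTop (nhds (0 * z)) :=
      hpt.mul_const z
    rw [zero_mul] at h1
    refine (tendsto_zero_iff_norm_tendsto_zero.1 h1).congr fun n => ?_
    rw [hn1]
  have hlo := (hasDerivAt_iff_isLittleO.1 hL.deriv_one).comp_tendsto hwt
  have hB : (fun n => w n - 1) =O[Filter.atTop] fun n : ℕ => (p : ℚ_[p]) ^ n := by
    refine Asymptotics.IsBigO.of_bound ‖z‖ (Filter.Eventually.of_forall fun n => ?_)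
    rw [hn1, norm_mul, mul_comm]
  have h1 : (fun n => L (w n) - (w n - 1)) =o[Filter.atTop] fun n : ℕ => (p : ℚ_[p]) ^ n := by
    refine (hlo.trans_isBigO hB).congr_left fun n => ?_
    show L (w n) - L 1 - (w n - 1) • (1 : ℚ_[p]) = _
    rw [hL.map_one, smul_eq_mul]
    ring
  have h2 : (fun n => w n - 1 - (p : ℚ_[p]) ^ n * z) =o[Filter.atTop]
      fun n : ℕ => (p : ℚ_[p]) ^ n := by
    have h3 : (fun n => w n - 1 - (p : ℚ_[p]) ^ n * z) =O[Filter.atTop]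
        fun n : ℕ => (p : ℚ_[p]) ^ n * (p : ℚ_[p]) ^ n := by
      refine Asymptotics.IsBigO.of_bound ((p : ℝ) ^ 2 * ‖z‖ ^ 2)
        (Filter.Eventually.of_forall fun n => ?_)
      refine (hn2 n).trans (le_of_eq ?_)
      rw [norm_mul, norm_mul]
      ring
    have h4 : (fun n : ℕ => (p : ℚ_[p]) ^ n * (p : ℚ_[p]) ^ n) =o[Filter.atTop]
        fun n : ℕ => (1 : ℚ_[p]) * (p : ℚ_[p]) ^ n :=
      ((Asymptotics.isLittleO_one_iff ℚ_[p]).2 hpt).mul_isBigO (Asymptotics.isBigO_refl _ _)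
    refine h3.trans_isLittleO (h4.congr_right fun n => ?_)
    rw [one_mul]
  have h4 : (fun n : ℕ => (p : ℚ_[p]) ^ n * (L (ex z) - z)) =o[Filter.atTop]
      fun n : ℕ => (p : ℚ_[p]) ^ n := by
    refine (h1.add h2).congr_left fun n => ?_
    rw [hLw]
    ring
  have h5 := h4.tendsto_div_nhds_zero
  have hpne : ∀ n : ℕ, (p : ℚ_[p]) ^ n ≠ 0 := fun n =>
    pow_ne_zero n (Nat.cast_ne_zero.2 (Fact.out : p.Prime).ne_zero)
  have h6 : (fun n : ℕ => (p : ℚ_[p]) ^ n * (L (ex z) - z) / (p : ℚ_[p]) ^ n) =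
      fun _ => L (ex z) - z := by
    funext n
    exact mul_div_cancel_left₀ _ (hpne n)
  rw [h6] at h5
  exact sub_eq_zero.1 (tendsto_nhds_unique tendsto_const_nhds h5)

end Bru95
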