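import Pool.Agent.LibBru95.RExpZ

/-! Row B17. The values `muL` : small, and their exponentials are `σ (Xev x l i)`; the relation with the eigenvalues `Aev`. -/

namespace Bru95

open NumberField

variable {p : ℕ} [Fact p.Prime] {E : Type*} [NormedField E] [NormedAlgebra ℚ_[p] E]
  [IsUltrametricDist E] [CompleteSpace E] [CharZero E]
  {F : Type*} [Field F] [NumberField F] {r : ℕ}

theorem norm_muL_le (D : SL p E F r) {N : ℕ} (l : Fin (r + 1) → Fin N) (i : Fin r) :
    ‖D.muL l i‖ ≤ ((p : ℝ) ^ 3)⁻¹ := by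
  have h1 : D.muL l i = ∑ j, (((l j : ℕ) : ℤ) : E) * D.mu i j := by
    unfold SL.muL
    refine Finset.sum_congr rfl fun j _ => ?_
    rw [Int.cast_natCast]
  rw [h1]
  exact norm_int_comb_le Finset.univ (fun j => D.mu i j) (by positivity)
    (fun j _ => D.small i j) (fun j => ((l j : ℕ) : ℤ))

theorem ex_muL (D : SL p E F r) {N : ℕ} (l : Fin (r + 1) → Fin N) (i : Fin r) :
    ex (D.muL l i) = D.σ (Xev D.x l i) := by
  have hp : p.Prime := Fact.out
  have h32 : ((p : ℝ) ^ 3)⁻¹ ≤ ((p : ℝ) ^ 2)⁻¹ := by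
    apply inv_anti₀
    · have : (0 : ℝ) < p := by exact_mod_cast hp.pos
      positivity
    · exact pow_le_pow_right₀ (by exact_mod_cast hp.one_le) (by norm_num)
  have h1 : D.muL l i = ∑ j, (((l j : ℕ) : ℤ) : E) * D.mu i j := by
    unfold SL.muL
    refine Finset.sum_congr rfl fun j _ => ?_
    rw [Int.cast_natCast]
  rw [h1, ex_int_comb (p := p) Finset.univ (fun j => D.mu i j)
    (fun j _ => (D.small i j).trans h32) (fun j => ((l j : ℕ) : ℤ))]
  unfold Xev
  rw [map_prod]
  refine Finset.prod_congr rfl fun j _ => ?_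
  rw [zpow_natCast, map_pow]
  congr 1
  exact D.exp_eq i j

theorem muL_eq (D : SL p E F r) {N : ℕ} (l : Fin (r + 1) → Fin N) (i : Fin r) :
    D.muL l i = ∑ g, D.Y i g * D.σ (Aev D.a l g) := by
  unfold SL.muL SL.mu Aev
  simp_rw [map_sum, map_mul, map_natCast, Finset.mul_sum]
  rw [Finset.sum_comm]
  refine Finset.sum_congr rfl fun g _ => Finset.sum_congr rfl fun j _ => ?_
  ring

end Bru95
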