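import Pool.Agent.LibBru95.RSchw
import Pool.Agent.LibBru95.RMuL

/-! Row B18. The upper bound, in the coordinates given by the points. Choose `i` with `r κ_i ≥ T₁` (pigeonhole). Apply
`schw` to `q_l = σ(P_l) ∏_{i' ≠ i} muL(l,i')^(κ_i') ∏_{i' ≠ i} σ(X(l,i'))^(s_i')` (norm at most 1: `norm_integral_le_one`,
`‖muL‖ ≤ 1`, `‖σ X‖ = ‖ex muL‖ = 1` by `norm_ex`), `ν_l = muL(l,i)`, `k = κ_i`: for `m < κ_i` and `s' < S` the sum
`∑ q_l ν_l^m ex(ν_l)^s'` is `Psi P (Function.update κ i m) (Function.update s i s')`, of order `< T₁`. So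
`‖Psi P κ s‖ ≤ p^(-S κ_i)`, and the `r`-th power is at most `p^(-S κ_i r) ≤ p^(-S T₁)`. -/

namespace Bru95

open NumberField

variable {p : ℕ} [Fact p.Prime] {E : Type*} [NormedField E] [NormedAlgebra ℚ_[p] E]
  [IsUltrametricDist E] [CompleteSpace E] [CharZero E]
  {F : Type*} [Field F] [NumberField F] {r : ℕ}

private theorem rPsi_norm_int (σ : F →+* E) (a : 𝓞 F) : ‖σ (a : F)‖ ≤ 1 := by
  have h1 : IsIntegral ℤ (a : F) := RingOfIntegers.isIntegral_coe a
  have h2 : IsIntegral ℤ (σ (a : F)) := h1.map (σ.toIntAlgHom)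
  exact norm_integral_le_one h2

private theorem rPsi_muL (D : SL p E F r) {N : ℕ} (l : Fin (r + 1) → Fin N) (i : Fin r) : ‖D.muL l i‖ ≤ 1 := by
  have hp1 : (1 : ℝ) < p := by exact_mod_cast (Fact.out : p.Prime).one_lt
  exact (norm_muL_le D l i).trans (inv_le_one_of_one_le₀ (one_le_pow₀ hp1.le))

private theorem rPsi_X (D : SL p E F r) {N : ℕ} (l : Fin (r + 1) → Fin N) (i : Fin r) : ‖D.σ (Xev D.x l i)‖ ≤ 1 := by
  rw [← ex_muL, norm_ex (p := p)]
  refine (norm_muL_le D l i).trans ?_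
  have hp1 : (1 : ℝ) < p := by exact_mod_cast (Fact.out : p.Prime).one_lt
  have hp0 : (0 : ℝ) < (p : ℝ) ^ 2 := by positivity
  exact inv_anti₀ hp0 (pow_le_pow_right₀ hp1.le (by norm_num))

private theorem rPsi_pig {r T : ℕ} (hr : 0 < r) (κ : Fin r → ℕ) (h : ∑ i, κ i = T) : ∃ i, T ≤ κ i * r := by
  by_contra hcon
  push Not at hcon
  have h1 : ∑ i, κ i * r < ∑ _i : Fin r, T := by
    refine Finset.sum_lt_sum_of_nonempty ⟨⟨0, hr⟩, Finset.mem_univ _⟩ fun i _ => hcon i
  rw [← Finset.sum_mul, h, Finset.sum_const, Finset.card_univ, Fintype.card_fin, smul_eq_mul, mul_comm] at h1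
  exact lt_irrefl _ h1

theorem Psi_bound (D : SL p E F r) {N : ℕ} (P : (Fin (r + 1) → Fin N) → 𝓞 F) (S T₁ : ℕ)
    (hvan : ∀ κ s : Fin r → ℕ, (∀ i, s i < S) → ∑ i, κ i < T₁ → D.Psi P κ s = 0)
    (κ s : Fin r → ℕ) (hs : ∀ i, s i < S) (hκ : ∑ i, κ i = T₁) :
    ‖D.Psi P κ s‖ ^ r * (p : ℝ) ^ (S * T₁) ≤ 1 := by
  classical
  obtain ⟨i, hi⟩ := rPsi_pig D.hr κ hκ
  obtain ⟨q, hq⟩ : ∃ q : (Fin (r + 1) → Fin N) → E, q = fun l => D.σ (P l : F) *
      (∏ j ∈ Finset.univ.erase i, D.muL l j ^ κ j) * ∏ j ∈ Finset.univ.erase i, D.σ (Xev D.x l j) ^ s j := ⟨_, rfl⟩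
  have hq1 : ∀ l, ‖q l‖ ≤ 1 := by
    intro l
    rw [hq]
    change ‖D.σ (P l : F) * (∏ j ∈ Finset.univ.erase i, D.muL l j ^ κ j) *
      ∏ j ∈ Finset.univ.erase i, D.σ (Xev D.x l j) ^ s j‖ ≤ 1
    rw [norm_mul, norm_mul, norm_prod, norm_prod]
    refine mul_le_one₀ (mul_le_one₀ (rPsi_norm_int D.σ _) (Finset.prod_nonneg fun j _ => norm_nonneg _)
      (Finset.prod_le_one (fun j _ => norm_nonneg _) fun j _ => ?_)) (Finset.prod_nonneg fun j _ => norm_nonneg _)
      (Finset.prod_le_one (fun j _ => norm_nonneg _) fun j _ => ?_)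
    · rw [norm_pow]
      exact pow_le_one₀ (norm_nonneg _) (rPsi_muL D l j)
    · rw [norm_pow]
      exact pow_le_one₀ (norm_nonneg _) (rPsi_X D l j)
  have key : ∀ m t : ℕ, D.Psi P (Function.update κ i m) (Function.update s i t) =
      ∑ l, q l * D.muL l i ^ m * ex (D.muL l i) ^ t := by
    intro m t
    unfold SL.Psi
    refine Finset.sum_congr rfl fun l _ => ?_
    have h1 : ∏ j, D.muL l j ^ (Function.update κ i m) j =
        D.muL l i ^ m * ∏ j ∈ Finset.univ.erase i, D.muL l j ^ κ j := by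
      rw [← Finset.mul_prod_erase Finset.univ _ (Finset.mem_univ i), Function.update_self]
      congr 1
      refine Finset.prod_congr rfl fun j hj => ?_
      rw [Function.update_of_ne (Finset.ne_of_mem_erase hj)]
    have h2 : ∏ j, D.σ (Xev D.x l j) ^ (Function.update s i t) j =
        D.σ (Xev D.x l i) ^ t * ∏ j ∈ Finset.univ.erase i, D.σ (Xev D.x l j) ^ s j := by
      rw [← Finset.mul_prod_erase Finset.univ _ (Finset.mem_univ i), Function.update_self]
      congr 1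
      refine Finset.prod_congr rfl fun j hj => ?_
      rw [Function.update_of_ne (Finset.ne_of_mem_erase hj)]
    rw [h1, h2, ex_muL, hq]
    ring
  have hz : ∀ t < S, ∀ m < κ i, ∑ l, q l * D.muL l i ^ m * ex (D.muL l i) ^ t = 0 := by
    intro t ht m hm
    rw [← key]
    refine hvan _ _ (fun j => ?_) ?_
    · by_cases hj : j = i
      · rw [hj, Function.update_self]
        exact ht
      · rw [Function.update_of_ne hj]
        exact hs j
    · rw [← hκ, ← Finset.add_sum_erase Finset.univ _ (Finset.mem_univ i), Function.update_self,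
        ← Finset.add_sum_erase Finset.univ κ (Finset.mem_univ i)]
      have h1 : ∑ j ∈ Finset.univ.erase i, Function.update κ i m j = ∑ j ∈ Finset.univ.erase i, κ j := by
        refine Finset.sum_congr rfl fun j hj => ?_
        rw [Function.update_of_ne (Finset.ne_of_mem_erase hj)]
      rw [h1]
      omega
  have h1 := schw (p := p) q (fun l => D.muL l i) hq1 (fun l => norm_muL_le D l i) S (κ i) hz (κ i) (s i)
  rw [← key, Function.update_eq_self, Function.update_eq_self] at h1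
  have hp1 : (1 : ℝ) < p := by exact_mod_cast (Fact.out : p.Prime).one_lt
  have hp0 : (0 : ℝ) < (p : ℝ) ^ (S * κ i) := by positivity
  calc ‖D.Psi P κ s‖ ^ r * (p : ℝ) ^ (S * T₁) ≤ (((p : ℝ) ^ (S * κ i))⁻¹) ^ r * (p : ℝ) ^ (S * (κ i * r)) := by
        gcongr
        exact hp1.le
    _ = 1 := by
        rw [inv_pow, ← pow_mul, mul_assoc, inv_mul_cancel₀]
        positivity

end Bru95
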