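import Pool.Agent.LibBru95.RExpZ
import Pool.Agent.LibBru95.RDiv

/-! Row B8. The power series of an exponential sum. -/

namespace Bru95

variable {p : ℕ} [Fact p.Prime] {E : Type*} [NormedField E] [NormedAlgebra ℚ_[p] E]
  [IsUltrametricDist E] [CompleteSpace E] [CharZero E] {Λ : Type*} [Fintype Λ]

omit [Fact p.Prime] [NormedAlgebra ℚ_[p] E] [IsUltrametricDist E] [CompleteSpace E] in
theorem der_expSum_aux (q ν : Λ → E) :
    der (expSum q ν) = expSum (fun l => q l * ν l) ν := by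
  unfold der expSum
  ext n
  simp only [PowerSeries.coeff_mk]
  rw [Finset.mul_sum]
  refine Finset.sum_congr rfl fun l _ => ?_
  have h1 : ((n + 1 : ℕ) : E) ≠ 0 := Nat.cast_ne_zero.mpr (Nat.succ_ne_zero n)
  have h2 : ((n.factorial : ℕ) : E) ≠ 0 := Nat.cast_ne_zero.mpr (Nat.factorial_ne_zero n)
  rw [Nat.factorial_succ, Nat.cast_mul, mul_inv]
  field_simp
  ring

theorem der_iter_expSum (q ν : Λ → E) (m : ℕ) :
    der^[m] (expSum q ν) = expSum (fun l => q l * ν l ^ m) ν := by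
  induction m generalizing q with
  | zero => simp
  | succ m ih =>
    rw [Function.iterate_succ_apply, der_expSum_aux, ih]
    congr 1
    funext l
    ring

/-- `‖q ν^n/n!‖ ≤ p^(-3n) p^n = p^(-2n)`, times `p^n` at most one -/
theorem PB_expSum (q ν : Λ → E) (hq : ∀ l, ‖q l‖ ≤ 1) (hν : ∀ l, ‖ν l‖ ≤ ((p : ℝ) ^ 3)⁻¹) :
    PB (p : ℝ) 1 (expSum q ν) := by
  have hp : (1 : ℝ) < p := by exact_mod_cast (Fact.out : p.Prime).one_lt
  have hp0 : (0 : ℝ) < p := by linarith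
  intro n
  unfold expSum
  rw [PowerSeries.coeff_mk]
  have hb : ‖∑ l, q l * ν l ^ n * ((n.factorial : E))⁻¹‖ ≤ (((p : ℝ) ^ n))⁻¹ := by
    apply IsUltrametricDist.norm_sum_le_of_forall_le_of_nonneg (by positivity)
    intro l _
    rw [norm_mul, norm_mul, norm_pow]
    have h1 : ‖q l‖ * ‖ν l‖ ^ n ≤ 1 * (((p : ℝ) ^ 3)⁻¹) ^ n :=
      mul_le_mul (hq l) (pow_le_pow_left₀ (norm_nonneg _) (hν l) n) (by positivity) (by norm_num)
    have h2 : ‖((n.factorial : E))⁻¹‖ ≤ (p : ℝ) ^ n := norm_inv_factorial_le (p := p) n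
    calc ‖q l‖ * ‖ν l‖ ^ n * ‖((n.factorial : E))⁻¹‖
        ≤ (1 * (((p : ℝ) ^ 3)⁻¹) ^ n) * (p : ℝ) ^ n :=
          mul_le_mul h1 h2 (norm_nonneg _) (by positivity)
      _ = (((p : ℝ) ^ 2)⁻¹) ^ n := by
          rw [one_mul, ← mul_pow]
          congr 1
          field_simp
      _ ≤ ((p : ℝ)⁻¹) ^ n := by
          apply pow_le_pow_left₀ (by positivity)
          apply inv_anti₀ hp0
          nlinarith
      _ = (((p : ℝ) ^ n))⁻¹ := by rw [inv_pow]
  calc ‖∑ l, q l * ν l ^ n * ((n.factorial : E))⁻¹‖ * (p : ℝ) ^ n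
      ≤ (((p : ℝ) ^ n))⁻¹ * (p : ℝ) ^ n := mul_le_mul_of_nonneg_right hb (by positivity)
    _ = 1 := inv_mul_cancel₀ (by positivity)

/-- interchange the finite sum and the series; `(ν s)^n = ν^n s^n`; `ex (s ν) = (ex ν)^s` -/
theorem ev_expSum (q ν : Λ → E) (hν : ∀ l, ‖ν l‖ ≤ ((p : ℝ) ^ 3)⁻¹) (s : ℕ) :
    ev (expSum q ν) (s : E) = ∑ l, q l * ex (ν l) ^ s := by
  have hp : (1 : ℝ) < p := by exact_mod_cast (Fact.out : p.Prime).one_lt
  have hp0 : (0 : ℝ) < p := by linarith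
  have hν2 : ∀ l, ‖ν l‖ ≤ ((p : ℝ) ^ 2)⁻¹ := fun l => (hν l).trans (by
    apply inv_anti₀ (by positivity)
    exact pow_le_pow_right₀ hp.le (by norm_num))
  have hs : ∀ l, ‖(s : E) * ν l‖ ≤ ((p : ℝ) ^ 2)⁻¹ := by
    intro l
    rw [norm_mul]
    calc ‖(s : E)‖ * ‖ν l‖ ≤ 1 * ((p : ℝ) ^ 2)⁻¹ :=
          mul_le_mul (norm_natCast_le_one' s) (hν2 l) (norm_nonneg _) (by norm_num)
      _ = _ := one_mul _
  have hex : ∀ l, ex (ν l) ^ s = ex ((s : E) * ν l) := by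
    intro l
    have := ex_int_mul (p := p) (hν2 l) (s : ℤ)
    rw [zpow_natCast] at this
    rw [← this]
    push_cast
    rfl
  unfold ev expSum
  simp only [PowerSeries.coeff_mk]
  have h1 : ∀ n : ℕ, (∑ l, q l * ν l ^ n * ((n.factorial : E))⁻¹) * (s : E) ^ n =
      ∑ l, q l * (((n.factorial : E))⁻¹ * ((s : E) * ν l) ^ n) := by
    intro n
    rw [Finset.sum_mul]
    refine Finset.sum_congr rfl fun l _ => ?_
    rw [mul_pow]
    ring
  simp only [h1]
  rw [Summable.tsum_finsetSum]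
  · refine Finset.sum_congr rfl fun l _ => ?_
    rw [tsum_mul_left, hex]
    rfl
  · intro l _
    exact (ex_summable (p := p) (hs l)).mul_left _

end Bru95
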