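import Pool.Agent.LibBru95.RBound
import Pool.Agent.LibBru95.RSum

/-! Row B9. Schwarz's lemma for exponential sums: `schwarz_bound` with `R = p`, `B = 1`, `A = Finset.range S`,
constant multiplicity `k`, `f = expSum q ν`. -/

namespace Bru95

variable {p : ℕ} [Fact p.Prime] {E : Type*} [NormedField E] [NormedAlgebra ℚ_[p] E]
  [IsUltrametricDist E] [CompleteSpace E] [CharZero E] {Λ : Type*} [Fintype Λ]

theorem schw (q ν : Λ → E) (hq : ∀ l, ‖q l‖ ≤ 1) (hν : ∀ l, ‖ν l‖ ≤ ((p : ℝ) ^ 3)⁻¹) (S k : ℕ)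
    (hz : ∀ s < S, ∀ m < k, ∑ l, q l * ν l ^ m * ex (ν l) ^ s = 0) (m s : ℕ) :
    ‖∑ l, q l * ν l ^ m * ex (ν l) ^ s‖ ≤ ((p : ℝ) ^ (S * k))⁻¹ := by
  have hR : (1 : ℝ) < p := by exact_mod_cast (Fact.out : p.Prime).one_lt
  have hev : ∀ m s : ℕ, ev (der^[m] (expSum q ν)) (s : E) =
      ∑ l, q l * ν l ^ m * ex (ν l) ^ s := fun m s => by
    rw [der_iter_expSum, ev_expSum (p := p) _ ν hν s]
  have h := schwarz_bound hR zero_le_one (Finset.range S) (fun _ => k) (expSum q ν)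
    (PB_expSum q ν hq hν) (fun s hs m hm => by
      rw [hev]
      exact hz s (Finset.mem_range.1 hs) m hm) m (t := (s : E))
    (IsUltrametricDist.norm_natCast_le_one E s)
  rw [hev, Finset.sum_const, Finset.card_range, smul_eq_mul, one_div] at h
  exact h

end Bru95
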