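import Pool.Agent.LibBru95.RPsi
import Pool.Agent.LibBru95.RLin

/-! Row B19. The upper bound for `σ (gam P τ s)`. With `c_l = σ(P_l) ∏_i σ(X(l,i))^(s_i)`:
`σ (gam P τ s) = ∑ c_l ∏_g σ(A(l,g))^(τ_g)` and `Psi P κ s = ∑ c_l ∏_i muL(l,i)^(κ_i)`, `muL = Y σ(A)` (`muL_eq`),
`σ(A) = Y⁻¹ muL`. `lin_change` with `Z = Y` (`B = 0`) gives the vanishing of all `Psi P κ s` of order `< T₁`;
`Psi_bound` bounds `‖Psi P κ s‖` by the real number `B` with `B^r p^(S T₁) = 1` (i.e. `B = p^(-S T₁/r)`); `lin_change` with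
`Z = Y⁻¹`, entries at most `C₀` gives `‖σ gam‖ ≤ C₀^T₁ B`; raise to the power `r`, `C = C₀^r`. -/

namespace Bru95

open NumberField

variable {p : ℕ} [Fact p.Prime] {E : Type*} [NormedField E] [NormedAlgebra ℚ_[p] E]
  [IsUltrametricDist E] [CompleteSpace E] [CharZero E]
  {F : Type*} [Field F] [NumberField F] {r : ℕ}

omit [IsUltrametricDist E] [CompleteSpace E] [CharZero E] in
private theorem RUpper_gam (D : SL p E F r) {N : ℕ} (P : (Fin (r + 1) → Fin N) → 𝓞 F)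
    (τ s : Fin r → ℕ) : D.σ (gam D.a D.x P τ s) =
      ∑ l, (D.σ (P l : F) * ∏ i, D.σ (Xev D.x l i) ^ s i) * ∏ g, D.σ (Aev D.a l g) ^ τ g := by
  unfold gam
  rw [map_sum]
  refine Finset.sum_congr rfl fun l _ => ?_
  rw [map_mul, map_mul, map_prod, map_prod]
  simp only [map_pow]
  ring

omit [IsUltrametricDist E] [CompleteSpace E] [CharZero E] in
private theorem RUpper_Psi (D : SL p E F r) {N : ℕ} (P : (Fin (r + 1) → Fin N) → 𝓞 F)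
    (κ s : Fin r → ℕ) : D.Psi P κ s =
      ∑ l, (D.σ (P l : F) * ∏ i, D.σ (Xev D.x l i) ^ s i) * ∏ i, D.muL l i ^ κ i := by
  unfold SL.Psi
  refine Finset.sum_congr rfl fun l _ => ?_
  ring

private theorem RUpper_bd {E : Type*} [NormedField E] {r : ℕ} (Z : Matrix (Fin r) (Fin r) E)
    (i j : Fin r) : ‖Z i j‖ ≤ 1 + ∑ i, ∑ j, ‖Z i j‖ := by
  have h1 : ‖Z i j‖ ≤ ∑ j, ‖Z i j‖ :=
    Finset.single_le_sum (f := fun j => ‖Z i j‖) (fun j _ => norm_nonneg _) (Finset.mem_univ j)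
  have h2 : (∑ j, ‖Z i j‖) ≤ ∑ i, ∑ j, ‖Z i j‖ :=
    Finset.single_le_sum (f := fun i => ∑ j, ‖Z i j‖)
      (fun i _ => Finset.sum_nonneg fun j _ => norm_nonneg _) (Finset.mem_univ i)
  linarith

theorem upper (D : SL p E F r) : ∃ C : ℝ, 1 ≤ C ∧ ∀ (N : ℕ) (P : (Fin (r + 1) → Fin N) → 𝓞 F)
    (S T₁ : ℕ), (∀ τ s : Fin r → ℕ, (∀ i, s i < S) → ∑ g, τ g < T₁ → gam D.a D.x P τ s = 0) →
    ∀ τ s : Fin r → ℕ, (∀ i, s i < S) → ∑ g, τ g = T₁ →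
      ‖D.σ (gam D.a D.x P τ s)‖ ^ r * (p : ℝ) ^ (S * T₁) ≤ C ^ T₁ := by
  have hp : (0 : ℝ) < p := by exact_mod_cast (Fact.out : p.Prime).pos
  have hr : r ≠ 0 := D.hr.ne'
  set C₀ : ℝ := 1 + ∑ i, ∑ j, ‖D.Y⁻¹ i j‖ with hC₀
  have hC₁ : 1 ≤ C₀ := by
    have : 0 ≤ ∑ i, ∑ j, ‖D.Y⁻¹ i j‖ :=
      Finset.sum_nonneg fun i _ => Finset.sum_nonneg fun j _ => norm_nonneg _
    linarith
  refine ⟨C₀ ^ r, one_le_pow₀ hC₁, ?_⟩
  intro N P S T₁ hvan τ s hs hτ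
  have hvan' : ∀ κ s : Fin r → ℕ, (∀ i, s i < S) → ∑ i, κ i < T₁ → D.Psi P κ s = 0 := by
    intro κ s hs hκ
    rw [← norm_le_zero_iff, RUpper_Psi]
    refine (lin_change (fun l => D.σ (P l : F) * ∏ i, D.σ (Xev D.x l i) ^ s i)
      (fun l g => D.σ (Aev D.a l g)) (fun l i => D.muL l i) D.Y (fun l g => muL_eq D l g)
      (C := 1 + ∑ i, ∑ j, ‖D.Y i j‖) ?_ (RUpper_bd D.Y) κ (B := 0) le_rfl ?_).trans
      (by rw [mul_zero])
    · have : 0 ≤ ∑ i, ∑ j, ‖D.Y i j‖ :=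
        Finset.sum_nonneg fun i _ => Finset.sum_nonneg fun j _ => norm_nonneg _
      linarith
    · intro κ' hκ'
      rw [← RUpper_gam, hvan κ' s hs (by omega), map_zero, norm_zero]
  have hpos : (0 : ℝ) < (p : ℝ) ^ (S * T₁) := pow_pos hp _
  obtain ⟨B, hB, hBr⟩ : ∃ B : ℝ, 0 ≤ B ∧ B ^ r = ((p : ℝ) ^ (S * T₁))⁻¹ :=
    ⟨(((p : ℝ) ^ (S * T₁))⁻¹) ^ ((r : ℝ)⁻¹), Real.rpow_nonneg (inv_nonneg.2 hpos.le) _,
      Real.rpow_inv_natCast_pow (inv_nonneg.2 hpos.le) hr⟩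
  have hPsi : ∀ κ : Fin r → ℕ, ∑ i, κ i = T₁ → ‖D.Psi P κ s‖ ≤ B := by
    intro κ hκ
    have h1 := Psi_bound D P S T₁ hvan' κ s hs hκ
    have h2 : ‖D.Psi P κ s‖ ^ r ≤ B ^ r := by
      rw [hBr, ← one_div, le_div_iff₀ hpos]
      exact h1
    exact le_of_pow_le_pow_left₀ hr hB h2
  have hinv : ∀ (l : Fin (r + 1) → Fin N) (g : Fin r),
      D.σ (Aev D.a l g) = ∑ i, D.Y⁻¹ g i * D.muL l i := by
    intro l g
    have h1 : (fun i => D.muL l i) = D.Y.mulVec fun g => D.σ (Aev D.a l g) := by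
      funext i
      exact muL_eq D l i
    have h2 : (D.Y⁻¹.mulVec fun i => D.muL l i) = fun g => D.σ (Aev D.a l g) := by
      rw [h1, Matrix.mulVec_mulVec, Matrix.nonsing_inv_mul _ (isUnit_iff_ne_zero.2 D.Y_det),
        Matrix.one_mulVec]
    exact (congrFun h2 g).symm
  have h1 : ‖D.σ (gam D.a D.x P τ s)‖ ≤ C₀ ^ T₁ * B := by
    rw [RUpper_gam]
    have h2 := lin_change (fun l => D.σ (P l : F) * ∏ i, D.σ (Xev D.x l i) ^ s i)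
      (fun l i => D.muL l i) (fun l g => D.σ (Aev D.a l g)) D.Y⁻¹ hinv
      (C := C₀) (by linarith) (RUpper_bd D.Y⁻¹) τ (B := B) hB (by
        intro κ hκ
        rw [← RUpper_Psi]
        exact hPsi κ (hκ.trans hτ))
    rwa [hτ] at h2
  calc ‖D.σ (gam D.a D.x P τ s)‖ ^ r * (p : ℝ) ^ (S * T₁)
      ≤ (C₀ ^ T₁ * B) ^ r * (p : ℝ) ^ (S * T₁) :=
        mul_le_mul_of_nonneg_right (pow_le_pow_left₀ (norm_nonneg _) h1 r) hpos.le
    _ = (C₀ ^ r) ^ T₁ := by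
        rw [mul_pow, hBr, mul_assoc, inv_mul_cancel₀ hpos.ne', mul_one, ← pow_mul, ← pow_mul,
          mul_comm T₁ r]

end Bru95
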